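import Mathlib

/-! The universal cover built from a holonomy function on paths. -/

set_option autoImplicit false
set_option linter.unusedSectionVars false

open Set Filter Topology

namespace Pool.Agent.P.MP_a8e993_al

/-- a faithful and full holonomy function on the paths of the component of `x₀` -/
structure Hol (N : Type*) [TopologicalSpace N] (x₀ : N) (G : Type*) [Group G] where
  h : ∀ {p q : N}, Path p q → G
  mul : ∀ {p q r : N} (γ : Path p q) (δ : Path q r), h (γ.trans δ) = h γ * h δ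
  hom : ∀ {p q : N} {γ δ : Path p q}, γ.Homotopic δ → h γ = h δ
  inj : ∀ {p : N}, Joined x₀ p → ∀ γ : Path p p, h γ = 1 → γ.Homotopic (Path.refl p)
  surj : ∀ g, ∃ γ : Path x₀ x₀, h γ = g

variable {N : Type*} [TopologicalSpace N] {x₀ : N} {G : Type*} [Group G]

open CategoryTheory in
theorem exists_hol (φ : FundamentalGroup N x₀ ≃* G) : Nonempty (Hol N x₀ G) := by
  classical
  let b : ∀ p, Joined x₀ p → Path.Homotopic.Quotient x₀ p := fun p hp => .mk hp.somePath
  let L : ∀ {p q : N}, Joined x₀ p → Path p q → FundamentalGroup N x₀ := fun {p q} hp γ =>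
    ((b p hp).trans (.mk γ)).trans (b q (hp.trans ⟨γ⟩)).symm
  refine ⟨⟨fun {p q} γ => if hp : Joined x₀ p then (φ (L hp γ))⁻¹ else 1, fun {p q r} γ δ => ?_,
    fun {p q γ δ} h => ?_, fun {p} hp γ h => ?_, fun g => ?_⟩⟩
  · by_cases hp : Joined x₀ p
    · have hq : Joined x₀ q := hp.trans ⟨γ⟩
      rw [dif_pos hp, dif_pos hp, dif_pos hq, ← mul_inv_rev, ← map_mul]
      congr 2
      rw [FundamentalGroup.mul_def]
      simp only [L, Path.Homotopic.Quotient.mk_trans, Path.Homotopic.Quotient.trans_assoc]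
      rw [← Path.Homotopic.Quotient.trans_assoc (b q _).symm, Path.Homotopic.Quotient.symm_trans,
        Path.Homotopic.Quotient.refl_trans]
    · have hq : ¬ Joined x₀ q := fun hq => hp (hq.trans ⟨γ.symm⟩)
      rw [dif_neg hp, dif_neg hp, dif_neg hq, mul_one]
  · simp only [L, Path.Homotopic.Quotient.eq.2 h]
  · rw [dif_pos hp, inv_eq_one, map_eq_one_iff _ φ.injective] at h
    have h' : ((b p hp).trans (.mk γ)).trans (b p hp).symm = .refl x₀ := h
    rw [← Path.Homotopic.Quotient.eq]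
    have := congrArg (fun c => ((b p hp).symm.trans c).trans (b p hp)) h'
    simp only [Path.Homotopic.Quotient.trans_assoc, Path.Homotopic.Quotient.symm_trans,
      Path.Homotopic.Quotient.trans_refl] at this
    rwa [← Path.Homotopic.Quotient.trans_assoc, Path.Homotopic.Quotient.symm_trans,
      Path.Homotopic.Quotient.refl_trans] at this
  · have h0 : Joined x₀ x₀ := Joined.refl x₀
    obtain ⟨γ, hγ⟩ := Path.Homotopic.Quotient.mk_surjective
      (((b x₀ h0).symm.trans (φ.symm g⁻¹)).trans (b x₀ h0))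
    refine ⟨γ, ?_⟩
    rw [dif_pos h0, inv_eq_iff_eq_inv, ← MulEquiv.eq_symm_apply]
    simp only [L, hγ, Path.Homotopic.Quotient.trans_assoc, Path.Homotopic.Quotient.trans_symm,
      Path.Homotopic.Quotient.trans_refl]
    rw [← Path.Homotopic.Quotient.trans_assoc, Path.Homotopic.Quotient.trans_symm,
      Path.Homotopic.Quotient.refl_trans]

namespace Hol

variable (H : Hol N x₀ G)

theorem h_refl (p : N) : H.h (Path.refl p) = 1 := by
  have := H.mul (Path.refl p) (Path.refl p)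
  rw [Path.refl_trans_refl] at this
  exact mul_eq_left.1 this.symm

theorem h_symm {p q : N} (γ : Path p q) : H.h γ.symm = (H.h γ)⁻¹ := by
  rw [eq_inv_iff_mul_eq_one, ← H.mul, H.hom (Path.Homotopic.symm_trans γ), H.h_refl]

theorem h_cast {p q p' q' : N} (γ : Path p q) (hp : p' = p) (hq : q' = q) :
    H.h (γ.cast hp hq) = H.h γ := by
  subst hp hq
  rfl

/-- the total space -/
@[ext] structure Cov (H : Hol N x₀ G) where
  pt : N
  g : G
  joined : Joined x₀ pt

variable {H}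

/-- transport along a path -/
def Cov.move (a : H.Cov) {q : N} (γ : Path a.pt q) : H.Cov :=
  ⟨q, a.g * H.h γ, a.joined.trans ⟨γ⟩⟩

instance : TopologicalSpace H.Cov where
  IsOpen W := ∀ a ∈ W, ∃ U ∈ 𝓝 a.pt, ∀ q (γ : Path a.pt q), (∀ t, γ t ∈ U) → a.move γ ∈ W
  isOpen_univ _ _ := ⟨univ, univ_mem, fun _ _ _ => trivial⟩
  isOpen_inter W W' h h' a ha := by
    obtain ⟨U, hU, h1⟩ := h a ha.1
    obtain ⟨U', hU', h2⟩ := h' a ha.2
    exact ⟨U ∩ U', inter_mem hU hU', fun q γ hγ =>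
      ⟨h1 q γ fun t => (hγ t).1, h2 q γ fun t => (hγ t).2⟩⟩
  isOpen_sUnion S hS a := by
    rintro ⟨W, hW, ha⟩
    obtain ⟨U, hU, h1⟩ := hS W hW a ha
    exact ⟨U, hU, fun q γ hγ => ⟨W, hW, h1 q γ hγ⟩⟩

theorem isOpen_iff {W : Set H.Cov} : IsOpen W ↔
    ∀ a ∈ W, ∃ U ∈ 𝓝 a.pt, ∀ q (γ : Path a.pt q), (∀ t, γ t ∈ U) → a.move γ ∈ W := Iff.rfl

instance : MulAction G H.Cov where
  smul g a := ⟨a.pt, g * a.g, a.joined⟩
  one_smul _ := Cov.ext rfl (one_mul _)
  mul_smul _ _ _ := Cov.ext rfl (mul_assoc _ _ _)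

theorem smul_pt (g : G) (a : H.Cov) : (g • a).pt = a.pt := rfl

theorem smul_g (g : G) (a : H.Cov) : (g • a).g = g * a.g := rfl

instance : ContinuousConstSMul G H.Cov where
  continuous_const_smul g := ⟨fun W hW a ha => by
    obtain ⟨U, hU, h⟩ := hW (g • a) ha
    refine ⟨U, hU, fun q γ hγ => ?_⟩
    have e : g • a.move γ = (g • a).move γ := Cov.ext rfl (mul_assoc _ _ _).symm
    rw [mem_preimage, e]
    exact h q γ hγ⟩

theorem continuous_pt : Continuous (Cov.pt : H.Cov → N) :=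
  ⟨fun V hV a ha => ⟨V, hV.mem_nhds ha, fun q γ hγ => by
    have := hγ 1
    rwa [γ.target] at this⟩⟩

/-- the sheet through `a` over `U` -/
def sheet (a : H.Cov) (U : Set N) : Set H.Cov :=
  {b | ∃ γ : Path a.pt b.pt, (∀ t, γ t ∈ U) ∧ b.g = a.g * H.h γ}

theorem isOpen_sheet (a : H.Cov) {U : Set N} (hU : IsOpen U) : IsOpen (sheet a U) := by
  rintro b ⟨γ, h1, h2⟩
  refine ⟨U, hU.mem_nhds (by simpa using h1 1), fun q δ hδ => ?_⟩
  have e1 : ∀ t, (γ.trans δ) t ∈ U := fun t => by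
    rw [Path.trans_apply]
    split_ifs
    exacts [h1 _, hδ _]
  have e2 : b.g * H.h δ = a.g * H.h (γ.trans δ) := by
    rw [h2, H.mul, mul_assoc]
  exact ⟨γ.trans δ, e1, e2⟩

theorem mem_sheet (a : H.Cov) {U : Set N} (h : a.pt ∈ U) : a ∈ sheet a U :=
  ⟨Path.refl _, fun _ => h, by rw [H.h_refl, mul_one]⟩

/-- loops in `U` have trivial holonomy -/
def Simple (H : Hol N x₀ G) (U : Set N) : Prop :=
  ∀ q (γ : Path q q), (∀ t, γ t ∈ U) → H.h γ = 1

theorem Simple.eq {U : Set N} (hU : H.Simple U) {p q : N} {γ δ : Path p q} (h1 : ∀ t, γ t ∈ U)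
    (h2 : ∀ t, δ t ∈ U) : H.h γ = H.h δ := by
  have := hU p (γ.trans δ.symm) fun t => by
    rw [Path.trans_apply]
    split_ifs
    exacts [h1 _, h2 _]
  rwa [H.mul, H.h_symm, mul_inv_eq_one] at this

theorem Simple.g_eq {U : Set N} (hU : H.Simple U) {a a' b b' : H.Cov} (ha : a.pt = a'.pt)
    (hb : b.pt = b'.pt) (h : b ∈ sheet a U) (h' : b' ∈ sheet a' U) :
    b.g * b'.g⁻¹ = a.g * a'.g⁻¹ := by
  obtain ⟨γ, h1, h2⟩ := h
  obtain ⟨δ, h1', h2'⟩ := h'
  rw [h2, h2', hU.eq (δ := δ.cast ha hb) h1 h1', H.h_cast]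
  group

theorem isOpenMap_pt [LocallyPathConnectedSpace N] : IsOpenMap (Cov.pt : H.Cov → N) := by
  intro W hW
  rw [isOpen_iff_mem_nhds]
  rintro _ ⟨a, ha, rfl⟩
  obtain ⟨U, hU, h⟩ := hW a ha
  obtain ⟨V, ⟨hV1, hV2⟩, hVU⟩ := (path_connected_basis a.pt).mem_iff.1 hU
  filter_upwards [hV1] with q hq
  obtain ⟨γ, hγ⟩ := hV2.joinedIn _ (mem_of_mem_nhds hV1) _ hq
  exact ⟨_, h q γ fun t => hVU (hγ t), rfl⟩

theorem isOpenEmbedding_sheet [LocallyPathConnectedSpace N] (a : H.Cov) {U : Set N}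
    (hU : IsOpen U) (hs : H.Simple U) :
    IsOpenEmbedding ((sheet a U).domRestrict (Cov.pt : H.Cov → N)) := by
  refine .of_continuous_injective_isOpenMap (continuous_pt.comp continuous_subtype_val) ?_
    (isOpenMap_pt.domRestrict (isOpen_sheet a hU))
  intro b b' e
  refine Subtype.ext (Cov.ext e ?_)
  have := hs.g_eq rfl e b.2 b'.2
  rwa [mul_inv_cancel, mul_inv_eq_one] at this

variable (hs : ∀ p : N, ∃ U, IsOpen U ∧ p ∈ U ∧ H.Simple U)
include hs

theorem isLocalHomeomorph_pt [LocallyPathConnectedSpace N] :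
    IsLocalHomeomorph (Cov.pt : H.Cov → N) :=
  isLocalHomeomorph_iff_isOpenEmbedding_restrict.2 fun a => by
    obtain ⟨U, h1, h2, h3⟩ := hs a.pt
    exact ⟨_, (isOpen_sheet a h1).mem_nhds (mem_sheet a h2), isOpenEmbedding_sheet a h1 h3⟩

theorem exists_nhds_subsingleton [T2Space N] (a b : H.Cov) : ∃ V ∈ 𝓝 a, ∃ W ∈ 𝓝 b,
    ∀ g : G, ∀ a' ∈ V, g • a' ∈ W → g • a = b := by
  by_cases h : a.pt = b.pt
  · obtain ⟨U, h1, h2, h3⟩ := hs a.pt
    refine ⟨_, (isOpen_sheet a h1).mem_nhds (mem_sheet a h2), _,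
      (isOpen_sheet b h1).mem_nhds (mem_sheet b (h ▸ h2)), fun g a' ha hb => Cov.ext h ?_⟩
    have := h3.g_eq h.symm (smul_pt g a') hb ha
    rw [smul_g, mul_inv_cancel_right] at this
    rw [smul_g, this, inv_mul_cancel_right]
  · obtain ⟨U, V, hU, hV, h1, h2, hd⟩ := t2_separation h
    exact ⟨_, continuous_pt.continuousAt (hU.mem_nhds h1), _,
      continuous_pt.continuousAt (hV.mem_nhds h2), fun g a' ha hb =>
        (Set.disjoint_left.1 hd ha hb).elim⟩

theorem t2Space [T2Space N] : T2Space H.Cov := by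
  refine t2_iff_nhds.2 fun {a b} h => ?_
  obtain ⟨V, hV, W, hW, h1⟩ := exists_nhds_subsingleton hs a b
  obtain ⟨c, hc1, hc2⟩ := h.nonempty_of_mem (inter_mem_inf hV hW)
  simpa using h1 1 c hc1 (by simpa using hc2)

theorem properlyDiscontinuous [T2Space N] : ProperlyDiscontinuousSMul G H.Cov := by
  refine ⟨fun {K L} hK hL => ?_⟩
  have := (hK.prod hL).induction_on
    (p := fun s => {g : G | ∃ z ∈ s, g • z.1 = z.2}.Finite) (by simp)
    (fun s t hst h => h.subset fun g ⟨z, hz, e⟩ => ⟨z, hst hz, e⟩)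
    (fun s t h h' => (h.union h').subset fun g ⟨z, hz, e⟩ =>
      hz.elim (fun hz => Or.inl ⟨z, hz, e⟩) fun hz => Or.inr ⟨z, hz, e⟩) (fun z _ => by
      obtain ⟨V, hV, W, hW, h1⟩ := exists_nhds_subsingleton hs z.1 z.2
      refine ⟨V ×ˢ W, mem_nhdsWithin_of_mem_nhds (prod_mem_nhds hV hW),
        (Set.finite_singleton (z.2.g * z.1.g⁻¹)).subset ?_⟩
      rintro g ⟨w, hw, e⟩
      have := congrArg Cov.g (h1 g w.1 hw.1 (e ▸ hw.2))
      rw [smul_g] at this
      rw [mem_singleton_iff, ← this, mul_inv_cancel_right])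
  exact this.subset fun g ⟨_, ⟨a, ha, rfl⟩, hb⟩ => ⟨(a, g • a), ⟨ha, hb⟩, rfl⟩

theorem secondCountable [LocallyPathConnectedSpace N] [SecondCountableTopology N]
    [Countable G] : SecondCountableTopology H.Cov := by
  have : ∀ p : N, ∃ U, IsOpen U ∧ p ∈ U ∧ H.Simple U ∧ IsPathConnected U := fun p => by
    obtain ⟨U, h1, h2, h3⟩ := hs p
    obtain ⟨V, ⟨g1, g2, g3⟩, g4⟩ := (isOpen_isPathConnected_basis p).mem_iff.1 (h1.mem_nhds h2)
    exact ⟨V, g1, g2, fun q γ hγ => h3 q γ fun t => g4 (hγ t), g3⟩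
  choose U h1 h2 h3 h4 using this
  obtain ⟨S, hS, hc⟩ := TopologicalSpace.countable_cover_nhds (fun p => (h1 p).mem_nhds (h2 p))
  have : Countable {a : H.Cov // a.pt ∈ S} := by
    have := hS.to_subtype
    exact Function.Injective.countable (f := fun a => ((⟨a.1.pt, a.2⟩, a.1.g) : S × G))
      fun a b e => Subtype.ext (Cov.ext (congrArg (·.1.1) e) (congrArg (·.2) e))
  have (a : {a : H.Cov // a.pt ∈ S}) : SecondCountableTopology (sheet a.1 (U a.1.pt)) :=
    (isOpenEmbedding_sheet a.1 (h1 _) (h3 _)).isEmbedding.secondCountableTopology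
  refine TopologicalSpace.secondCountableTopology_of_countable_cover
    (U := fun a : {a : H.Cov // a.pt ∈ S} => sheet a.1 (U a.1.pt))
    (fun a => isOpen_sheet _ (h1 _)) (eq_univ_of_forall fun b => ?_)
  obtain ⟨p, hp, hb⟩ : ∃ p ∈ S, b.pt ∈ U p := by simpa using hc.symm.subset (mem_univ b.pt)
  obtain ⟨γ, hγ⟩ := (h4 p).joinedIn _ hb _ (h2 p)
  refine mem_iUnion.2 ⟨⟨b.move γ, hp⟩, γ.symm, fun t => hγ _, ?_⟩
  change b.g = b.g * H.h γ * H.h γ.symm
  rw [H.h_symm, mul_inv_cancel_right]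

omit hs in
/-- the lift of a path -/
def lift (a : H.Cov) {p q : N} (γ : Path p q) (e : p = a.pt) (s : unitInterval) : H.Cov :=
  ⟨γ s, a.g * H.h (γ.subpath 0 s),
    (e ▸ a.joined : Joined x₀ p).trans ⟨(γ.subpath 0 s).cast γ.source.symm rfl⟩⟩

omit hs in
theorem continuous_lift (a : H.Cov) {p q : N} (γ : Path p q) (e : p = a.pt) :
    Continuous (lift a γ e) := by
  refine ⟨fun W hW => isOpen_iff_mem_nhds.2 fun s hs => ?_⟩
  obtain ⟨U, hU, h⟩ := hW _ hs
  obtain ⟨ε, hε, hb⟩ := Metric.mem_nhds_iff.1 (γ.continuous.continuousAt hU)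
  filter_upwards [Metric.ball_mem_nhds s hε] with s' hs'
  have e1 : ∀ t, γ.subpath s s' t ∈ U := fun t => by
    have h1 : γ.subpath s s' t ∈ range (γ.subpath s s') := ⟨t, rfl⟩
    rw [Path.range_subpath] at h1
    obtain ⟨u, hu, e⟩ := h1
    rw [← e]
    have h2 : dist u s ≤ dist s' s := abs_sub_left_of_mem_uIcc (a := (s : ℝ)) (b := s') (c := u) hu
    exact hb (Metric.mem_ball.2 (lt_of_le_of_lt h2 hs'))
  have e2 : a.g * H.h (γ.subpath 0 s') = a.g * H.h (γ.subpath 0 s) * H.h (γ.subpath s s') := by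
    rw [mul_assoc, ← H.mul, H.hom ⟨Path.Homotopy.subpathTransSubpath γ 0 s s'⟩]
  have e3 : lift a γ e s' = (lift a γ e s).move (γ.subpath s s') := Cov.ext rfl e2
  change lift a γ e s' ∈ W
  rw [e3]
  exact h (γ s') (γ.subpath s s') e1

omit hs in
theorem lift_zero (a : H.Cov) {p q : N} (γ : Path p q) (e : p = a.pt) : lift a γ e 0 = a := by
  refine Cov.ext (γ.source.trans e) ?_
  change a.g * H.h (γ.subpath 0 0) = a.g
  rw [Path.subpath_self, H.h_refl, mul_one]

omit hs in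
theorem lift_one_g (a : H.Cov) {p q : N} (γ : Path p q) (e : p = a.pt) :
    (lift a γ e 1).g = a.g * H.h γ := by
  change a.g * H.h (γ.subpath 0 1) = _
  rw [Path.subpath_zero_one, H.h_cast]

theorem simplyConnected [T2Space N] [LocallyPathConnectedSpace N] :
    SimplyConnectedSpace H.Cov := by
  have := t2Space hs
  have sep : IsSeparatedMap (Cov.pt : H.Cov → N) := T2Space.isSeparatedMap _
  have loc := isLocalHomeomorph_pt hs
  have uniq : ∀ {a b : H.Cov} (Γ : Path a b) (s : unitInterval),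
      lift a (Γ.map continuous_pt) rfl s = Γ s := fun {a b} Γ s =>
    congrFun (sep.eq_of_comp_eq loc.isLocallyInjective (continuous_lift a _ rfl) Γ.continuous rfl 0
      ((lift_zero a _ rfl).trans Γ.source.symm)) s
  refine simply_connected_iff_loops_nullhomotopic.2 ⟨?_, fun a Γ => ?_⟩
  · let a₀ : H.Cov := ⟨x₀, 1, Joined.refl x₀⟩
    have key : ∀ b, Joined a₀ b := fun b => by
      obtain ⟨δ⟩ := b.joined
      obtain ⟨γ, hγ⟩ := H.surj (b.g * (H.h δ)⁻¹)
      refine ⟨⟨⟨_, continuous_lift a₀ (γ.trans δ) rfl⟩, lift_zero a₀ (γ.trans δ) rfl,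
        Cov.ext ?_ ?_⟩⟩
      · exact (γ.trans δ).target
      · refine (lift_one_g a₀ (γ.trans δ) rfl).trans ?_
        rw [H.mul, hγ, inv_mul_cancel_right]
        exact one_mul _
    exact ⟨⟨a₀⟩, fun a b => (key a).symm.trans (key b)⟩
  · have h1 := lift_one_g a (Γ.map continuous_pt) rfl
    rw [uniq, Γ.target, left_eq_mul] at h1
    obtain ⟨F⟩ := H.inj a.joined _ h1
    have hc := loc.continuous_lift sep ((F : C(unitInterval × unitInterval, N)).comp .prodSwap)
      (g := fun st => lift a (F.eval st.2) rfl st.1) rfl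
      (by simp only [lift_zero]; exact continuous_const) fun w => continuous_lift a (F.eval w) rfl
    refine ⟨⟨⟨⟨fun z => lift a (F.eval z.1) rfl z.2, hc.comp continuous_swap⟩, fun s => ?_,
      fun s => ?_⟩, fun w s hs' => ?_⟩⟩
    · simp only [Path.Homotopy.eval_zero]
      exact uniq Γ s
    · simp only [Path.Homotopy.eval_one]
      exact uniq (Path.refl a) s
    · rcases hs' with rfl | rfl
      · exact (lift_zero a (F.eval w) rfl).trans Γ.source.symm
      · have h2 : lift a (F.eval w) rfl 1 = lift a (F.eval 0) rfl 1 :=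
          sep.const_of_comp loc.isLocallyInjective (hc.comp (.prodMk_right 1))
            (fun t t' => (F.eval t).target.trans (F.eval t').target.symm) w 0
        refine h2.trans ?_
        simp only [Path.Homotopy.eval_zero]
        exact uniq Γ 1

end Hol

end Pool.Agent.P.MP_a8e993_al
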