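import Pool.Agent.P.MP_a8e993_al.Obstruction

/-! Equivariant planes for a group acting on a simply connected space. -/

set_option autoImplicit false
set_option linter.unusedSectionVars false

open Set Filter Topology

namespace Pool.Agent.P.MP_a8e993_al

variable {G X : Type*} [Group G] [TopologicalSpace X] [MulAction G X] [ContinuousConstSMul G X]

theorem continuous_periodic {Y : Type*} [TopologicalSpace Y] (g : G) {φ : Y × ℝ → X}
    (hφ : Continuous φ) (h : ∀ y, φ (y, 1) = g • φ (y, 0)) :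
    Continuous fun p : Y × ℝ => g ^ ⌊p.2⌋ • φ (p.1, Int.fract p.2) := by
  refine continuous_iff_continuousAt.2 fun p₀ => ?_
  set n := ⌊p₀.2⌋ with hn
  have hc : Continuous fun p : Y × ℝ => if p.2 ≤ (n : ℝ) then
      g ^ (n - 1) • φ (p.1, p.2 - (n - 1)) else g ^ n • φ (p.1, p.2 - n) := by
    refine Continuous.if_le ((hφ.comp (by fun_prop)).const_smul _)
      ((hφ.comp (by fun_prop)).const_smul _) continuous_snd continuous_const fun p hp => ?_
    rw [hp, sub_sub_cancel, sub_self, h, ← mul_smul, ← zpow_add_one, sub_add_cancel]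
  refine hc.continuousAt.congr ?_
  have h1 : p₀.2 ∈ Ioo ((n : ℝ) - 1) (n + 1) :=
    ⟨by linarith [Int.floor_le p₀.2], Int.lt_floor_add_one _⟩
  filter_upwards [continuous_snd.continuousAt (isOpen_Ioo.mem_nhds h1)] with p hp
  obtain ⟨h2, h3⟩ : p.2 ∈ Ioo ((n : ℝ) - 1) (n + 1) := hp
  rcases lt_trichotomy p.2 n with e | e | e
  · have : ⌊p.2⌋ = n - 1 := Int.floor_eq_iff.2 ⟨by push_cast; linarith, by push_cast; linarith⟩
    rw [if_pos e.le, Int.fract, this]
    push_cast
    rfl
  · rw [if_pos e.le, e, sub_sub_cancel, h, ← mul_smul, ← zpow_add_one, sub_add_cancel,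
      Int.floor_intCast, Int.fract_intCast]
  · have : ⌊p.2⌋ = n := Int.floor_eq_iff.2 ⟨e.le, h3⟩
    rw [if_neg (not_le.2 e), Int.fract, this]

theorem periodic_eq {g : G} {l : ℝ → X} (h : ∀ u, l (u + 1) = g • l u) (u : ℝ) :
    l u = g ^ ⌊u⌋ • l (Int.fract u) := by
  have key : ∀ (n : ℤ) (v : ℝ), l (v + n) = g ^ n • l v := by
    intro n
    induction n using Int.induction_on with
    | zero => simp
    | succ n ih =>
      intro v
      rw [Int.cast_add, Int.cast_one, ← add_assoc, h, ih, ← mul_smul, add_comm, zpow_one_add]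
    | pred n ih =>
      intro v
      have := h (v + ((-(n : ℤ) - 1 : ℤ) : ℝ))
      rw [show v + ((-(n : ℤ) - 1 : ℤ) : ℝ) + 1 = v + ((-(n : ℤ) : ℤ) : ℝ) by push_cast; ring,
        ih] at this
      rw [show g ^ (-(n : ℤ) - 1) = g⁻¹ * g ^ (-(n : ℤ)) by group, mul_smul, this, inv_smul_smul]
  rw [← key, Int.fract_add_floor]

theorem exists_square [SimplyConnectedSpace X] {A B C D : ℝ → X} (hA : Continuous A)
    (hB : Continuous B) (hC : Continuous C) (hD : Continuous D) (h1 : A 0 = B 0) (h2 : A 1 = C 0)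
    (h3 : B 1 = D 0) (h4 : C 1 = D 1) : ∃ φ : unitInterval × unitInterval → X, Continuous φ ∧
      (∀ u, φ (0, u) = A u) ∧ (∀ u, φ (1, u) = D u) ∧ (∀ r, φ (r, 0) = B r) ∧
      ∀ r, φ (r, 1) = C r := by
  let mk : ∀ {a b : X} (E : ℝ → X), Continuous E → E 0 = a → E 1 = b → Path a b :=
    fun E hE e0 e1 => ⟨⟨fun u => E u, hE.comp continuous_subtype_val⟩, e0, e1⟩
  let P := (mk A hA rfl rfl).trans (mk C hC h2.symm rfl)
  let Q := (mk B hB h1.symm rfl).trans (mk D hD h3.symm h4.symm)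
  obtain ⟨H⟩ := SimplyConnectedSpace.paths_homotopic P Q
  let w : unitInterval × unitInterval → unitInterval := fun p => projIcc 0 1 zero_le_one
    (p.1 * (1 - p.2) / (p.1 * (1 - p.2) + p.2 * (1 - p.1)))
  let v : unitInterval × unitInterval → unitInterval := fun p => projIcc 0 1 zero_le_one
    ((p.1 + p.2) / 2)
  have hv : Continuous v := continuous_projIcc.comp (by fun_prop)
  have hP : ∀ p, P (v p) = P.extend ((p.1 + p.2) / 2) := fun _ => rfl
  have hQ : ∀ p, Q (v p) = Q.extend ((p.1 + p.2) / 2) := fun _ => rfl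
  have corner : ∀ (p : unitInterval × unitInterval) (c : X), (∀ s, H (s, v p) = c) →
      ContinuousAt (fun p => H (w p, v p)) p := by
    intro p c hc V hV
    change V ∈ 𝓝 (H (w p, v p)) at hV
    rw [hc] at hV
    have := isCompact_univ.eventually_forall_of_forall_eventually (x₀ := v p)
      (P := fun b a => H (a, b) ∈ V) fun a _ =>
        (H.continuous.comp continuous_swap).continuousAt (x := (v p, a)) (by
          show V ∈ 𝓝 (H (a, v p))
          rwa [hc])
    exact mem_map.2 (mem_of_superset (hv.continuousAt.eventually this) fun q hq => hq _ trivial)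
  have v0 : v (0, 0) = 0 := by simp [v]
  have v1 : v (1, 1) = 1 := by simp [v]
  refine ⟨fun p => H (w p, v p), continuous_iff_continuousAt.2 fun p => ?_, fun u => ?_,
    fun u => ?_, fun r => ?_, fun r => ?_⟩
  · by_cases hp : (p.1 : ℝ) * (1 - p.2) + p.2 * (1 - p.1) = 0
    · have a1 := p.1.2.1
      have a2 := p.1.2.2
      have a3 := p.2.2.1
      have a4 := p.2.2.2
      have b1 : (p.1 : ℝ) * (1 - p.2) = 0 := by
        linarith [mul_nonneg a1 (sub_nonneg.2 a4), mul_nonneg a3 (sub_nonneg.2 a2)]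
      have b2 : (p.2 : ℝ) * (1 - p.1) = 0 := by linarith
      rcases mul_eq_zero.1 b1 with e | e
      · have e' : (p.2 : ℝ) = 0 := by simpa [e] using b2
        have : p = (0, 0) := Prod.ext (Subtype.ext e) (Subtype.ext e')
        rw [this]
        exact corner _ _ fun s => by rw [v0]; exact H.source s
      · have e1 : (p.2 : ℝ) = 1 := by linarith
        have e' : (p.1 : ℝ) = 1 := by
          rw [e1, one_mul] at b2
          linarith
        have : p = (1, 1) := Prod.ext (Subtype.ext e') (Subtype.ext e1)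
        rw [this]
        exact corner _ _ fun s => by rw [v1]; exact H.target s
    · refine H.continuous.continuousAt.comp (ContinuousAt.prodMk ?_ hv.continuousAt)
      exact continuous_projIcc.continuousAt.comp (ContinuousAt.div (by fun_prop) (by fun_prop) hp)
  · have : w (0, u) = 0 := by simp [w]
    simp only [this, ContinuousMap.HomotopyWith.apply_zero, Path.coe_toContinuousMap]
    rw [hP, Path.extend_trans_of_le_half _ _ (by simp; linarith [u.2.2]),
      show (2 : ℝ) * ((((0 : unitInterval) : ℝ) + u) / 2) = u by simp; ring, Path.extend_extends']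
    rfl
  · by_cases hu : u = 1
    · subst hu
      simp only [v1]
      exact (H.target _).trans h4
    have hu' : (1 : ℝ) - u ≠ 0 := fun e => hu (Subtype.ext (sub_eq_zero.1 e).symm)
    have : w (1, u) = 1 := by simp [w, div_self hu']
    simp only [this, ContinuousMap.HomotopyWith.apply_one, Path.coe_toContinuousMap]
    rw [hQ, Path.extend_trans_of_half_le _ _ (by simp; linarith [u.2.1]),
      show (2 : ℝ) * ((((1 : unitInterval) : ℝ) + u) / 2) - 1 = u by simp; ring,
      Path.extend_extends']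
    rfl
  · by_cases hr : r = 0
    · subst hr
      simp only [v0]
      exact (H.source _).trans h1
    have hr' : (r : ℝ) ≠ 0 := fun e => hr (Subtype.ext e)
    have : w (r, 0) = 1 := by simp [w, div_self hr']
    simp only [this, ContinuousMap.HomotopyWith.apply_one, Path.coe_toContinuousMap]
    rw [hQ, Path.extend_trans_of_le_half _ _ (by simp; linarith [r.2.2]),
      show (2 : ℝ) * (((r : ℝ) + (0 : unitInterval)) / 2) = r by simp; ring, Path.extend_extends']
    rfl
  · have : w (r, 1) = 0 := by simp [w]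
    simp only [this, ContinuousMap.HomotopyWith.apply_zero, Path.coe_toContinuousMap]
    rw [hP, Path.extend_trans_of_half_le _ _ (by simp; linarith [r.2.1]),
      show (2 : ℝ) * (((r : ℝ) + (1 : unitInterval)) / 2) - 1 = r by simp; ring,
      Path.extend_extends']
    rfl

theorem exists_line [PathConnectedSpace X] (g : G) :
    ∃ l : ℝ → X, Continuous l ∧ ∀ u, l (u + 1) = g • l u := by
  obtain ⟨p⟩ : Nonempty X := inferInstance
  let γ := PathConnectedSpace.somePath p (g • p)
  have := continuous_periodic (Y := Unit) g (φ := fun q => γ.extend q.2)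
    (γ.continuous_extend.comp continuous_snd) (fun _ => by simp)
  refine ⟨fun u => g ^ ⌊u⌋ • γ.extend (Int.fract u),
    this.comp (continuous_const.prodMk continuous_id : Continuous fun u : ℝ => ((), u)),
    fun u => ?_⟩
  simp only [Int.floor_add_one, Int.fract_add_one]
  rw [← mul_smul, add_comm, zpow_one_add]

theorem exists_plane [SimplyConnectedSpace X] {x τ : G} (hc : Commute x τ) {l : ℝ → X}
    (hl : Continuous l) (h : ∀ u, l (u + 1) = τ • l u) :
    ∃ (Φ : ℝ × ℝ → X) (C : Set X), Continuous Φ ∧ IsCompact C ∧ (∀ u, Φ (u, 0) = l u) ∧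
      (∀ u r, Φ (u + 1, r) = τ • Φ (u, r)) ∧
      ∀ u r, ∃ c ∈ C, Φ (u, r) = (x ^ ⌊r⌋ * τ ^ ⌊u⌋) • c := by
  let γ := PathConnectedSpace.somePath (l 0) (x • l 0)
  obtain ⟨φ, hφ, h1, h2, h3, h4⟩ := exists_square (A := l) (B := γ.extend)
    (C := fun r => τ • γ.extend r) (D := fun u => x • l u) hl γ.continuous_extend
    (γ.continuous_extend.const_smul τ) (hl.const_smul x) (by simp)
    (by simpa using h 0) (by simp) (by
      have := h 0
      rw [zero_add] at this
      simp only [Path.extend_one, this]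
      rw [← mul_smul, ← mul_smul, hc.eq])
  let pj : ℝ → unitInterval := projIcc 0 1 zero_le_one
  have hpj : ∀ u : ℝ, (pj (Int.fract u) : ℝ) = Int.fract u := fun u => by
    rw [show pj (Int.fract u) = ⟨_, Int.fract_nonneg u, (Int.fract_lt_one u).le⟩ from
      projIcc_of_mem _ _]
  have hpc : Continuous pj := continuous_projIcc
  have pj0 : pj 0 = 0 := projIcc_left _
  have pj1 : pj 1 = 1 := projIcc_right _
  have c1 := continuous_periodic (Y := unitInterval) τ (φ := fun q => φ (q.1, pj q.2))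
    (hφ.comp (continuous_fst.prodMk (hpc.comp continuous_snd)))
    (fun r => by simp only [pj0, pj1, h3, h4])
  have c2 := continuous_periodic (Y := ℝ) x
    (φ := fun q => τ ^ ⌊q.1⌋ • φ (pj q.2, pj (Int.fract q.1)))
    (c1.comp ((hpc.comp continuous_snd).prodMk continuous_fst))
    (fun u => by
      simp only [pj0, pj1, h1, h2]
      rw [← mul_smul, ← mul_smul, (hc.zpow_right _).eq])
  refine ⟨_, range φ, c2, isCompact_range hφ, fun u => ?_, fun u r => ?_,
    fun u r => ⟨_, ⟨_, rfl⟩, (mul_smul _ _ _).symm⟩⟩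
  · simp only [Int.floor_zero, zpow_zero, one_smul, Int.fract_zero, pj0, h1, hpj]
    exact (periodic_eq h u).symm
  · simp only [Int.floor_add_one, Int.fract_add_one]
    rw [add_comm, zpow_one_add, mul_smul, ← mul_smul, ← mul_smul τ, (hc.zpow_left _).eq]

/-- the group-theoretic input -/
def Coarse (t : G) (x : Fin 4 → G) : Prop :=
  ∀ S : Set G, S.Finite → ∃ R : ℝ, ∀ (i j : Fin 4) (m m' k k' : ℤ), 0 ≤ m → 0 ≤ m' →
    (x i ^ m * t ^ k)⁻¹ * (x j ^ m' * t ^ k') ∈ S →
      |(k : ℝ) - k'| ≤ R ∧ (i = j → |(m : ℝ) - m'| ≤ R) ∧ (i ≠ j → (m : ℝ) ≤ R)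

theorem exists_config [SimplyConnectedSpace X] [ProperlyDiscontinuousSMul G X] {t : G}
    {x : Fin 4 → G} (h0 : Commute (x 0) t) (h1 : Commute (x 1) (t ^ 3))
    (h2 : x 2 = t * x 1 * t⁻¹) (h3 : x 3 = t * x 2 * t⁻¹) (hc : Coarse t x) :
    ∃ f R, Config (Homeomorph.smul t : X ≃ₜ X) f R := by
  obtain ⟨l, hl, hl'⟩ := exists_line (X := X) t
  obtain ⟨Φ, C, a1, a2, a3, a4, a5⟩ := exists_plane h0 hl hl'
  obtain ⟨Ψ, D, b1, b2, b3, b4, b5⟩ := exists_plane h1 (l := fun u => l (3 * u))
    (hl.comp (by fun_prop)) (fun u => by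
      rw [show 3 * (u + 1) = 3 * u + 1 + 1 + 1 by ring, hl', hl', hl', ← mul_smul, ← mul_smul,
        pow_three'])
  let f : Fin 4 → HP → X := ![fun z => Φ (z.1, z.2.1), fun z => Ψ (z.1 / 3, z.2.1),
    fun z => t • Ψ ((z.1 - 1) / 3, z.2.1), fun z => t • t • Ψ ((z.1 - 2) / 3, z.2.1)]
  have hax : ∀ i s, f i (bot 0 s) = l s := by
    intro i s
    fin_cases i
    · exact a3 s
    · show Ψ (s / 3, 0) = _
      rw [b3]; congr 1; ring
    · show t • Ψ ((s - 1) / 3, 0) = _
      rw [b3, ← hl']; congr 1; ring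
    · show t • t • Ψ ((s - 2) / 3, 0) = _
      rw [b3, ← hl', ← hl']; congr 1; ring
  have hfl : ∀ s c : ℝ, 0 ≤ c → c ≤ 2 → |3 * (⌊(s - c) / 3⌋ : ℝ) + c - s| ≤ 3 := by
    intro s c _ _
    have g1 := Int.floor_le ((s - c) / 3)
    have g2 := Int.lt_floor_add_one ((s - c) / 3)
    rw [abs_le]; constructor <;> linarith
  have hrep : ∀ i (z : HP), ∃ k : ℤ, ∃ c ∈ C ∪ D, |(k : ℝ) - z.1| ≤ 3 ∧
      f i z = (x i ^ ⌊z.2.1⌋ * t ^ k) • c := by
    intro i z
    fin_cases i
    · obtain ⟨c, hc, e⟩ := a5 z.1 z.2.1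
      refine ⟨⌊z.1⌋, c, Or.inl hc, ?_, e⟩
      rw [abs_le]; constructor <;> linarith [Int.floor_le z.1, Int.lt_floor_add_one z.1]
    · obtain ⟨c, hc, e⟩ := b5 (z.1 / 3) z.2.1
      refine ⟨3 * ⌊z.1 / 3⌋, c, Or.inr hc, ?_, ?_⟩
      · simpa using hfl z.1 0 le_rfl (by norm_num)
      · rw [zpow_mul, zpow_ofNat]; exact e
    · obtain ⟨c, hc, e⟩ := b5 ((z.1 - 1) / 3) z.2.1
      refine ⟨3 * ⌊(z.1 - 1) / 3⌋ + 1, c, Or.inr hc, ?_, ?_⟩
      · simpa using hfl z.1 1 zero_le_one (by norm_num)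
      · show t • Ψ _ = (x 2 ^ _ * _) • c
        rw [e, ← mul_smul, h2, conj_zpow, add_comm, zpow_one_add, zpow_mul]
        congr 1
        group
    · obtain ⟨c, hc, e⟩ := b5 ((z.1 - 2) / 3) z.2.1
      refine ⟨3 * ⌊(z.1 - 2) / 3⌋ + 2, c, Or.inr hc, ?_, ?_⟩
      · simpa using hfl z.1 2 zero_le_two le_rfl
      · show t • t • Ψ _ = (x 3 ^ _ * _) • c
        rw [e, ← mul_smul, ← mul_smul, h3, h2, conj_zpow, conj_zpow, add_comm, zpow_add, zpow_mul]
        congr 1
        group
  have hCD := a2.union b2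
  obtain ⟨R, hR⟩ := hc _ (ProperlyDiscontinuousSMul.finite_disjoint_inter_image hCD hCD)
  have key : ∀ i j (z w : HP), f i z = f j w → |z.1 - w.1| ≤ |R| + 6 ∧
      (i = j → |z.2.1 - w.2.1| ≤ |R| + 6) ∧ (i ≠ j → z.2.1 ≤ |R| + 6) := by
    intro i j z w e
    obtain ⟨k, c, hc, g1, e1⟩ := hrep i z
    obtain ⟨k', c', hc', g2, e2⟩ := hrep j w
    obtain ⟨p1, p2, p3⟩ := hR i j ⌊z.2.1⌋ ⌊w.2.1⌋ k k' (Int.floor_nonneg.2 z.2.2)
      (Int.floor_nonneg.2 w.2.2)
      ⟨c, ⟨c', hc', by simp only; rw [mul_smul, ← e2, ← e, e1, inv_smul_smul]⟩, hc⟩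
    have q := le_abs_self R
    have q1 := Int.floor_le z.2.1
    have q2 := Int.lt_floor_add_one z.2.1
    have q3 := Int.floor_le w.2.1
    have q4 := Int.lt_floor_add_one w.2.1
    rw [abs_le] at g1 g2 p1
    refine ⟨abs_le.2 ⟨by linarith, by linarith⟩, fun hij => ?_, fun hij => by linarith [p3 hij]⟩
    have := abs_le.1 (p2 hij)
    exact abs_le.2 ⟨by linarith, by linarith⟩
  refine ⟨f, |R| + 6, fun i => ?_, fun K hK => ?_, fun i j s => by rw [hax, hax], fun i z => ?_,
    by positivity, fun i j z w e => (key i j z w e).1, fun i z w e => (key i i z w e).2.1 rfl,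
    fun i j z w hij e => (key i j z w e).2.2 hij⟩
  · have hh := continuous_ht (Y := ℝ) (a := 0)
    fin_cases i
    · exact a1.comp (continuous_fst.prodMk hh)
    · exact b1.comp ((continuous_fst.div_const 3).prodMk hh)
    · exact (b1.comp (((continuous_fst.sub continuous_const).div_const 3).prodMk hh)).const_smul t
    · exact ((b1.comp (((continuous_fst.sub continuous_const).div_const 3).prodMk hh)).const_smul
        t).const_smul t
  · obtain ⟨S, hS⟩ := hc _ (ProperlyDiscontinuousSMul.finite_disjoint_inter_image hCD hK)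
    refine ⟨S + 3, fun i z hz => ?_⟩
    obtain ⟨k, c, hc, g1, e1⟩ := hrep i z
    obtain ⟨p1, p2, -⟩ := hS i i 0 ⌊z.2.1⌋ 0 k le_rfl (Int.floor_nonneg.2 z.2.2)
      ⟨f i z, ⟨c, hc, by simp [e1]⟩, hz⟩
    have p2 := p2 rfl
    have q2 := Int.lt_floor_add_one z.2.1
    simp only [Int.cast_zero, zero_sub, abs_neg] at p1 p2
    rw [abs_le] at g1 p1 p2
    exact ⟨abs_le.2 ⟨by linarith, by linarith⟩, by linarith⟩
  · fin_cases i
    · exact (a4 z.1 z.2.1).symm
    · show t • Ψ (z.1 / 3, z.2.1) = t • Ψ ((z.1 + 1 - 1) / 3, z.2.1)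
      rw [add_sub_cancel_right]
    · show t • t • Ψ ((z.1 - 1) / 3, z.2.1) = t • t • Ψ ((z.1 + 1 - 2) / 3, z.2.1)
      rw [show z.1 + 1 - 2 = z.1 - 1 by ring]
    · show t • t • t • Ψ ((z.1 - 2) / 3, z.2.1) = Ψ ((z.1 + 1) / 3, z.2.1)
      rw [show (z.1 + 1) / 3 = (z.1 - 2) / 3 + 1 by ring, b4, pow_three, mul_smul, mul_smul]

end Pool.Agent.P.MP_a8e993_al
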