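import Mathlib

/-! A compact manifold with boundary is homotopy equivalent to the open set of its points
that have a Euclidean chart. -/

set_option autoImplicit false
set_option linter.unusedSectionVars false

open Set Filter Topology
open scoped Manifold

namespace Pool.Agent.P.MP_a8e993_al

/-- the points with a Euclidean chart -/
def Inn (M : Type*) [TopologicalSpace M] : Set M :=
  {p | ∃ e : OpenPartialHomeomorph M ((ℝ × ℝ) × ℝ), p ∈ e.source}

variable {M : Type*} [TopologicalSpace M]

theorem isOpen_inn : IsOpen (Inn M) :=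
  isOpen_iff_mem_nhds.2 fun _ ⟨e, he⟩ =>
    mem_of_superset (e.open_source.mem_nhds he) fun _ hq => ⟨e, hq⟩

/-- the open half space -/
noncomputable def openHalfChart :
    OpenPartialHomeomorph (EuclideanHalfSpace 3) (EuclideanSpace ℝ (Fin 3)) where
  toFun := Subtype.val
  invFun := (𝓡∂ 3).symm
  source := {y | 0 < y.1 0}
  target := {x | 0 < x 0}
  map_source' _ h := h
  map_target' x hx := by
    have : ((𝓡∂ 3).symm x).1 = x := (𝓡∂ 3).right_inv ⟨⟨x, le_of_lt hx⟩, rfl⟩
    change 0 < ((𝓡∂ 3).symm x).1 0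
    rw [this]
    exact hx
  left_inv' y _ := (𝓡∂ 3).left_inv y
  right_inv' x hx := (𝓡∂ 3).right_inv ⟨⟨x, le_of_lt hx⟩, rfl⟩
  open_source := isOpen_lt continuous_const
    ((EuclideanSpace.proj (𝕜 := ℝ) (0 : Fin 3)).continuous.comp continuous_subtype_val)
  open_target := isOpen_lt continuous_const (EuclideanSpace.proj (𝕜 := ℝ) (0 : Fin 3)).continuous
  continuousOn_toFun := continuous_subtype_val.continuousOn
  continuousOn_invFun := (𝓡∂ 3).continuous_symm.continuousOn

theorem mem_inn (c : OpenPartialHomeomorph M (EuclideanHalfSpace 3)) {q : M} (hq : q ∈ c.source)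
    (h : 0 < (c q).1 0) : q ∈ Inn M := by
  let L : EuclideanSpace ℝ (Fin 3) ≃L[ℝ] ((ℝ × ℝ) × ℝ) :=
    ContinuousLinearEquiv.ofFinrankEq (by simp)
  exact ⟨(c.trans openHalfChart).transHomeomorph L.toHomeomorph, hq, h⟩

/-- the set `V` can be pushed into the interior -/
def Push (V : Set M) : Prop :=
  ∃ K : unitInterval × M → M, Continuous K ∧ (∀ q, K (0, q) = q) ∧
    (∀ z, K z = z.2 ∨ K z ∈ Inn M) ∧ ∀ q ∈ V, K (1, q) ∈ Inn M

theorem Push.union {V W : Set M} (hV : Push V) (hW : Push W) : Push (V ∪ W) := by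
  obtain ⟨K, a1, a2, a3, a4⟩ := hV
  obtain ⟨K', b1, b2, b3, b4⟩ := hW
  refine ⟨fun z => K' (z.1, K z), b1.comp (continuous_fst.prodMk a1), fun q => by
    simp only [a2, b2], fun z => ?_, fun q hq => ?_⟩
  · rcases b3 (z.1, K z) with h | h
    · simp only [h]
      exact a3 z
    · exact Or.inr h
  · have key : K (1, q) ∈ Inn M → K' (1, K (1, q)) ∈ Inn M := fun h =>
      (b3 (1, K (1, q))).elim (fun e => by rw [e]; exact h) id
    rcases hq with hq | hq
    · exact key (a4 q hq)
    · rcases a3 (1, q) with h | h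
      · simp only [h]
        exact b4 q hq
      · exact key h

theorem exists_push (c : OpenPartialHomeomorph M (EuclideanHalfSpace 3)) [T2Space M] {p : M}
    (hp : p ∈ c.source) : ∃ V ∈ 𝓝 p, Push V := by
  classical
  obtain ⟨T, hT, hTs⟩ := (mem_nhds_subtype _ _ _).1 (c.open_target.mem_nhds (c.map_source hp))
  obtain ⟨ε, hε, hb⟩ := Metric.nhds_basis_closedBall.mem_iff.1 hT
  set o : EuclideanSpace ℝ (Fin 3) := (c p).1 with ho
  let β : EuclideanHalfSpace 3 → ℝ := fun y => max 0 (ε - dist y.1 o)
  have hβ : ∀ y, 0 ≤ β y := fun y => le_max_left _ _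
  have cβ : Continuous β := continuous_const.max
    (continuous_const.sub (continuous_subtype_val.dist continuous_const))
  let k : unitInterval × EuclideanHalfSpace 3 → EuclideanHalfSpace 3 := fun z =>
    ⟨z.2.1 + ((z.1 : ℝ) * β z.2) • EuclideanSpace.single 0 1, by
      have := mul_nonneg z.1.2.1 (hβ z.2)
      have := z.2.2
      simp only [PiLp.add_apply, PiLp.smul_apply, PiLp.single_apply, if_true,
        smul_eq_mul, mul_one]
      positivity⟩
  have ck : Continuous k := Continuous.subtype_mk
    ((continuous_subtype_val.comp continuous_snd).add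
      (((continuous_subtype_val.comp continuous_fst).mul (cβ.comp continuous_snd)).smul
        continuous_const)) _
  have k0 : ∀ z, (k z).1 0 = z.2.1 0 + (z.1 : ℝ) * β z.2 := fun z => by simp [k]
  have k1 : ∀ z : unitInterval × EuclideanHalfSpace 3, (z.1 : ℝ) * β z.2 = 0 → k z = z.2 :=
    fun z h => Subtype.ext (by simp only [k, h, zero_smul, add_zero])
  have β0 : ∀ y : EuclideanHalfSpace 3, ¬ dist y.1 o ≤ ε → β y = 0 := fun y h =>
    max_eq_left (by linarith [not_le.1 h])
  have k2 : ∀ z : unitInterval × EuclideanHalfSpace 3, z.2 ∈ c.target → k z ∈ c.target := by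
    intro z hz
    by_cases h : dist z.2.1 o ≤ ε
    · refine hTs (hb ?_)
      have e1 : dist (k z).1 z.2.1 = (z.1 : ℝ) * β z.2 := by
        simp only [k, dist_self_add_left, norm_smul, PiLp.norm_single, norm_one, mul_one]
        exact abs_of_nonneg (mul_nonneg z.1.2.1 (hβ _))
      have e2 : β z.2 = ε - dist z.2.1 o := max_eq_right (by linarith)
      have e3 := dist_triangle (k z).1 z.2.1 o
      have e4 := mul_le_of_le_one_left (hβ z.2) z.1.2.2
      change dist (k z).1 o ≤ ε
      linarith
    · rw [k1 z (by rw [β0 _ h, mul_zero])]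
      exact hz
  have hC : IsCompact (c.symm '' {y : EuclideanHalfSpace 3 | dist y.1 o ≤ ε}) := by
    refine IsCompact.image_of_continuousOn ?_ (c.continuousOn_symm.mono fun y hy => hTs (hb hy))
    have : IsClosed {x : EuclideanSpace ℝ (Fin 3) | 0 ≤ x 0} :=
      isClosed_le continuous_const (EuclideanSpace.proj (𝕜 := ℝ) (0 : Fin 3)).continuous
    exact this.isClosedEmbedding_subtypeVal.isCompact_preimage (isCompact_closedBall o ε)
  refine ⟨c.source ∩ c ⁻¹' {y | dist y.1 o < ε}, inter_mem (c.open_source.mem_nhds hp)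
    (c.continuousAt hp ((isOpen_lt (continuous_subtype_val.dist continuous_const)
      continuous_const).mem_nhds ((dist_self o).trans_lt hε))),
    fun z => if z.2 ∈ c.source then c.symm (k (z.1, c z.2)) else z.2, ?_, fun q => ?_,
    fun z => ?_, fun q hq => ?_⟩
  · refine continuous_iff_continuousAt.2 fun z => ?_
    by_cases hz : z.2 ∈ c.source
    · have h1 : ContinuousAt (fun w : unitInterval × M => c.symm (k (w.1, c w.2))) z :=
        ContinuousAt.comp (f := fun w : unitInterval × M => k (w.1, c w.2))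
          (c.continuousAt_symm (k2 _ (c.map_source hz)))
          (ck.continuousAt.comp (continuousAt_fst.prodMk
            ((c.continuousAt hz).comp continuousAt_snd)))
      refine h1.congr ?_
      filter_upwards [continuous_snd.continuousAt (c.open_source.mem_nhds hz)] with w hw
      exact (if_pos hw).symm
    · have h1 : z.2 ∈ (c.symm '' {y : EuclideanHalfSpace 3 | dist y.1 o ≤ ε})ᶜ := by
        rintro ⟨y, hy, e⟩
        exact hz (e ▸ c.map_target (hTs (hb hy)))
      refine continuousAt_snd.congr ?_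
      filter_upwards [continuous_snd.continuousAt (hC.isClosed.isOpen_compl.mem_nhds h1)] with w hw
      split_ifs with h
      · have h2 : ¬ dist (c w.2).1 o ≤ ε := fun h2 => hw ⟨_, h2, c.left_inv h⟩
        rw [k1 _ (by rw [β0 _ h2, mul_zero]), c.left_inv h]
      · rfl
  · simp only
    split_ifs with h
    · rw [k1 _ (by simp), c.left_inv h]
    · rfl
  · simp only
    split_ifs with h
    · rcases (mul_nonneg z.1.2.1 (hβ (c z.2))).eq_or_lt with h1 | h1
      · left
        rw [k1 _ h1.symm, c.left_inv h]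
      · right
        have h2 := k2 (z.1, c z.2) (c.map_source h)
        refine mem_inn c (c.map_target h2) ?_
        rw [c.right_inv h2, k0]
        exact add_pos_of_nonneg_of_pos (c z.2).2 h1
    · exact Or.inl rfl
  · simp only [if_pos hq.1]
    have h2 := k2 (1, c q) (c.map_source hq.1)
    refine mem_inn c (c.map_target h2) ?_
    rw [c.right_inv h2, k0]
    refine add_pos_of_nonneg_of_pos (c q).2 ?_
    have : dist (c q).1 o < ε := hq.2
    simp only [Icc.coe_one, one_mul]
    exact lt_max_of_lt_right (by linarith)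

theorem push_univ [T2Space M] [CompactSpace M] [ChartedSpace (EuclideanHalfSpace 3) M] :
    Push (univ : Set M) :=
  isCompact_univ.induction_on (p := Push)
    ⟨Prod.snd, continuous_snd, fun _ => rfl, fun _ => Or.inl rfl, fun _ h => h.elim⟩
    (fun _ _ hst ⟨K, a1, a2, a3, a4⟩ => ⟨K, a1, a2, a3, fun q hq => a4 q (hst hq)⟩)
    (fun _ _ => Push.union) fun p _ => by
      obtain ⟨V, hV, h⟩ := exists_push (chartAt _ p) (mem_chart_source _ p)
      exact ⟨V, mem_nhdsWithin_of_mem_nhds hV, h⟩

theorem exists_iso [T2Space M] [CompactSpace M] [ChartedSpace (EuclideanHalfSpace 3) M] (x : M) :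
    ∃ y : Inn M, Nonempty (FundamentalGroup M x ≃* FundamentalGroup (Inn M) y) := by
  obtain ⟨K, a1, a2, a3, a4⟩ := push_univ (M := M)
  have a5 : ∀ z : unitInterval × Inn M, K (z.1, z.2.1) ∈ Inn M := fun z =>
    (a3 (z.1, z.2.1)).elim (fun e => by rw [e]; exact z.2.2) id
  let r : C(M, Inn M) := ⟨fun q => ⟨K (1, q), a4 q trivial⟩,
    (a1.comp (continuous_const.prodMk continuous_id)).subtype_mk _⟩
  let e : ContinuousMap.HomotopyEquiv M (Inn M) :=
    { toFun := r
      invFun := ⟨Subtype.val, continuous_subtype_val⟩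
      left_inv := ContinuousMap.Homotopic.symm ⟨⟨⟨K, a1⟩, a2, fun _ => rfl⟩⟩
      right_inv := ContinuousMap.Homotopic.symm ⟨⟨⟨fun z => ⟨K (z.1, z.2.1), a5 z⟩,
        (a1.comp (continuous_fst.prodMk (continuous_subtype_val.comp continuous_snd))).subtype_mk _⟩,
        fun q => Subtype.ext (a2 _), fun _ => rfl⟩⟩ }
  exact ⟨r x, ⟨(FundamentalGroupoidFunctor.equivOfHomotopyEquiv e).fullyFaithfulFunctor.mulEquivEnd
    (FundamentalGroupoid.mk x)⟩⟩

end Pool.Agent.P.MP_a8e993_al
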