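import Pool.Agent.P.MP_a8e993_al.Obstruction
import Pool.Agent.P.MP_a8e993_al.Planes
import Pool.Agent.P.MP_a8e993_al.Cover
import Pool.Agent.P.MP_a8e993_al.Push

/-! A group with the four coarse half planes is not the fundamental group of a compact
three dimensional manifold. -/

set_option autoImplicit false
set_option linter.unusedSectionVars false

open Set Filter Topology

namespace Pool.Agent.P.MP_a8e993_al

variable {X Y : Type*} [TopologicalSpace X] [TopologicalSpace Y]

theorem mem_inn_of_localHomeo {f : X → Y} (hf : IsLocalHomeomorph f) {x : X}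
    (h : f x ∈ Inn Y) : x ∈ Inn X := by
  obtain ⟨e, he⟩ := h
  obtain ⟨c, hc, rfl⟩ := hf x
  exact ⟨c.trans e, hc, he⟩

/-- an atlas from the existence of charts -/
@[reducible] noncomputable def chartedOfInn (h : ∀ x : X, x ∈ Inn X) :
    ChartedSpace ((ℝ × ℝ) × ℝ) X where
  atlas := univ
  chartAt x := (h x).choose
  mem_chart_source x := (h x).choose_spec
  chart_mem_atlas _ := trivial

theorem exists_null {p : X} (h : p ∈ Inn X) : ∃ U, IsOpen U ∧ p ∈ U ∧
    ∀ q (γ : Path q q), (∀ t, γ t ∈ U) → γ.Homotopic (Path.refl q) := by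
  obtain ⟨e, he⟩ := h
  obtain ⟨ε, hε, hb⟩ := Metric.mem_nhds_iff.1 (e.open_target.mem_nhds (e.map_source he))
  refine ⟨e.source ∩ e ⁻¹' Metric.ball (e p) ε, e.isOpen_inter_preimage Metric.isOpen_ball,
    ⟨he, Metric.mem_ball_self hε⟩, fun q γ hγ => ?_⟩
  have hq := hγ 0
  rw [γ.source] at hq
  have c1 : Continuous fun t => e (γ t) :=
    e.continuousOn.comp_continuous γ.continuous fun t => (hγ t).1
  have c2 : Continuous fun z : unitInterval × unitInterval =>
      (1 - (z.1 : ℝ)) • e (γ z.2) + (z.1 : ℝ) • e q :=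
    ((continuous_const.sub (continuous_subtype_val.comp continuous_fst)).smul
      (c1.comp continuous_snd)).add
      ((continuous_subtype_val.comp continuous_fst).smul continuous_const)
  have m : ∀ z : unitInterval × unitInterval,
      (1 - (z.1 : ℝ)) • e (γ z.2) + (z.1 : ℝ) • e q ∈ e.target := fun z =>
    hb (convex_ball _ _ (hγ z.2).2 hq.2 (sub_nonneg.2 z.1.2.2) z.1.2.1 (sub_add_cancel _ _))
  refine ⟨⟨⟨⟨_, e.continuousOn_symm.comp_continuous c2 m⟩, fun t => ?_, fun t => ?_⟩,
    fun s t ht => ?_⟩⟩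
  · simp [e.left_inv (hγ t).1]
  · simp [e.left_inv hq.1]
  · rcases ht with rfl | rfl <;> simp [← add_smul, e.left_inv hq.1]

theorem not_fundamentalGroup {G : Type*} [Group G] [Countable G] {t : G} {x : Fin 4 → G}
    (h0 : Commute (x 0) t) (h1 : Commute (x 1) (t ^ 3))
    (h2 : x 2 = t * x 1 * t⁻¹) (h3 : x 3 = t * x 2 * t⁻¹) (hc : Coarse t x)
    {M : Type*} [TopologicalSpace M] [T2Space M] [CompactSpace M]
    [ChartedSpace (EuclideanHalfSpace 3) M] (p : M) (φ : FundamentalGroup M p ≃* G) : False := by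
  obtain ⟨y, ⟨ψ⟩⟩ := exists_iso p
  obtain ⟨H⟩ := exists_hol (ψ.symm.trans φ)
  have : SecondCountableTopology (EuclideanHalfSpace 3) :=
    inferInstanceAs (SecondCountableTopology {x : EuclideanSpace ℝ (Fin 3) // 0 ≤ x 0})
  have := ChartedSpace.secondCountable_of_sigmaCompact (EuclideanHalfSpace 3) M
  have hN : ∀ q : Inn M, q ∈ Inn (Inn M) := fun q =>
    mem_inn_of_localHomeo isOpen_inn.isOpenEmbedding_subtypeVal.isLocalHomeomorph q.2
  have : LocallyPathConnectedSpace (Inn M) :=
    let _ := chartedOfInn hN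
    ChartedSpace.locallyPathConnectedSpace ((ℝ × ℝ) × ℝ) _
  have hs : ∀ q : Inn M, ∃ U, IsOpen U ∧ q ∈ U ∧ H.Simple U := fun q => by
    obtain ⟨U, a1, a2, a3⟩ := exists_null (hN q)
    exact ⟨U, a1, a2, fun r γ hγ => (H.hom (a3 r γ hγ)).trans (H.h_refl r)⟩
  have hX : ∀ a : H.Cov, a ∈ Inn H.Cov := fun a =>
    mem_inn_of_localHomeo (Hol.isLocalHomeomorph_pt hs) (hN _)
  have := Hol.t2Space hs
  have := Hol.properlyDiscontinuous hs
  have := Hol.secondCountable hs
  have := Hol.simplyConnected hs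
  have : LocallyPathConnectedSpace H.Cov :=
    let _ := chartedOfInn hX
    ChartedSpace.locallyPathConnectedSpace ((ℝ × ℝ) × ℝ) _
  have : LocallyCompactSpace H.Cov :=
    let _ := chartedOfInn hX
    ChartedSpace.locallyCompactSpace ((ℝ × ℝ) × ℝ) _
  obtain ⟨f, R, h⟩ := exists_config (X := H.Cov) h0 h1 h2 h3 hc
  exact h.false (mfd_of_charts hX)

end Pool.Agent.P.MP_a8e993_al
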