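import Pool.Agent.P.MP_a8e993_al.Homotopy

/-! Suspension: compactly supported cohomology of open boxes. -/

set_option autoImplicit false
set_option linter.unusedSectionVars false

open Set Filter Topology unitInterval

namespace Pool.Agent.P.MP_a8e993_al

section Susp

variable {Y : Type*} [TopologicalSpace Y] [LocallyCompactSpace Y] [T2Space Y] {a : ℝ}

instance (a : ℝ) : LocallyCompactSpace (Ici a) := isClosed_Ici.locallyCompactSpace

/-- the half-open cylinder -/
def cyl (a : ℝ) (U : Set Y) (J : Set ℝ) : Set (Y × Ici a) := {p | p.1 ∈ U ∧ p.2.1 ∈ J}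

/-- the open cylinder -/
def cyl' (a : ℝ) (U : Set Y) (J : Set ℝ) : Set (Y × Ici a) := {p | p.1 ∈ U ∧ a < p.2.1 ∧ p.2.1 ∈ J}

/-- the bottom inclusion -/
def bot (a : ℝ) (y : Y) : Y × Ici a := (y, ⟨a, le_refl a⟩)

theorem continuous_bot : Continuous (bot a : Y → Y × Ici a) :=
  continuous_id.prodMk continuous_const

theorem continuous_ht : Continuous fun p : Y × Ici a => p.2.1 :=
  continuous_subtype_val.comp continuous_snd

theorem isOpen_cyl {U : Set Y} {J : Set ℝ} (hU : IsOpen U) (hJ : IsOpen J) :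
    IsOpen (cyl a U J) :=
  (hU.preimage continuous_fst).inter (hJ.preimage continuous_ht)

theorem isOpen_cyl' {U : Set Y} {J : Set ℝ} (hU : IsOpen U) (hJ : IsOpen J) :
    IsOpen (cyl' a U J) :=
  (hU.preimage continuous_fst).inter
    ((isOpen_lt continuous_const continuous_ht).inter (hJ.preimage continuous_ht))

theorem cyl'_subset {U : Set Y} {J : Set ℝ} : cyl' a U J ⊆ cyl a U J :=
  fun _ h => ⟨h.1, h.2.2⟩

theorem isCompact_slab {K : Set Y} (hK : IsCompact K) (R : ℝ) :
    IsCompact {p : Y × Ici a | p.1 ∈ K ∧ p.2.1 ≤ R} := by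
  have : IsCompact ((Subtype.val : Ici a → ℝ) ⁻¹' Icc a R) :=
    isClosed_Ici.isClosedEmbedding_subtypeVal.isCompact_preimage isCompact_Icc
  convert hK.prod this using 1
  ext p
  exact ⟨fun h => ⟨h.1, p.2.2, h.2⟩, fun h => ⟨h.1, h.2.2⟩⟩

theorem cyl_van {U : Set Y} {J : Set ℝ} (hU : IsOpen U) (hJ : IsOpen J) (hl : IsLowerSet J)
    (ha : a ∈ J) {n : ℕ} {φ : Co (Y × Ici a)} (h : Zc (n + 1) (cyl a U J) φ) :
    Bd n (cyl a U J) φ := by
  obtain ⟨R, hR, haR, hs⟩ : ∃ R ∈ J, a ≤ R ∧ ∀ p ∈ supp φ, p.2.1 < R := by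
    have hc : IsCompact (insert a ((fun p : Y × Ici a => p.2.1) '' supp φ)) :=
      (h.cpt.image continuous_ht).insert a
    obtain ⟨r, hr, hmax⟩ := hc.exists_isMaxOn (insert_nonempty _ _) continuousOn_id
    have hrJ : r ∈ J := by
      rcases hr with rfl | ⟨p, hp, rfl⟩
      · exact ha
      · exact (h.sub hp).2
    obtain ⟨ε, hε, hb⟩ := Metric.isOpen_iff.1 hJ r hrJ
    refine ⟨r + ε / 2, hb (by simp [abs_of_pos hε, hε]), ?_, fun p hp => ?_⟩
    · have : a ≤ r := hmax (mem_insert _ _)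
      linarith
    · have : p.2.1 ≤ r := hmax (mem_insert_of_mem _ ⟨p, hp, rfl⟩)
      linarith
  let H : Y × Ici a → I → Y × Ici a := fun p s =>
    (p.1, ⟨max p.2.1 (a + s * (R - a)), mem_Ici.2 (le_max_of_le_left (mem_Ici.1 p.2.2))⟩)
  have hc : Continuous fun q : (Y × Ici a) × I => H q.1 q.2 := by
    refine (continuous_fst.comp continuous_fst).prodMk (Continuous.subtype_mk ?_ _)
    exact (continuous_ht.comp continuous_fst).max (by fun_prop)
  have := homotopy_bd hc h.deg h.coc (isCompact_slab (h.cpt.image continuous_fst) R)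
    (isOpen_cyl hU hJ) (by
      rintro p ⟨⟨q, hq, e⟩, h2⟩
      exact ⟨e ▸ (h.sub hq).1, hl h2 hR⟩) (by
      intro z s hz
      refine lz_of_notMem fun h' => hz ⟨⟨_, h', rfl⟩, ?_⟩
      exact (le_max_left _ _).trans (hs _ h').le)
  rw [pb_id' φ (fun p => by
    refine Prod.ext rfl (Subtype.ext ?_)
    have : a ≤ p.2.1 := p.2.2
    simp [H, this])] at this
  refine this.of_add (Null.bd (fun p => ?_) _ _)
  refine LZ.pb (g := fun z => H z 1) (lz_of_notMem fun h' => ?_)
    (hc.comp (continuous_id.prodMk continuous_const)).continuousAt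
  have := hs _ h'
  simp [H] at this

theorem cc_pb_bot {U : Set Y} {J : Set ℝ} {n : ℕ} {b : Co (Y × Ici a)}
    (h : Cc n (cyl a U J) b) : Cc n U (pb (bot a) b) :=
  h.pb continuous_bot (h.cpt.image continuous_fst) (fun _ hy => ⟨_, hy, rfl⟩) fun _ hy => hy.1

theorem null_pb_bot {U : Set Y} {J : Set ℝ} {w : Co (Y × Ici a)}
    (h : supp w ⊆ cyl' a U J) : Null (pb (bot a) w) := fun _ =>
  (supp_subset_iff.1 h _ fun h' => lt_irrefl a h'.2.1).pb continuous_bot.continuousAt

theorem susp_bd {U : Set Y} {J : Set ℝ} (hU : IsOpen U) (hJ : IsOpen J) (ha : a ∈ J) {n : ℕ}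
    {b w : Co (Y × Ici a)} (hb : Cc (n + 1) (cyl a U J) b) (hw : Null (w + dl b))
    (hs : supp w ⊆ cyl' a U J) (hβ : Bd n U (pb (bot a) b)) : Bd (n + 1) (cyl' a U J) w := by
  obtain ⟨d, hd, hd'⟩ := hβ
  have hA : IsClosed {p : Y × Ici a | p.2.1 = a} := isClosed_eq continuous_ht continuous_const
  have hfix : ∀ p ∈ {p : Y × Ici a | p.2.1 = a}, bot a p.1 = p :=
    fun p hp => Prod.ext rfl (Subtype.ext hp.symm)
  have hrc : Continuous fun p : Y × Ici a => bot a p.1 := continuous_bot.comp continuous_fst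
  obtain ⟨e, he, -, he'⟩ := localize (A := {p : Y × Ici a | p.2.1 = a}) (isOpen_cyl hU hJ)
    (hd.cpt.image continuous_bot) (by
      rintro _ ⟨y, hy, rfl⟩
      exact ⟨hd.sub hy, ha⟩) (hd.deg.pb Prod.fst) hd.nil (fun p hp hpK =>
      (lz_of_notMem fun h' => hpK ⟨p.1, h', hfix p hp⟩).pb continuous_fst.continuousAt)
  obtain ⟨ψ, hψ, hψ'⟩ := taut (isOpen_cyl hU hJ) hA (r := fun p => bot a p.1)
    (fun p hp => by
      have := hrc.tendsto p
      rwa [hfix p hp] at this) (hb.add he.dl) (fun p hp => by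
      have h1 : LZ (e + pb Prod.fst d) (bot a p.1) := by rw [hfix p hp]; exact he' p hp
      have h2 := (LZ.pb (g := fun p : Y × Ici a => bot a p.1) h1 hrc.continuousAt).dl
      have h3 := (hd'.pb (continuous_fst (X := Y) (Y := Ici a))) p
      have := h3.add h2
      rw [pb_add, pb_add, dl_add, pb_pb, pb_pb, ← dl_pb] at this
      rw [pb_add, ← dl_pb]
      convert this using 1
      have e1 : (Prod.fst ∘ fun p : Y × Ici a => bot a p.1) = Prod.fst := rfl
      have e2 : (bot a ∘ Prod.fst : Y × Ici a → Y × Ici a) = fun p => bot a p.1 := rfl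
      rw [e1, e2]
      have := co_add_self (dl (pb (Prod.fst : Y × Ici a → Y) d))
      linear_combination -this) (fun p hp => by
      rw [dl_add, dl_dl, add_zero]
      exact (hw p).of_add' (supp_subset_iff.1 hs p fun h' => h'.2.1.ne' hp))
  have hc := (hb.add he.dl).add hψ.dl
  refine ⟨_, hc.shrink fun p hp => ?_, ?_⟩
  · have h1 := hc.sub hp
    refine ⟨h1.1, lt_of_le_of_ne p.2.2 fun h' => hp (hψ' p h'.symm), h1.2⟩
  · rwa [dl_add, dl_add, dl_dl, dl_dl, add_zero, add_zero]

theorem susp_bd_rev {U : Set Y} {J : Set ℝ} (hU : IsOpen U) (hJ : IsOpen J) (hl : IsLowerSet J)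
    (ha : a ∈ J) {n : ℕ} {b w : Co (Y × Ici a)} (hb : Cc (n + 1) (cyl a U J) b)
    (hw : Null (w + dl b)) (h : Bd (n + 1) (cyl' a U J) w) : Bd n U (pb (bot a) b) := by
  obtain ⟨y, hy, hy'⟩ := h
  obtain ⟨d, hd, hd'⟩ := cyl_van hU hJ hl ha (φ := b + y)
    ⟨hb.add (hy.mono cyl'_subset), by rw [dl_add]; exact hw.symm.trans hy'⟩
  refine ⟨_, cc_pb_bot hd, ?_⟩
  have := (hd'.pb continuous_bot).add (null_pb_bot hy.sub)
  rw [pb_add, pb_add, ← dl_pb] at this
  convert this using 1
  have := co_add_self (pb (bot a) y)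
  linear_combination -this

theorem zc_pb_bot {U : Set Y} {J : Set ℝ} {n : ℕ} {b w : Co (Y × Ici a)}
    (hb : Cc n (cyl a U J) b) (hw : Null (w + dl b)) (hs : supp w ⊆ cyl' a U J) :
    Zc n U (pb (bot a) b) := by
  refine ⟨cc_pb_bot hb, fun y => ?_⟩
  have := hw.pb continuous_bot y
  rw [pb_add, ← dl_pb] at this
  exact this.of_add' (null_pb_bot hs y)

/-- a cocycle on the base gives a cocycle concentrated at any prescribed height -/
theorem exists_susp {U W : Set Y} {J : Set ℝ} (hl : IsLowerSet J) {n : ℕ} {β : Co Y}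
    (hβ : Zc n W β) (hWU : W ⊆ U) {r : ℝ} (har : a ≤ r) (hr : r ∈ J) :
    ∃ b : Co (Y × Ici a), Cc n (cyl a U J) b ∧ pb (bot a) b = β ∧
      supp (dl b) ⊆ {p | p.1 ∈ W ∧ p.2.1 = r} := by
  have hs : supp (cut (ind {p : Y × Ici a | p.2.1 ≤ r}) (pb Prod.fst β)) ⊆
      {p | p.1 ∈ supp β ∧ p.2.1 ≤ r} := by
    refine supp_subset_iff.2 fun p hp => ?_
    by_cases h1 : p.1 ∈ supp β
    · refine lz_cut_ind_zero ?_ _
      exact (isClosed_le continuous_ht continuous_const).isOpen_compl.mem_nhds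
        fun h2 => hp ⟨h1, h2⟩
    · exact ((lz_of_notMem h1).pb continuous_fst.continuousAt).cut _
  refine ⟨_, cc_of_subset ((hβ.deg.pb _).cut _) rfl (isCompact_slab hβ.cpt r) hs
    (fun p hp => ⟨hWU (hβ.sub (hs hp).1), hl (hs hp).2 hr⟩), ?_, ?_⟩
  · rw [pb_cut, pb_pb]
    rw [pb_id' β (g := Prod.fst ∘ bot a) fun _ => rfl]
    exact cut_one (fun y => ind_of_mem (S := {p : Y × Ici a | p.2.1 ≤ r}) (x := bot a y) har)
      hβ.nil
  · refine supp_subset_iff.2 fun p hp => ?_
    by_cases h1 : p ∈ supp (cut (ind {p : Y × Ici a | p.2.1 ≤ r}) (pb Prod.fst β))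
    · have h2 : p.2.1 < r := lt_of_le_of_ne (hs h1).2 fun h => hp ⟨hβ.sub (hs h1).1, h⟩
      have h3 := (lz_cut_ind_one (S := {p : Y × Ici a | p.2.1 ≤ r}) (x := p)
        (mem_of_superset ((isOpen_lt continuous_ht continuous_const).mem_nhds h2)
          fun q hq => show q.2.1 ≤ r from le_of_lt hq) (φ := pb Prod.fst β) hβ.nil).dl_add
      refine h3.of_add ?_
      rw [dl_pb]
      exact (hβ.coc _).pb continuous_fst.continuousAt
    · exact (lz_of_notMem h1).dl

theorem Good.susp {U : Set Y} {J : Set ℝ} {k : ℕ} (hU : Good k U) (hJ : IsOpen J)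
    (hl : IsLowerSet J) (ha : a ∈ J) : Good (k + 1) (cyl' a U J) := by
  refine ⟨isOpen_cyl' hU.isOpen hJ, ?_, fun m w hm hw => ?_, fun w w' hw hw' hn hn' => ?_,
    fun x hx W hW => ?_⟩
  · have h1 : IsPreconnected ((Subtype.val : Ici a → ℝ) ⁻¹' (Ioi a ∩ J)) := by
      rw [← IsInducing.subtypeVal.isPreconnected_image, Subtype.image_preimage_coe,
        inter_eq_right.2 (inter_subset_left.trans Ioi_subset_Ici_self)]
      exact (ordConnected_Ioi.inter hl.ordConnected).isPreconnected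
    exact hU.conn.prod h1
  · obtain ⟨b, hb, hb'⟩ := cyl_van hU.isOpen hJ hl ha (hw.mono cyl'_subset)
    cases m with
    | zero => exact (Bd.null_of_zero ⟨b, hb, hb'⟩).bd _ _
    | succ n =>
      exact susp_bd hU.isOpen hJ ha hb hb' hw.sub
        (hU.van n _ (by omega) (zc_pb_bot hb hb' hw.sub))
  · obtain ⟨b, hb, hb'⟩ := cyl_van hU.isOpen hJ hl ha (hw.mono cyl'_subset)
    obtain ⟨c, hc, hc'⟩ := cyl_van hU.isOpen hJ hl ha (hw'.mono cyl'_subset)
    refine susp_bd hU.isOpen hJ ha (hb.add hc) ?_ (hw.add hw').sub ?_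
    · have := hb'.add hc'
      rw [dl_add]
      convert this using 1
      ring
    · exact hU.one _ _ (zc_pb_bot hb hb' hw.sub) (zc_pb_bot hc hc' hw'.sub)
        (fun h => hn (susp_bd hU.isOpen hJ ha hb hb' hw.sub h))
        (fun h => hn' (susp_bd hU.isOpen hJ ha hc hc' hw'.sub h))
  · have hW1 : (fun y : Y => (y, x.2)) ⁻¹' W ∈ 𝓝 x.1 :=
      (continuous_id.prodMk continuous_const).continuousAt hW
    obtain ⟨β, hβ, hβ'⟩ := hU.loc x.1 hx.1 _ hW1
    obtain ⟨b, hb, e, hs⟩ := exists_susp (a := a) hl hβ inter_subset_right x.2.2 hx.2.2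
    refine ⟨dl b, ⟨hb.dl.shrink fun p hp => ?_, hb.zc_dl.coc⟩, fun h => hβ' ?_⟩
    · obtain ⟨⟨h1, h2⟩, h3⟩ := hs hp
      have e2 : p.2 = x.2 := Subtype.ext h3
      refine ⟨?_, h2, ?_⟩
      · have : p = (p.1, x.2) := Prod.ext rfl e2
        rw [this]; exact h1
      · rw [e2]; exact hx.2
    · rw [← e]
      exact susp_bd_rev hU.isOpen hJ hl ha hb (null_refl _) h

/-- the open half-cylinder as an open subset of the full cylinder -/
noncomputable def halfChart (Y : Type*) [TopologicalSpace Y] (a : ℝ) :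
    OpenPartialHomeomorph (Y × ℝ) (Y × Ici a) where
  toFun p := (p.1, projIci a p.2)
  invFun p := (p.1, p.2.1)
  source := {p | a < p.2}
  target := {p | a < p.2.1}
  map_source' p hp := by
    simp only [mem_ofPred_eq] at hp ⊢
    rwa [projIci_of_mem hp.le]
  map_target' p hp := hp
  left_inv' p hp := by
    simp only [mem_ofPred_eq] at hp
    rw [projIci_of_mem (mem_Ici.2 hp.le)]
  right_inv' p _ := by simp
  open_source := isOpen_lt continuous_const continuous_snd
  open_target := isOpen_lt continuous_const (continuous_subtype_val.comp continuous_snd)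
  continuousOn_toFun :=
    (continuous_fst.prodMk ((Continuous.subtype_mk (by fun_prop) _ :
      Continuous (projIci a)).comp continuous_snd)).continuousOn
  continuousOn_invFun :=
    (continuous_fst.prodMk (continuous_subtype_val.comp continuous_snd)).continuousOn

theorem Good.prod_Ioo {U : Set Y} {k : ℕ} (hU : Good k U) (a b : ℝ) :
    Good (k + 1) (U ×ˢ Ioo a b) := by
  rcases le_or_gt b a with h | h
  · rw [Ioo_eq_empty (not_lt.2 h), prod_empty]; exact good_empty _
  have := (hU.susp (a := a) isOpen_Iio (isLowerSet_Iio b) h).transfer (halfChart Y a)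
    fun p hp => hp.2.1
  convert this using 1
  ext p
  constructor
  · rintro ⟨h1, h2, h3⟩
    refine ⟨h2, h1, ?_⟩
    change a < (projIci a p.2).1 ∧ (projIci a p.2).1 < b
    rw [projIci_of_mem h2.le]
    exact ⟨h2, h3⟩
  · rintro ⟨h1, h2, h3⟩
    change a < (projIci a p.2).1 ∧ (projIci a p.2).1 < b at h3
    rw [projIci_of_mem (le_of_lt h1)] at h3
    exact ⟨h2, h3⟩

end Susp

theorem good_unit : Good 0 (univ : Set Unit) := by
  have hlz : ∀ φ : Co Unit, LZ φ () → φ = 0 := by
    rintro φ ⟨V, hV, h⟩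
    funext l
    exact h l fun y _ => mem_of_mem_nhds hV
  have hbd : ∀ φ : Co Unit, Deg 1 φ → φ [()] = 0 → Bd 0 univ φ := by
    intro φ hd h
    have : φ = 0 := by
      funext l
      match l with
      | [] => exact hd _ (by simp)
      | [()] => exact h
      | _ :: _ :: _ => exact hd _ (by simp)
    rw [this]
    exact null_zero.bd _ _
  refine ⟨isOpen_univ, isPreconnected_univ, fun n φ hn h => ?_, fun φ ψ h h' hn hn' => ?_,
    fun x _ W hW => ?_⟩
  · have h0 := hlz _ (h.coc ())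
    refine ⟨fun m => φ (() :: m), ⟨fun l hl => h.deg _ (by simpa using hl),
      h.deg _ (by simpa using hn), (Set.toFinite _).isCompact, subset_univ _⟩, ?_⟩
    have : (φ + dl fun m => φ (() :: m)) = 0 := by
      funext l
      exact congrFun h0 (() :: l)
    rw [this]
    exact null_zero
  · refine hbd _ (h.deg.add h'.deg) ?_
    have h1 := (zmod2_cases (φ [()])).resolve_left fun e => hn (hbd _ h.deg e)
    have h2 := (zmod2_cases (ψ [()])).resolve_left fun e => hn' (hbd _ h'.deg e)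
    rw [Pi.add_apply, h1, h2]; rfl
  · refine ⟨fun l => if l.length = 1 then 1 else 0, ⟨⟨fun l hl => if_neg hl, rfl,
      (Set.toFinite _).isCompact, fun y _ => ⟨mem_of_mem_nhds hW, trivial⟩⟩, ?_⟩, fun h => ?_⟩
    · have hd : Deg 1 (fun l : List Unit => if l.length = 1 then (1 : ZMod 2) else 0) :=
        fun l hl => if_neg hl
      have : dl (fun l : List Unit => if l.length = 1 then (1 : ZMod 2) else 0) = 0 := by
        funext l
        match l with
        | [] => rfl
        | [()] => exact hd.dl _ (by simp)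
        | [(), ()] => simp [dl_cons]; rfl
        | _ :: _ :: _ :: _ => exact hd.dl _ (by simp)
      rw [this]
      exact null_zero
    · have := congrFun (hlz _ (h.null_of_zero ())) [()]
      simp at this

theorem good_Ioo (a b : ℝ) : Good 1 (Ioo a b) := by
  have := (good_unit.prod_Ioo a b).transfer
    (Homeomorph.uniqueProd Unit ℝ).symm.toOpenPartialHomeomorph (subset_univ _)
  convert this using 1
  ext x
  exact ⟨fun h => ⟨trivial, trivial, h⟩, fun h => h.2.2⟩

theorem good_real : Good 1 (univ : Set ℝ) := by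
  have := Good.iUnion (B := fun n : ℕ => Ioo (-(n : ℝ)) n) (fun n => good_Ioo _ _)
    fun m n h => Ioo_subset_Ioo (neg_le_neg (Nat.cast_le.2 h)) (Nat.cast_le.2 h)
  convert this using 1
  refine (eq_univ_of_forall fun x => ?_).symm
  obtain ⟨n, hn⟩ := exists_nat_gt |x|
  exact mem_iUnion.2 ⟨n, abs_lt.1 hn⟩

theorem good_plane : Good 2 (univ : Set (ℝ × ℝ)) := by
  have := Good.iUnion (B := fun n : ℕ => (univ : Set ℝ) ×ˢ Ioo (-(n : ℝ)) n)
    (fun n => good_real.prod_Ioo _ _) fun m n h => prod_mono le_rfl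
      (Ioo_subset_Ioo (neg_le_neg (Nat.cast_le.2 h)) (Nat.cast_le.2 h))
  convert this using 1
  refine (eq_univ_of_forall fun x => ?_).symm
  obtain ⟨n, hn⟩ := exists_nat_gt |x.2|
  exact mem_iUnion.2 ⟨n, trivial, abs_lt.1 hn⟩

end Pool.Agent.P.MP_a8e993_al
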