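import Pool.Agent.P.MP_a8e993_al.Homotopy

/-! On a simply connected space, locally constant mod 2 cocycles are trivial. -/

set_option autoImplicit false
set_option linter.unusedSectionVars false

open Set Filter Topology

namespace Pool.Agent.P.MP_a8e993_al

variable {X : Type*} [TopologicalSpace X]

theorem cech [SimplyConnectedSpace X] [LocallyPathConnectedSpace X] {ι : Type*}
    (U : ι → Set X) (hU : ∀ i, IsOpen (U i)) (hc : ∀ x, ∃ i, x ∈ U i)
    (g : ι → ι → X → ZMod 2)
    (hl : ∀ i j x, x ∈ U i → x ∈ U j → ∀ᶠ y in 𝓝 x, g i j y = g i j x)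
    (hg : ∀ i j k x, x ∈ U i → x ∈ U j → x ∈ U k → g i j x + g j k x = g i k x) :
    ∃ s : ι → X → ZMod 2, (∀ i, ∀ x ∈ U i, ∀ᶠ y in 𝓝 x, s i y = s i x) ∧
      ∀ i j x, x ∈ U i → x ∈ U j → s i x + s j x = g i j x := by
  choose idx hidx using hc
  have hself : ∀ i x, x ∈ U i → g i i x = 0 := fun i x hx => by
    have := hg i i i x hx hx hx
    rw [add_self2] at this
    exact this.symm
  let Z : FiberBundleCore ι X (ZMod 2) :=
    { baseSet := U
      isOpen_baseSet := hU
      indexAt := idx
      mem_baseSet_at := hidx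
      coordChange := fun i j x v => v + g i j x
      coordChange_self := fun i x hx v => by rw [hself i x hx, add_zero]
      continuousOn_coordChange := fun i j => by
        intro p hp
        refine ContinuousAt.continuousWithinAt
          ((continuousAt_const (y := p.2 + g i j p.1)).congr ?_)
        filter_upwards [continuous_fst.continuousAt (hl i j p.1 hp.1.1 hp.1.2),
          continuous_snd.continuousAt ((isOpen_discrete {p.2}).mem_nhds rfl)] with q h1 h2
        have h1' : g i j q.1 = g i j p.1 := h1
        have h2' : q.2 = p.2 := h2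
        rw [h1', h2']
      coordChange_comp := fun i j k x hx v => by
        rw [add_assoc, hg i j k x hx.1.1 hx.1.2 hx.2] }
  have cov : IsCoveringMap Z.proj :=
    IsCoveringMap.mk Z.proj (fun _ => ZMod 2) Z.localTrivAt Z.mem_localTrivAt_baseSet
  obtain ⟨x₀⟩ : Nonempty X := inferInstance
  obtain ⟨F, ⟨-, hF⟩, -⟩ := cov.existsUnique_continuousMap_lifts (ContinuousMap.id X) x₀
    ⟨x₀, (0 : ZMod 2)⟩ rfl
  have hF' : ∀ x, (F x).1 = x := fun x => congrFun hF x
  refine ⟨fun i x => (Z.localTriv i (F x)).2, fun i x hx => ?_, fun i j x hi hj => ?_⟩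
  · have h1 : ContinuousAt (fun x => (Z.localTriv i (F x)).2) x := by
      refine continuous_snd.continuousAt.comp (ContinuousAt.comp ?_ F.continuous.continuousAt)
      refine (Z.localTriv i).continuousAt ?_
      rw [Z.mem_localTriv_source, hF']
      exact hx
    exact h1 ((isOpen_discrete {(Z.localTriv i (F x)).2}).mem_nhds rfl)
  · simp only [FiberBundleCore.localTriv_apply]
    change ((show ZMod 2 from (F x).2) + g (idx (F x).1) i (F x).1) +
      ((show ZMod 2 from (F x).2) + g (idx (F x).1) j (F x).1) = _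
    generalize (show ZMod 2 from (F x).2) = v
    rw [hF']
    have h1 := hg (idx x) i j x (hidx x) hi hj
    have h2 := add_self2 v
    have h3 := add_self2 (g (idx x) i x)
    linear_combination h2 - h1 + h3

/-- a function as a cochain on lists of length one -/
def zc {X : Type*} (φ : X → ZMod 2) : Co X
  | [x] => φ x
  | _ => 0

theorem deg_zc {X : Type*} (φ : X → ZMod 2) : Deg 1 (zc φ) := by
  intro l hl
  match l with
  | [] => rfl
  | [_] => simp at hl
  | _ :: _ :: _ => rfl

theorem zc_add {X : Type*} (φ ψ : X → ZMod 2) : zc (φ + ψ) = zc φ + zc ψ := by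
  funext l
  match l with
  | [] => rfl
  | [_] => rfl
  | _ :: _ :: _ => rfl

theorem dl_zc_pair {X : Type*} (φ : X → ZMod 2) (x y : X) : dl (zc φ) [x, y] = φ y + φ x := by
  simp [dl_cons, zc]

theorem lz_dl_zc {φ : X → ZMod 2} {x : X} : LZ (dl (zc φ)) x ↔ ∀ᶠ y in 𝓝 x, φ y = φ x := by
  constructor
  · rintro ⟨V, hV, h⟩
    filter_upwards [hV] with y hy
    have := h [x, y] (by simp [hy, mem_of_mem_nhds hV])
    rw [dl_zc_pair] at this
    have h2 := add_self2 (φ x)
    linear_combination this - h2
  · intro h
    refine ⟨_, h, fun l hl => ?_⟩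
    match l with
    | [] => rfl
    | [_] => exact (deg_zc φ).dl _ (by simp)
    | [a, b] =>
      have ha : φ a = φ x := hl a (by simp)
      have hb : φ b = φ x := hl b (by simp)
      rw [dl_zc_pair, ha, hb, add_self2]
    | _ :: _ :: _ :: _ => exact (deg_zc φ).dl _ (by simp)

/-- the first cohomology of a simply connected space vanishes -/
theorem exists_primitive [SimplyConnectedSpace X] [LocallyPathConnectedSpace X] {a : Co X}
    (hd : Deg 2 a) (h : Null (dl a)) : ∃ φ : X → ZMod 2, Null (a + dl (zc φ)) := by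
  have hV : ∀ p : X, ∃ V, IsOpen V ∧ p ∈ V ∧ Van (dl a) V := fun p => by
    obtain ⟨V, hV, h⟩ := h p
    exact ⟨interior V, isOpen_interior, mem_interior_iff_mem_nhds.2 hV, h.mono interior_subset⟩
  choose V hVo hVp hVa using hV
  have key : ∀ p x y, x ∈ V p → y ∈ V p → a [x, y] = a [p, y] + a [p, x] := by
    intro p x y hx hy
    have := hVa p [p, x, y] (by simp [hx, hy, hVp p])
    simp only [dl_cons, dl_nil, add_zero] at this
    have h2 := add_self2 (a [p, y] + a [p, x])
    linear_combination this - h2
  obtain ⟨s, hs, hs'⟩ := cech V hVo (fun x => ⟨x, hVp x⟩) (fun p q x => a [p, x] + a [q, x])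
    (fun p q x hp hq => by
      filter_upwards [(hVo p).mem_nhds hp, (hVo q).mem_nhds hq] with y hyp hyq
      have h1 := key p x y hp hyp
      have h2 := key q x y hq hyq
      have h3 := add_self2 (a [p, x])
      have h4 := add_self2 (a [q, y])
      linear_combination h2 - h1 - h3 + h4)
    (fun p q r x _ _ _ => by
      have := add_self2 (a [q, x])
      linear_combination this)
  refine ⟨fun x => a [x, x] + s x x, fun p => ?_⟩
  refine ⟨V p ∩ {y | s p y = s p p}, inter_mem ((hVo p).mem_nhds (hVp p)) (hs p p (hVp p)),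
    fun l hl => ?_⟩
  match l with
  | [] => exact (hd.add (deg_zc _).dl) _ (by simp)
  | [_] => exact (hd.add (deg_zc _).dl) _ (by simp)
  | [x, y] =>
    obtain ⟨hx, hx'⟩ := hl x (by simp)
    obtain ⟨hy, hy'⟩ := hl y (by simp)
    have h1 := hs' x p x (hVp x) hx
    have h2 := hs' y p y (hVp y) hy
    have h3 := key p x y hx hy
    simp only [mem_ofPred_eq] at hx' hy'
    rw [Pi.add_apply, dl_zc_pair]
    have e1 := add_self2 (s p p)
    have e2 := add_self2 (a [x, x])
    have e3 := add_self2 (a [y, y])
    have e4 := add_self2 (a [p, x])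
    have e5 := add_self2 (a [p, y])
    linear_combination h1 + h2 + h3 - hx' - hy' - e1 + e2 + e3 + e4 + e5
  | _ :: _ :: _ :: _ => exact (hd.add (deg_zc _).dl) _ (by simp)

end Pool.Agent.P.MP_a8e993_al
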