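import Mathlib

/-! Alexander-Spanier cochains mod 2, as functions on lists of points. -/

set_option autoImplicit false
set_option linter.unusedSectionVars false

open Set Filter Topology

namespace Pool.Agent.P.MP_a8e993_al

abbrev Co (X : Type*) := List X → ZMod 2

theorem add_self2 (a : ZMod 2) : a + a = 0 := CharTwo.add_self_eq_zero a

theorem co_add_self {X : Type*} (φ : Co X) : φ + φ = 0 := by
  funext l; exact add_self2 _

section Algebra

variable {X Y Z : Type*}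

/-- coboundary -/
def dl : Co X → Co X
  | _, [] => 0
  | φ, a :: l => φ l + dl (fun m => φ (a :: m)) l

@[simp] theorem dl_nil (φ : Co X) : dl φ [] = 0 := rfl

theorem dl_cons (φ : Co X) (a : X) (l : List X) :
    dl φ (a :: l) = φ l + dl (fun m => φ (a :: m)) l := rfl

theorem dl_add (φ ψ : Co X) : dl (φ + ψ) = dl φ + dl ψ := by
  funext l
  induction l generalizing φ ψ with
  | nil => simp
  | cons a l ih =>
    have := ih (fun m => φ (a :: m)) (fun m => ψ (a :: m))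
    simp only [dl_cons, Pi.add_apply] at this ⊢
    have e : (fun m => φ (a :: m) + ψ (a :: m)) =
      (fun m => φ (a :: m)) + (fun m => ψ (a :: m)) := rfl
    rw [e, this]; ring

@[simp] theorem dl_zero : dl (0 : Co X) = 0 := by
  have := dl_add (0 : Co X) 0
  rw [add_zero, co_add_self] at this
  exact this

theorem dl_dl (φ : Co X) : dl (dl φ) = 0 := by
  funext l
  induction l generalizing φ with
  | nil => simp
  | cons a l ih =>
    rw [dl_cons]
    have e : (fun m => dl φ (a :: m)) = φ + dl (fun m => φ (a :: m)) := rfl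
    rw [e, dl_add, Pi.add_apply, ih, Pi.zero_apply, Pi.zero_apply, add_zero, add_self2]

/-- pull-back along any map -/
def pb (g : X → Y) (φ : Co Y) : Co X := fun l => φ (l.map g)

theorem pb_add (g : X → Y) (φ ψ : Co Y) : pb g (φ + ψ) = pb g φ + pb g ψ := rfl

@[simp] theorem pb_zero (g : X → Y) : pb g (0 : Co Y) = 0 := rfl

theorem pb_pb (f : X → Y) (g : Y → Z) (φ : Co Z) : pb f (pb g φ) = pb (g ∘ f) φ := by
  funext l; simp [pb]

theorem pb_id (φ : Co X) : pb id φ = φ := by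
  funext l; simp [pb]

theorem pb_id' (φ : Co X) {g : X → X} (h : ∀ x, g x = x) : pb g φ = φ := by
  have : g = id := funext h
  rw [this, pb_id]

theorem dl_pb (g : X → Y) (φ : Co Y) : dl (pb g φ) = pb g (dl φ) := by
  funext l
  induction l generalizing φ with
  | nil => rfl
  | cons a l ih =>
    have := ih (fun m => φ (g a :: m))
    simp only [pb, List.map_cons, dl_cons] at this ⊢
    rw [← this]; rfl

/-- multiply by a function of the first point -/
def cut (χ : X → ZMod 2) (φ : Co X) : Co X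
  | [] => 0
  | a :: l => χ a * φ (a :: l)

theorem cut_add (χ : X → ZMod 2) (φ ψ : Co X) : cut χ (φ + ψ) = cut χ φ + cut χ ψ := by
  funext l; cases l <;> simp [cut, mul_add]

theorem add_cut (χ χ' : X → ZMod 2) (φ : Co X) : cut (χ + χ') φ = cut χ φ + cut χ' φ := by
  funext l; cases l <;> simp [cut, add_mul]

theorem pb_cut (g : X → Y) (χ : Y → ZMod 2) (φ : Co Y) :
    pb g (cut χ φ) = cut (χ ∘ g) (pb g φ) := by
  funext l; cases l <;> simp [cut, pb]

theorem cut_one {χ : X → ZMod 2} {φ : Co X} (h : ∀ x, χ x = 1) (h0 : φ [] = 0) :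
    cut χ φ = φ := by
  funext l; cases l <;> simp [cut, h, h0]

/-- prism operator between two maps -/
def pr (g₀ g₁ : X → Y) : Co Y → Co X
  | _, [] => 0
  | φ, a :: l => φ (g₀ a :: (a :: l).map g₁) + pr g₀ g₁ (fun m => φ (g₀ a :: m)) l

theorem pr_cons (g₀ g₁ : X → Y) (φ : Co Y) (a : X) (l : List X) :
    pr g₀ g₁ φ (a :: l) =
      φ (g₀ a :: g₁ a :: l.map g₁) + pr g₀ g₁ (fun m => φ (g₀ a :: m)) l := rfl

theorem pr_add (g₀ g₁ : X → Y) (φ ψ : Co Y) :
    pr g₀ g₁ (φ + ψ) = pr g₀ g₁ φ + pr g₀ g₁ ψ := by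
  funext l
  induction l generalizing φ ψ with
  | nil => simp [pr]
  | cons a l ih =>
    have := ih (fun m => φ (g₀ a :: m)) (fun m => ψ (g₀ a :: m))
    simp only [pr_cons, Pi.add_apply] at this ⊢
    have e : (fun m => φ (g₀ a :: m) + ψ (g₀ a :: m)) =
      (fun m => φ (g₀ a :: m)) + (fun m => ψ (g₀ a :: m)) := rfl
    rw [e, this]; ring

theorem dl_pr (g₀ g₁ : X → Y) (φ : Co Y) :
    dl (pr g₀ g₁ φ) + pr g₀ g₁ (dl φ) = pb g₀ φ + pb g₁ φ := by
  funext l
  induction l generalizing φ with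
  | nil => simp [pr, pb, add_self2]
  | cons a l ih =>
    have h := ih (fun m => φ (g₀ a :: m))
    have e1 : (fun m => pr g₀ g₁ φ (a :: m)) =
        pb g₁ (fun m => φ (g₀ a :: g₁ a :: m)) + pr g₀ g₁ (fun m => φ (g₀ a :: m)) := rfl
    have e2 : (fun m => dl φ (g₀ a :: m)) = φ + dl (fun m => φ (g₀ a :: m)) := rfl
    simp only [Pi.add_apply] at h ⊢
    rw [dl_cons, pr_cons, e1, e2, dl_add, pr_add, dl_pb, dl_cons, dl_cons]
    simp only [Pi.add_apply, pb, List.map_cons] at h ⊢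
    have h1 := add_self2 (pr g₀ g₁ φ l)
    have h2 := add_self2 (dl (fun m => φ (g₀ a :: g₁ a :: m)) (l.map g₁))
    have h3 := add_self2 (φ (g₀ a :: l.map g₁))
    linear_combination h + h1 + h2 + h3

/-- concentrated on lists of length `n` -/
def Deg (n : ℕ) (φ : Co X) : Prop := ∀ l : List X, l.length ≠ n → φ l = 0

theorem Deg.add {n : ℕ} {φ ψ : Co X} (h : Deg n φ) (h' : Deg n ψ) : Deg n (φ + ψ) :=
  fun l hl => by simp [h l hl, h' l hl]

theorem deg_zero (n : ℕ) : Deg n (0 : Co X) := fun _ _ => rfl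

theorem dl_eq_zero_of {φ : Co X} {l : List X} (P : List X → Prop)
    (hP : ∀ a l, P (a :: l) → P l) (hl : P l)
    (h : ∀ m, m.length + 1 = l.length → (∀ y ∈ m, y ∈ l) → φ m = 0) : dl φ l = 0 := by
  induction l generalizing φ with
  | nil => rfl
  | cons a l ih =>
    rw [dl_cons, h l rfl (fun y hy => List.mem_cons_of_mem _ hy), zero_add]
    refine ih (hP a l hl) fun m hm hy => h _ (by simp [hm]) ?_
    intro y hy'
    rcases List.mem_cons.1 hy' with rfl | hy'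
    · exact List.mem_cons_self
    · exact List.mem_cons_of_mem _ (hy y hy')

theorem dl_eq_zero {φ : Co X} {l : List X}
    (h : ∀ m, m.length + 1 = l.length → (∀ y ∈ m, y ∈ l) → φ m = 0) : dl φ l = 0 :=
  dl_eq_zero_of (fun _ => True) (fun _ _ _ => trivial) trivial h

theorem Deg.dl {n : ℕ} {φ : Co X} (h : Deg n φ) : Deg (n + 1) (dl φ) :=
  fun _ hl => dl_eq_zero fun m hm _ => h m (by omega)

theorem Deg.pb {n : ℕ} {φ : Co Y} (h : Deg n φ) (g : X → Y) : Deg n (pb g φ) :=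
  fun l hl => h _ (by simpa using hl)

theorem Deg.cut {n : ℕ} {φ : Co X} (h : Deg n φ) (χ : X → ZMod 2) : Deg n (cut χ φ) := by
  intro l hl
  cases l with
  | nil => rfl
  | cons a l => simp [MP_a8e993_al.cut, h _ hl]

theorem pr_eq_zero {g₀ g₁ : X → Y} {φ : Co Y} {l : List X}
    (h : ∀ m, m.length = l.length + 1 → (∀ y ∈ m, ∃ x ∈ l, y = g₀ x ∨ y = g₁ x) → φ m = 0) :
    pr g₀ g₁ φ l = 0 := by
  induction l generalizing φ with
  | nil => rfl
  | cons a l ih =>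
    rw [pr_cons, h _ (by simp), zero_add]
    · refine ih fun m hm hy => h _ (by simp [hm]) ?_
      intro y hy'
      rcases List.mem_cons.1 hy' with rfl | hy'
      · exact ⟨a, List.mem_cons_self, Or.inl rfl⟩
      · obtain ⟨x, hx, e⟩ := hy y hy'
        exact ⟨x, List.mem_cons_of_mem _ hx, e⟩
    · intro y hy
      simp only [List.mem_cons, List.mem_map] at hy
      rcases hy with rfl | rfl | ⟨x, hx, rfl⟩
      · exact ⟨a, List.mem_cons_self, Or.inl rfl⟩
      · exact ⟨a, List.mem_cons_self, Or.inr rfl⟩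
      · exact ⟨x, List.mem_cons_of_mem _ hx, Or.inr rfl⟩

theorem Deg.pr {n : ℕ} {φ : Co Y} (h : Deg (n + 1) φ) (g₀ g₁ : X → Y) : Deg n (pr g₀ g₁ φ) :=
  fun _ hl => pr_eq_zero fun m hm _ => h m (by omega)

/-- vanishes on lists of points of `V` -/
def Van (φ : Co X) (V : Set X) : Prop := ∀ l : List X, (∀ y ∈ l, y ∈ V) → φ l = 0

theorem Van.mono {φ : Co X} {V W : Set X} (h : Van φ V) (hW : W ⊆ V) : Van φ W :=
  fun l hl => h l fun y hy => hW (hl y hy)

theorem Van.add {φ ψ : Co X} {V : Set X} (h : Van φ V) (h' : Van ψ V) : Van (φ + ψ) V :=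
  fun l hl => by simp [h l hl, h' l hl]

theorem Van.dl {φ : Co X} {V : Set X} (h : Van φ V) : Van (dl φ) V :=
  fun _ hl => dl_eq_zero fun m _ hm => h m fun y hy => hl y (hm y hy)

theorem Van.pb {φ : Co Y} {V : Set Y} (h : Van φ V) (g : X → Y) : Van (pb g φ) (g ⁻¹' V) := by
  intro l hl
  refine h _ fun y hy => ?_
  obtain ⟨x, hx, rfl⟩ := List.mem_map.1 hy
  exact hl x hx

theorem Van.pr {φ : Co Y} {V : Set Y} (h : Van φ V) (g₀ g₁ : X → Y) :
    Van (pr g₀ g₁ φ) (g₀ ⁻¹' V ∩ g₁ ⁻¹' V) := by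
  intro l hl
  refine pr_eq_zero fun m _ hm => h m fun y hy => ?_
  obtain ⟨x, hx, rfl | rfl⟩ := hm y hy
  · exact (hl x hx).1
  · exact (hl x hx).2

theorem Van.cut {φ : Co X} {V : Set X} (h : Van φ V) (χ : X → ZMod 2) : Van (cut χ φ) V := by
  intro l hl
  cases l with
  | nil => rfl
  | cons a l => simp [MP_a8e993_al.cut, h _ hl]

theorem van_cut_zero {φ : Co X} {V : Set X} {χ : X → ZMod 2} (h : ∀ x ∈ V, χ x = 0) :
    Van (cut χ φ) V := by
  intro l hl
  cases l with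
  | nil => rfl
  | cons a l => simp [MP_a8e993_al.cut, h a (hl a List.mem_cons_self)]

theorem van_cut_one {φ : Co X} {V : Set X} {χ : X → ZMod 2} (h : ∀ x ∈ V, χ x = 1)
    (h0 : φ [] = 0) : Van (cut χ φ + φ) V := by
  intro l hl
  cases l with
  | nil => simp [MP_a8e993_al.cut, h0]
  | cons a l => simp [MP_a8e993_al.cut, h a (hl a List.mem_cons_self), add_self2]

theorem van_pb_congr {φ : Co Y} {V : Set X} {g g' : X → Y} (h : ∀ x ∈ V, g x = g' x) :
    Van (pb g φ + pb g' φ) V := by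
  intro l hl
  have : l.map g = l.map g' := List.map_congr_left fun x hx => h x (hl x hx)
  simp [pb, this, add_self2]

end Algebra

section Top

variable {X Y Z : Type*} [TopologicalSpace X] [TopologicalSpace Y] [TopologicalSpace Z]

/-- locally zero at `x` -/
def LZ (φ : Co X) (x : X) : Prop := ∃ V ∈ 𝓝 x, Van φ V

theorem LZ.add {φ ψ : Co X} {x : X} (h : LZ φ x) (h' : LZ ψ x) : LZ (φ + ψ) x := by
  obtain ⟨V, hV, h⟩ := h
  obtain ⟨W, hW, h'⟩ := h'
  exact ⟨V ∩ W, inter_mem hV hW, (h.mono inter_subset_left).add (h'.mono inter_subset_right)⟩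

theorem lz_zero (x : X) : LZ (0 : Co X) x := ⟨univ, univ_mem, fun _ _ => rfl⟩

theorem LZ.of_add {φ ψ : Co X} {x : X} (h : LZ (φ + ψ) x) (h' : LZ ψ x) : LZ φ x := by
  have := h.add h'
  rwa [add_assoc, co_add_self, add_zero] at this

theorem LZ.of_add' {φ ψ : Co X} {x : X} (h : LZ (φ + ψ) x) (h' : LZ φ x) : LZ ψ x := by
  rw [add_comm] at h; exact h.of_add h'

theorem LZ.trans {φ ψ χ : Co X} {x : X} (h : LZ (φ + ψ) x) (h' : LZ (ψ + χ) x) :
    LZ (φ + χ) x := by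
  have := h.add h'
  rwa [add_assoc, ← add_assoc ψ, co_add_self, zero_add] at this

theorem LZ.symm {φ ψ : Co X} {x : X} (h : LZ (φ + ψ) x) : LZ (ψ + φ) x := by
  rwa [add_comm]

theorem LZ.dl {φ : Co X} {x : X} (h : LZ φ x) : LZ (dl φ) x := by
  obtain ⟨V, hV, h⟩ := h
  exact ⟨V, hV, h.dl⟩

theorem LZ.dl_add {φ ψ : Co X} {x : X} (h : LZ (φ + ψ) x) :
    LZ (MP_a8e993_al.dl φ + MP_a8e993_al.dl ψ) x := by
  rw [← MP_a8e993_al.dl_add]; exact h.dl

theorem LZ.pb {φ : Co Y} {g : X → Y} {x : X} (h : LZ φ (g x)) (hg : ContinuousAt g x) :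
    LZ (pb g φ) x := by
  obtain ⟨V, hV, h⟩ := h
  exact ⟨_, hg hV, h.pb g⟩

theorem LZ.pr {φ : Co Y} {g₀ g₁ : X → Y} {x : X} {y : Y} (h : LZ φ y)
    (h₀ : Tendsto g₀ (𝓝 x) (𝓝 y)) (h₁ : Tendsto g₁ (𝓝 x) (𝓝 y)) : LZ (pr g₀ g₁ φ) x := by
  obtain ⟨V, hV, h⟩ := h
  exact ⟨_, inter_mem (h₀ hV) (h₁ hV), h.pr g₀ g₁⟩

theorem LZ.cut {φ : Co X} {x : X} (h : LZ φ x) (χ : X → ZMod 2) : LZ (cut χ φ) x := by
  obtain ⟨V, hV, h⟩ := h
  exact ⟨V, hV, h.cut χ⟩

theorem lz_cut_zero {φ : Co X} {x : X} {χ : X → ZMod 2} (h : ∀ᶠ y in 𝓝 x, χ y = 0) :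
    LZ (cut χ φ) x := ⟨_, h, van_cut_zero fun _ hy => hy⟩

theorem lz_cut_one {φ : Co X} {x : X} {χ : X → ZMod 2} (h : ∀ᶠ y in 𝓝 x, χ y = 1)
    (h0 : φ [] = 0) : LZ (cut χ φ + φ) x := ⟨_, h, van_cut_one (fun _ hy => hy) h0⟩

theorem lz_pb_congr {φ : Co Y} {x : X} {g g' : X → Y} (h : ∀ᶠ y in 𝓝 x, g y = g' y) :
    LZ (pb g φ + pb g' φ) x := ⟨_, h, van_pb_congr fun _ hy => hy⟩

theorem zmod2_cases (a : ZMod 2) : a = 0 ∨ a = 1 := by
  revert a; decide

/-- cutting by a function that is locally constant at `x` commutes with the coboundary -/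
theorem lz_dl_cut {φ : Co X} {x : X} {χ : X → ZMod 2} (h : ∀ᶠ y in 𝓝 x, χ y = χ x)
    (h0 : φ [] = 0) : LZ (dl (cut χ φ) + cut χ (dl φ)) x := by
  rcases zmod2_cases (χ x) with e | e <;> rw [e] at h
  · exact (lz_cut_zero h).dl.add (lz_cut_zero h)
  · exact (lz_cut_one h h0).dl_add.trans (lz_cut_one h (dl_nil φ)).symm

/-- the support -/
def supp (φ : Co X) : Set X := {x | ¬ LZ φ x}

theorem isClosed_supp (φ : Co X) : IsClosed (supp φ) := by
  rw [← isOpen_compl_iff, isOpen_iff_mem_nhds]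
  intro x hx
  simp only [supp, mem_compl_iff, mem_ofPred_eq, not_not] at hx
  obtain ⟨V, hV, h⟩ := hx
  filter_upwards [eventually_mem_nhds_iff.2 hV] with y hy
  simp only [supp, mem_compl_iff, mem_ofPred_eq, not_not]
  exact ⟨V, hy, h⟩

theorem lz_of_notMem {φ : Co X} {x : X} (h : x ∉ supp φ) : LZ φ x := not_not.1 h

theorem supp_subset_iff {φ : Co X} {S : Set X} : supp φ ⊆ S ↔ ∀ x, x ∉ S → LZ φ x :=
  ⟨fun h _ hx => lz_of_notMem fun h' => hx (h h'), fun h x hx => by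
    by_contra h'; exact hx (h x h')⟩

theorem supp_add (φ ψ : Co X) : supp (φ + ψ) ⊆ supp φ ∪ supp ψ :=
  supp_subset_iff.2 fun _ hx =>
    (lz_of_notMem fun h => hx (Or.inl h)).add (lz_of_notMem fun h => hx (Or.inr h))

theorem supp_dl (φ : Co X) : supp (dl φ) ⊆ supp φ :=
  supp_subset_iff.2 fun _ hx => (lz_of_notMem hx).dl

theorem supp_cut (χ : X → ZMod 2) (φ : Co X) : supp (cut χ φ) ⊆ supp φ :=
  supp_subset_iff.2 fun _ hx => (lz_of_notMem hx).cut χ

theorem supp_pb {g : X → Y} (hg : Continuous g) (φ : Co Y) : supp (pb g φ) ⊆ g ⁻¹' supp φ :=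
  supp_subset_iff.2 fun _ hx => (lz_of_notMem hx).pb hg.continuousAt

/-- locally zero everywhere -/
def Null (φ : Co X) : Prop := ∀ x, LZ φ x

theorem null_zero : Null (0 : Co X) := lz_zero

theorem Null.add {φ ψ : Co X} (h : Null φ) (h' : Null ψ) : Null (φ + ψ) :=
  fun x => (h x).add (h' x)

theorem Null.dl {φ : Co X} (h : Null φ) : Null (dl φ) := fun x => (h x).dl

theorem Null.pb {φ : Co Y} (h : Null φ) {g : X → Y} (hg : Continuous g) : Null (pb g φ) :=
  fun x => (h (g x)).pb hg.continuousAt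

theorem Null.trans {φ ψ χ : Co X} (h : Null (φ + ψ)) (h' : Null (ψ + χ)) : Null (φ + χ) :=
  fun x => (h x).trans (h' x)

theorem Null.symm {φ ψ : Co X} (h : Null (φ + ψ)) : Null (ψ + φ) := fun x => (h x).symm

theorem Null.dl_add {φ ψ : Co X} (h : Null (φ + ψ)) :
    Null (MP_a8e993_al.dl φ + MP_a8e993_al.dl ψ) := fun x => (h x).dl_add

theorem Null.supp_eq {φ : Co X} (h : Null φ) : supp φ = ∅ :=
  eq_empty_of_subset_empty (supp_subset_iff.2 fun x _ => h x)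

theorem null_refl (φ : Co X) : Null (φ + φ) := by rw [co_add_self]; exact null_zero

/-- cochains on lists of length `n` with compact support in `U` -/
structure Cc (n : ℕ) (U : Set X) (φ : Co X) : Prop where
  deg : Deg n φ
  nil : φ [] = 0
  cpt : IsCompact (supp φ)
  sub : supp φ ⊆ U

theorem Cc.lz {n : ℕ} {U : Set X} {φ : Co X} (h : Cc n U φ) {x : X} (hx : x ∉ U) : LZ φ x :=
  supp_subset_iff.1 h.sub x hx

theorem cc_of_subset {n : ℕ} {U K : Set X} {φ : Co X} (hd : Deg n φ) (h0 : φ [] = 0)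
    (hK : IsCompact K) (hs : supp φ ⊆ K) (hU : supp φ ⊆ U) : Cc n U φ :=
  ⟨hd, h0, hK.of_isClosed_subset (isClosed_supp φ) hs, hU⟩

theorem cc_zero (n : ℕ) (U : Set X) : Cc n U (0 : Co X) :=
  cc_of_subset (deg_zero n) rfl isCompact_empty (by rw [null_zero.supp_eq])
    (by rw [null_zero.supp_eq]; exact empty_subset _)

theorem Cc.mono {n : ℕ} {U V : Set X} {φ : Co X} (h : Cc n U φ) (hV : U ⊆ V) : Cc n V φ :=
  ⟨h.deg, h.nil, h.cpt, h.sub.trans hV⟩

theorem Cc.shrink {n : ℕ} {U V : Set X} {φ : Co X} (h : Cc n U φ) (hV : supp φ ⊆ V) :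
    Cc n V φ := ⟨h.deg, h.nil, h.cpt, hV⟩

theorem Cc.add {n : ℕ} {U : Set X} {φ ψ : Co X} (h : Cc n U φ) (h' : Cc n U ψ) :
    Cc n U (φ + ψ) :=
  cc_of_subset (h.deg.add h'.deg) (by simp [h.nil, h'.nil]) (h.cpt.union h'.cpt) (supp_add _ _)
    ((supp_add _ _).trans (union_subset h.sub h'.sub))

theorem Cc.dl {n : ℕ} {U : Set X} {φ : Co X} (h : Cc n U φ) : Cc (n + 1) U (dl φ) :=
  cc_of_subset h.deg.dl rfl h.cpt (supp_dl _) ((supp_dl _).trans h.sub)

theorem cut_nil (χ : X → ZMod 2) (φ : Co X) : cut χ φ [] = 0 := rfl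

theorem Cc.cut {n : ℕ} {U : Set X} {φ : Co X} (h : Cc n U φ) (χ : X → ZMod 2) :
    Cc n U (cut χ φ) :=
  cc_of_subset (h.deg.cut χ) rfl h.cpt (supp_cut _ _) ((supp_cut _ _).trans h.sub)

theorem Cc.eq_zero {U : Set X} {φ : Co X} (h : Cc 0 U φ) : φ = 0 := by
  funext l
  cases l with
  | nil => exact h.nil
  | cons a l => exact h.deg _ (by simp)

theorem Cc.pb {n : ℕ} {U : Set Y} {V : Set X} {φ : Co Y} (h : Cc n U φ) {g : X → Y}
    (hg : Continuous g) {K : Set X} (hK : IsCompact K) (hs : g ⁻¹' supp φ ⊆ K)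
    (hV : g ⁻¹' U ⊆ V) : Cc n V (pb g φ) :=
  cc_of_subset (h.deg.pb g) h.nil hK ((supp_pb hg φ).trans hs)
    ((supp_pb hg φ).trans ((preimage_mono h.sub).trans hV))

/-- cocycles -/
structure Zc (n : ℕ) (U : Set X) (φ : Co X) : Prop extends Cc n U φ where
  coc : Null (MP_a8e993_al.dl φ)

theorem zc_zero (n : ℕ) (U : Set X) : Zc n U (0 : Co X) :=
  ⟨cc_zero n U, by rw [dl_zero]; exact null_zero⟩

theorem Zc.mono {n : ℕ} {U V : Set X} {φ : Co X} (h : Zc n U φ) (hV : U ⊆ V) : Zc n V φ :=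
  ⟨h.toCc.mono hV, h.coc⟩

theorem Zc.add {n : ℕ} {U : Set X} {φ ψ : Co X} (h : Zc n U φ) (h' : Zc n U ψ) :
    Zc n U (φ + ψ) :=
  ⟨h.toCc.add h'.toCc, by rw [dl_add]; exact h.coc.add h'.coc⟩

theorem Cc.zc_dl {n : ℕ} {U : Set X} {φ : Co X} (h : Cc n U φ) :
    Zc (n + 1) U (MP_a8e993_al.dl φ) :=
  ⟨h.dl, by rw [dl_dl]; exact null_zero⟩

/-- coboundaries of cochains on lists of length `n` with compact support in `U` -/
def Bd (n : ℕ) (U : Set X) (φ : Co X) : Prop := ∃ ψ, Cc n U ψ ∧ Null (φ + dl ψ)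

theorem Null.bd {φ : Co X} (h : Null φ) (n : ℕ) (U : Set X) : Bd n U φ :=
  ⟨0, cc_zero n U, by simpa using h⟩

theorem Cc.bd_dl {n : ℕ} {U : Set X} {φ : Co X} (h : Cc n U φ) : Bd n U (MP_a8e993_al.dl φ) :=
  ⟨φ, h, null_refl _⟩

theorem Bd.mono {n : ℕ} {U V : Set X} {φ : Co X} (h : Bd n U φ) (hV : U ⊆ V) : Bd n V φ := by
  obtain ⟨ψ, h1, h2⟩ := h
  exact ⟨ψ, h1.mono hV, h2⟩

theorem Bd.add {n : ℕ} {U : Set X} {φ ψ : Co X} (h : Bd n U φ) (h' : Bd n U ψ) :
    Bd n U (φ + ψ) := by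
  obtain ⟨a, ha, h⟩ := h
  obtain ⟨b, hb, h'⟩ := h'
  refine ⟨a + b, ha.add hb, ?_⟩
  have := h.add h'
  rw [dl_add]
  convert this using 1
  ring

theorem Bd.of_add {n : ℕ} {U : Set X} {φ ψ : Co X} (h : Bd n U (φ + ψ)) (h' : Bd n U ψ) :
    Bd n U φ := by
  have := h.add h'
  rwa [add_assoc, co_add_self, add_zero] at this

theorem Bd.of_add' {n : ℕ} {U : Set X} {φ ψ : Co X} (h : Bd n U (φ + ψ)) (h' : Bd n U φ) :
    Bd n U ψ := by
  rw [add_comm] at h; exact h.of_add h'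

theorem Bd.trans {n : ℕ} {U : Set X} {φ ψ χ : Co X} (h : Bd n U (φ + ψ))
    (h' : Bd n U (ψ + χ)) : Bd n U (φ + χ) := by
  have := h.add h'
  rwa [add_assoc, ← add_assoc ψ, co_add_self, zero_add] at this

theorem Bd.symm {n : ℕ} {U : Set X} {φ ψ : Co X} (h : Bd n U (φ + ψ)) : Bd n U (ψ + φ) := by
  rwa [add_comm]

theorem Bd.null_of_zero {U : Set X} {φ : Co X} (h : Bd 0 U φ) : Null φ := by
  obtain ⟨ψ, h1, h2⟩ := h
  simpa [h1.eq_zero] using h2

end Top

end Pool.Agent.P.MP_a8e993_al
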