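import Pool.Agent.P.MP_a8e993_al.Box
import Pool.Agent.P.MP_a8e993_al.Cech

/-! Top two degrees of mod 2 duality on a topological three-manifold. -/

set_option autoImplicit false
set_option linter.unusedSectionVars false

open Set Filter Topology

namespace Pool.Agent.P.MP_a8e993_al

variable {X : Type*} [TopologicalSpace X] [T2Space X] [LocallyCompactSpace X]

/-- union of a list of sets -/
def LU {X : Type*} (L : List (Set X)) : Set X := {x | ∃ B ∈ L, x ∈ B}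

theorem LU_nil {X : Type*} : LU ([] : List (Set X)) = ∅ := by ext x; simp [LU]

theorem LU_cons {X : Type*} (B : Set X) (L : List (Set X)) : LU (B :: L) = B ∪ LU L := by
  ext x; simp [LU]

theorem LU_subset {X : Type*} {L : List (Set X)} {U : Set X} (h : ∀ B ∈ L, B ⊆ U) : LU L ⊆ U :=
  fun _ ⟨B, hB, hx⟩ => h B hB hx

theorem isOpen_LU {L : List (Set X)} (h : ∀ B ∈ L, IsOpen B) : IsOpen (LU L) := by
  induction L with
  | nil => rw [LU_nil]; exact isOpen_empty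
  | cons B L ih =>
    rw [LU_cons]
    exact (h B List.mem_cons_self).union (ih fun C hC => h C (List.mem_cons_of_mem _ hC))

theorem exists_LU {K : Set X} (hK : IsCompact K) (Q : Set X → Prop) (hQ : ∀ B, Q B → IsOpen B)
    (h : ∀ x ∈ K, ∃ B, Q B ∧ x ∈ B) : ∃ L : List (Set X), (∀ B ∈ L, Q B) ∧ K ⊆ LU L := by
  refine hK.induction_on (p := fun s => ∃ L : List (Set X), (∀ B ∈ L, Q B) ∧ s ⊆ LU L)
    ⟨[], by simp, empty_subset _⟩ (fun s t hst ⟨L, h1, h2⟩ => ⟨L, h1, hst.trans h2⟩) ?_ ?_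
  · rintro s t ⟨L, h1, h2⟩ ⟨L', h1', h2'⟩
    refine ⟨L ++ L', fun B hB => (List.mem_append.1 hB).elim (h1 B) (h1' B), ?_⟩
    rintro x (hx | hx)
    · obtain ⟨B, hB, hx⟩ := h2 hx
      exact ⟨B, List.mem_append_left _ hB, hx⟩
    · obtain ⟨B, hB, hx⟩ := h2' hx
      exact ⟨B, List.mem_append_right _ hB, hx⟩
  · intro x hx
    obtain ⟨B, hB, hxB⟩ := h x hx
    exact ⟨B, mem_nhdsWithin_of_mem_nhds ((hQ B hB).mem_nhds hxB), [B], by simpa using hB,
      fun y hy => ⟨B, by simp, hy⟩⟩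

/-- vanishing above dimension three -/
def VanHi (U : Set X) : Prop := ∀ n φ, 4 ≤ n → Zc (n + 1) U φ → Bd n U φ

theorem vanHi_of_family (Q : Set X → Prop) (hQ : ∀ B, Q B → IsOpen B)
    (hi : ∀ B C, Q B → Q C → Q (B ∩ C)) (hv : ∀ B, Q B → VanHi B) {U : Set X}
    (hU : ∀ x ∈ U, ∃ B, Q B ∧ x ∈ B ∧ B ⊆ U) : VanHi U := by
  have key : ∀ (k : ℕ) (L : List (Set X)), L.length = k → (∀ B ∈ L, Q B) → VanHi (LU L) := by
    intro k
    induction k with
    | zero =>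
      intro L hL _ n φ _ h
      rw [List.length_eq_zero_iff.1 hL, LU_nil] at h ⊢
      exact Null.bd (fun x => h.lz (notMem_empty x)) _ _
    | succ k ih =>
      intro L hL hLQ
      match L, hL, hLQ with
      | B :: L, hL, hLQ =>
        have hB := hLQ B List.mem_cons_self
        have hL' : ∀ C ∈ L, Q C := fun C hC => hLQ C (List.mem_cons_of_mem _ hC)
        have h1 := ih L (by simpa using hL) hL'
        have h2 := ih (L.map fun C => B ∩ C) (by simpa using hL) (by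
          intro C hC
          obtain ⟨D, hD, rfl⟩ := List.mem_map.1 hC
          exact hi _ _ hB (hL' D hD))
        have e : LU (L.map fun C => B ∩ C) = B ∩ LU L := by
          ext x; simp [LU]; tauto
        rw [e] at h2
        intro n φ hn h
        rw [LU_cons] at h ⊢
        obtain ⟨a, b, ha, hb, rfl⟩ := h.split (hQ B hB) (isOpen_LU fun C hC => hQ C (hL' C hC))
          fun ψ hψ => h2 _ ψ (by omega) hψ
        exact ((hv B hB n a hn ha).mono subset_union_left).add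
          ((h1 n b hn hb).mono subset_union_right)
  intro n φ hn h
  obtain ⟨L, h1, h2⟩ := exists_LU h.cpt (fun B => Q B ∧ B ⊆ U) (fun B hB => hQ B hB.1)
    fun x hx => by
      obtain ⟨B, h1, h2, h3⟩ := hU x (h.sub hx)
      exact ⟨B, ⟨h1, h3⟩, h2⟩
  exact (key _ L rfl (fun B hB => (h1 B hB).1) n φ hn ⟨h.toCc.shrink h2, h.coc⟩).mono
    (LU_subset fun B hB => (h1 B hB).2)

/-- the two local facts about a three-manifold that are used -/
structure Mfd (X : Type*) [TopologicalSpace X] : Prop where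
  basis : ∀ x : X, ∀ W ∈ 𝓝 x, ∃ B, Good 3 B ∧ x ∈ B ∧ B ⊆ W
  van : ∀ U : Set X, IsOpen U → VanHi U

/-- open boxes -/
def IsBox (B : Set ((ℝ × ℝ) × ℝ)) : Prop :=
  ∃ a b c d e f : ℝ, B = (Ioo a b ×ˢ Ioo c d) ×ˢ Ioo e f

theorem IsBox.good {B : Set ((ℝ × ℝ) × ℝ)} (h : IsBox B) : Good 3 B := by
  obtain ⟨a, b, c, d, e, f, rfl⟩ := h
  exact ((good_Ioo a b).prod_Ioo c d).prod_Ioo e f

theorem IsBox.inter {B C : Set ((ℝ × ℝ) × ℝ)} (h : IsBox B) (h' : IsBox C) : IsBox (B ∩ C) := by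
  obtain ⟨a, b, c, d, e, f, rfl⟩ := h
  obtain ⟨a', b', c', d', e', f', rfl⟩ := h'
  exact ⟨_, _, _, _, _, _, by
    rw [prod_inter_prod, prod_inter_prod, Ioo_inter_Ioo, Ioo_inter_Ioo, Ioo_inter_Ioo]⟩

theorem exists_box {x : (ℝ × ℝ) × ℝ} {W : Set ((ℝ × ℝ) × ℝ)} (h : W ∈ 𝓝 x) :
    ∃ B, IsBox B ∧ x ∈ B ∧ B ⊆ W := by
  obtain ⟨ε, hε, hb⟩ := Metric.mem_nhds_iff.1 h
  refine ⟨Metric.ball x ε, ?_, Metric.mem_ball_self hε, hb⟩
  obtain ⟨⟨x₁, x₂⟩, x₃⟩ := x
  rw [← ball_prod_same, ← ball_prod_same, Real.ball_eq_Ioo, Real.ball_eq_Ioo, Real.ball_eq_Ioo]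
  exact ⟨_, _, _, _, _, _, rfl⟩

theorem mfd_of_charts (h : ∀ x : X, ∃ e : OpenPartialHomeomorph X ((ℝ × ℝ) × ℝ), x ∈ e.source) :
    Mfd X := by
  have hb : ∀ (e : OpenPartialHomeomorph X ((ℝ × ℝ) × ℝ)), ∀ x ∈ e.source, ∀ W ∈ 𝓝 x,
      ∃ B, IsBox B ∧ B ⊆ e.target ∧ x ∈ e.source ∩ e ⁻¹' B ∧ e.source ∩ e ⁻¹' B ⊆ W := by
    intro e x hx W hW
    have hW' : e.symm ⁻¹' W ∈ 𝓝 (e x) := by
      refine e.continuousAt_symm (e.map_source hx) ?_
      rwa [e.left_inv hx]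
    obtain ⟨B, h1, h2, h3⟩ := exists_box (inter_mem hW' (e.open_target.mem_nhds (e.map_source hx)))
    refine ⟨B, h1, h3.trans inter_subset_right, ⟨hx, h2⟩, fun y hy => ?_⟩
    have := (h3 hy.2).1
    rwa [mem_preimage, e.left_inv hy.1] at this
  refine ⟨fun x W hW => ?_, fun U hU => ?_⟩
  · obtain ⟨e, hx⟩ := h x
    obtain ⟨B, h1, h2, h3, h4⟩ := hb e x hx W hW
    exact ⟨_, h1.good.transfer e h2, h3, h4⟩
  · refine vanHi_of_family
      (fun V => IsOpen V ∧ ∃ e : OpenPartialHomeomorph X ((ℝ × ℝ) × ℝ), V ⊆ e.source)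
      (fun V hV => hV.1) (fun V W ⟨h1, e, h2⟩ hW => ⟨h1.inter hW.1, e, inter_subset_left.trans h2⟩)
      ?_ fun x hx => ?_
    · rintro V ⟨hV, e, hVe⟩
      refine vanHi_of_family (fun C => ∃ B, IsBox B ∧ B ⊆ e.target ∧ C = e.source ∩ e ⁻¹' B)
        ?_ ?_ ?_ fun x hx => ?_
      · rintro _ ⟨B, h1, -, rfl⟩
        exact e.isOpen_inter_preimage h1.good.isOpen
      · rintro _ _ ⟨B, h1, h2, rfl⟩ ⟨C, h1', -, rfl⟩
        refine ⟨B ∩ C, h1.inter h1', inter_subset_left.trans h2, ?_⟩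
        ext x; simp; tauto
      · rintro _ ⟨B, h1, h2, rfl⟩ n φ hn hφ
        exact (h1.good.transfer e h2).van n φ (by omega) hφ
      · obtain ⟨B, h1, h2, h3, h4⟩ := hb e x (hVe hx) V (hV.mem_nhds hx)
        exact ⟨_, ⟨B, h1, h2, rfl⟩, h3, h4⟩
    · obtain ⟨e, hx'⟩ := h x
      exact ⟨U ∩ e.source, ⟨hU.inter e.open_source, e, inter_subset_right⟩, ⟨hx, hx'⟩,
        inter_subset_left⟩

theorem Mfd.zc_induction' (hX : Mfd X) {U : Set X} (Q : Set X → Prop)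
    (hQ : ∀ B, Q B → IsOpen B ∧ B ⊆ U) (h0 : Q ∅) (hc : ∀ x ∈ U, ∃ B, Q B ∧ x ∈ B)
    (P : Co X → Prop) (hP : ∀ B, Q B → ∀ z, Zc 4 B z → P z)
    (hadd : ∀ z z', Zc 4 U z → Zc 4 U z' → P z → P z' → P (z + z')) {z : Co X}
    (hz : Zc 4 U z) : P z := by
  obtain ⟨L, h1, h2⟩ := exists_LU hz.cpt Q (fun B hB => (hQ B hB).1) fun x hx => hc x (hz.sub hx)
  have hz' : Zc 4 (LU L) z := ⟨hz.toCc.shrink h2, hz.coc⟩
  clear h2 hz
  induction L generalizing z with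
  | nil => rw [LU_nil] at hz'; exact hP _ h0 z hz'
  | cons B L ih =>
    rw [LU_cons] at hz'
    have hB := h1 B List.mem_cons_self
    have hL : ∀ C ∈ L, Q C := fun C hC => h1 C (List.mem_cons_of_mem _ hC)
    have ho : IsOpen (LU L) := isOpen_LU fun C hC => (hQ C (hL C hC)).1
    obtain ⟨a, b, ha, hb, rfl⟩ := hz'.split (hQ B hB).1 ho
      fun ψ hψ => hX.van _ ((hQ B hB).1.inter ho) _ ψ le_rfl hψ
    exact hadd a b (ha.mono (hQ B hB).2) (hb.mono (LU_subset fun C hC => (hQ C (hL C hC)).2))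
      (hP B hB a ha) (ih hL hb)

theorem Mfd.zc_induction (hX : Mfd X) {U : Set X} (hU : IsOpen U)
    (P : Co X → Prop) (hP : ∀ B, Good 3 B → B ⊆ U → ∀ z, Zc 4 B z → P z)
    (hadd : ∀ z z', Zc 4 U z → Zc 4 U z' → P z → P z' → P (z + z')) {z : Co X}
    (hz : Zc 4 U z) : P z :=
  hX.zc_induction' (fun B => Good 3 B ∧ B ⊆ U) (fun _ hB => ⟨hB.1.isOpen, hB.2⟩)
    ⟨good_empty 3, empty_subset _⟩ (fun x hx => by
      obtain ⟨B, h1, h2, h3⟩ := hX.basis x U (hU.mem_nhds hx)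
      exact ⟨B, ⟨h1, h3⟩, h2⟩) P (fun B hB => hP B hB.1 hB.2) hadd hz

theorem Mfd.cc_induction (hX : Mfd X) {U : Set X} (hU : IsOpen U) {n : ℕ}
    (P : Co X → Prop) (hP : ∀ B, Good 3 B → B ⊆ U → ∀ z, Cc n B z → P z)
    (hadd : ∀ z z', Cc n U z → Cc n U z' → P z → P z' → P (z + z')) {z : Co X}
    (hz : Cc n U z) : P z := by
  obtain ⟨L, h1, h2⟩ := exists_LU hz.cpt (fun B => Good 3 B ∧ B ⊆ U) (fun B hB => hB.1.isOpen)
    fun x hx => by
      obtain ⟨B, h1, h2, h3⟩ := hX.basis x U (hU.mem_nhds (hz.sub hx))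
      exact ⟨B, ⟨h1, h3⟩, h2⟩
  have hz' : Cc n (LU L) z := hz.shrink h2
  clear h2 hz
  induction L generalizing z with
  | nil => rw [LU_nil] at hz'; exact hP _ (good_empty 3) (empty_subset _) z hz'
  | cons B L ih =>
    rw [LU_cons] at hz'
    have hB := h1 B List.mem_cons_self
    have hL : ∀ C ∈ L, Good 3 C ∧ C ⊆ U := fun C hC => h1 C (List.mem_cons_of_mem _ hC)
    obtain ⟨a, b, ha, hb, rfl⟩ := hz'.split hB.1.isOpen (isOpen_LU fun C hC => (hL C hC).1.isOpen)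
    exact hadd a b (ha.mono hB.2) (hb.mono (LU_subset fun C hC => (hL C hC).2))
      (hP B hB.1 hB.2 a ha) (ih hL hb)

/-- a glued functional on top cocycles of `U` -/
def Glued (μ : Set X → Co X → ZMod 2) (U : Set X) : Prop :=
  ∃ m : Co X → ZMod 2, (∀ z z', Zc 4 U z → Zc 4 U z' → m (z + z') = m z + m z') ∧
    ∀ B, Good 3 B → B ⊆ U → ∀ z, Zc 4 B z → m z = μ B z

theorem Glued.union (hX : Mfd X) {μ : Set X → Co X → ZMod 2}
    (hadd : ∀ B, Good 3 B → ∀ z z', Zc 4 B z → Zc 4 B z' → μ B (z + z') = μ B z + μ B z')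
    (hcomp : ∀ B B', Good 3 B → Good 3 B' → B' ⊆ B → ∀ z, Zc 4 B' z → μ B z = μ B' z)
    {U V : Set X} (hU : IsOpen U) (hV : IsOpen V) (h : Glued μ U) (h' : Glued μ V) :
    Glued μ (U ∪ V) := by
  classical
  obtain ⟨m₁, a₁, c₁⟩ := h
  obtain ⟨m₂, a₂, c₂⟩ := h'
  have agree : ∀ z, Zc 4 (U ∩ V) z → m₁ z = m₂ z := fun z hz =>
    hX.zc_induction (hU.inter hV) (fun z => m₁ z = m₂ z)
      (fun B hB hs z hz => by
        rw [c₁ B hB (hs.trans inter_subset_left) z hz, c₂ B hB (hs.trans inter_subset_right) z hz])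
      (fun z z' hz hz' e e' => by
        rw [a₁ z z' (hz.mono inter_subset_left) (hz'.mono inter_subset_left),
          a₂ z z' (hz.mono inter_subset_right) (hz'.mono inter_subset_right), e, e']) hz
  have key : ∀ a b a' b', Zc 4 U a → Zc 4 V b → Zc 4 U a' → Zc 4 V b' → a + b = a' + b' →
      m₁ a + m₂ b = m₁ a' + m₂ b' := by
    intro a b a' b' ha hb ha' hb' e
    have e' : a + a' = b + b' := by
      have h1 := co_add_self b
      have h2 := co_add_self a'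
      linear_combination e - h1 + h2
    have h1 := agree (a + a') ⟨(ha.add ha').toCc.shrink
      (subset_inter (ha.add ha').sub (e' ▸ (hb.add hb').sub)), (ha.add ha').coc⟩
    rw [a₁ a a' ha ha', e', a₂ b b' hb hb'] at h1
    have h2 := add_self2 (m₂ b)
    have h3 := add_self2 (m₁ a')
    linear_combination h1 + h2 - h3
  have hex : ∀ z : Co X, ∃ v : ZMod 2, ∀ a b, Zc 4 U a → Zc 4 V b → z = a + b →
      v = m₁ a + m₂ b := by
    intro z
    by_cases h : ∃ a b, Zc 4 U a ∧ Zc 4 V b ∧ z = a + b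
    · obtain ⟨a, b, ha, hb, e⟩ := h
      exact ⟨m₁ a + m₂ b, fun a' b' ha' hb' e' => key a b a' b' ha hb ha' hb' (e ▸ e')⟩
    · exact ⟨0, fun a b ha hb e => (h ⟨a, b, ha, hb, e⟩).elim⟩
  choose m hm using hex
  have hz₁ : m₁ 0 = 0 := by
    have := a₁ 0 0 (zc_zero _ _) (zc_zero _ _)
    rwa [add_zero, add_self2] at this
  have hz₂ : m₂ 0 = 0 := by
    have := a₂ 0 0 (zc_zero _ _) (zc_zero _ _)
    rwa [add_zero, add_self2] at this
  have madd : ∀ z z', Zc 4 (U ∪ V) z → Zc 4 (U ∪ V) z' → m (z + z') = m z + m z' := by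
    intro z z' hz hz'
    obtain ⟨a, b, ha, hb, e⟩ := hz.split hU hV fun ψ hψ => hX.van _ (hU.inter hV) _ ψ le_rfl hψ
    obtain ⟨a', b', ha', hb', e'⟩ := hz'.split hU hV
      fun ψ hψ => hX.van _ (hU.inter hV) _ ψ le_rfl hψ
    rw [hm z a b ha hb e, hm z' a' b' ha' hb' e', hm (z + z') (a + a') (b + b') (ha.add ha')
      (hb.add hb') (by rw [e, e']; ring), a₁ a a' ha ha', a₂ b b' hb hb']
    ring
  refine ⟨m, madd, fun B hB hs z hz => ?_⟩
  refine hX.zc_induction' (U := B) (fun C => Good 3 C ∧ C ⊆ B ∧ (C ⊆ U ∨ C ⊆ V))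
    (fun C hC => ⟨hC.1.isOpen, hC.2.1⟩) ⟨good_empty 3, empty_subset _, Or.inl (empty_subset _)⟩
    (fun x hx => ?_) (fun z => m z = μ B z) ?_ ?_ hz
  · rcases hs hx with h | h
    · obtain ⟨C, h1, h2, h3⟩ := hX.basis x _ ((hB.isOpen.inter hU).mem_nhds ⟨hx, h⟩)
      exact ⟨C, ⟨h1, h3.trans inter_subset_left, Or.inl (h3.trans inter_subset_right)⟩, h2⟩
    · obtain ⟨C, h1, h2, h3⟩ := hX.basis x _ ((hB.isOpen.inter hV).mem_nhds ⟨hx, h⟩)
      exact ⟨C, ⟨h1, h3.trans inter_subset_left, Or.inr (h3.trans inter_subset_right)⟩, h2⟩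
  · rintro C ⟨h1, h2, h3 | h3⟩ z hz
    · rw [hm z z 0 (hz.mono h3) (zc_zero _ _) (add_zero z).symm, hz₂, add_zero,
        c₁ C h1 h3 z hz, hcomp B C hB h1 h2 z hz]
    · rw [hm z 0 z (zc_zero _ _) (hz.mono h3) (zero_add z).symm, hz₁, zero_add,
        c₂ C h1 h3 z hz, hcomp B C hB h1 h2 z hz]
  · intro z z' hz hz' e e'
    rw [madd z z' (hz.mono hs) (hz'.mono hs), hadd B hB z z' hz hz', e, e']

theorem Mfd.glue (hX : Mfd X) {μ : Set X → Co X → ZMod 2} {lam : Co X → ZMod 2}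
    (hadd : ∀ B, Good 3 B → ∀ z z', Zc 4 B z → Zc 4 B z' → μ B (z + z') = μ B z + μ B z')
    (hcomp : ∀ B B', Good 3 B → Good 3 B' → B' ⊆ B → ∀ z, Zc 4 B' z → μ B z = μ B' z)
    (hnull : ∀ z, Zc 4 ∅ z → μ ∅ z = 0)
    (hlam : ∀ ψ ψ', Cc 3 univ ψ → Cc 3 univ ψ' → lam (ψ + ψ') = lam ψ + lam ψ')
    (hdl : ∀ B, Good 3 B → ∀ ψ, Cc 3 B ψ → μ B (dl ψ) = lam ψ)
    {B : Set X} (hB : Good 3 B) {z ψ : Co X} (hz : Zc 4 B z) (hψ : Cc 3 univ ψ)
    (h : Null (z + dl ψ)) : μ B z = lam ψ := by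
  have hL : ∀ L : List (Set X), (∀ C ∈ L, Good 3 C) → Glued μ (LU L) := by
    intro L hL
    induction L with
    | nil =>
      rw [LU_nil]
      exact ⟨μ ∅, hadd ∅ (good_empty 3), fun C hC hs z hz => hcomp ∅ C (good_empty 3) hC hs z hz⟩
    | cons C L ih =>
      rw [LU_cons]
      have hC := hL C List.mem_cons_self
      have hL' : ∀ D ∈ L, Good 3 D := fun D hD => hL D (List.mem_cons_of_mem _ hD)
      exact Glued.union hX hadd hcomp hC.isOpen (isOpen_LU fun D hD => (hL' D hD).isOpen)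
        ⟨μ C, hadd C hC, fun D hD hs z hz => hcomp C D hC hD hs z hz⟩ (ih hL')
  obtain ⟨L, h1, h2⟩ := exists_LU hψ.cpt (Good 3) (fun B hB => hB.isOpen) fun x _ => by
    obtain ⟨B, h1, h2, -⟩ := hX.basis x univ univ_mem
    exact ⟨B, h1, h2⟩
  have hBL : ∀ C ∈ B :: L, Good 3 C := fun C hC => by
    rcases List.mem_cons.1 hC with rfl | hC
    exacts [hB, h1 C hC]
  obtain ⟨m, a, c⟩ := hL (B :: L) hBL
  have ho : IsOpen (LU (B :: L)) := isOpen_LU fun C hC => (hBL C hC).isOpen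
  have hBs : B ⊆ LU (B :: L) := by rw [LU_cons]; exact subset_union_left
  have hψ' : Cc 3 (LU (B :: L)) ψ := hψ.shrink (by rw [LU_cons]; exact h2.trans subset_union_right)
  have e1 : m (dl ψ) = lam ψ := hX.cc_induction ho (fun ψ => m (dl ψ) = lam ψ)
    (fun C hC hs ψ hψ => by rw [c C hC hs _ hψ.zc_dl, hdl C hC ψ hψ])
    (fun ψ ψ' h h' e e' => by
      rw [dl_add, a _ _ h.zc_dl h'.zc_dl, e, e',
        hlam ψ ψ' (h.mono (subset_univ _)) (h'.mono (subset_univ _))]) hψ'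
  have hzz := (hz.mono hBs).add hψ'.zc_dl
  have hz0 : Zc 4 ∅ (z + dl ψ) := ⟨hzz.toCc.shrink h.supp_eq.subset, hzz.coc⟩
  have e2 := c ∅ (good_empty 3) (empty_subset _) _ hz0
  rw [hnull _ hz0, a _ _ (hz.mono hBs) hψ'.zc_dl, e1, c B hB hBs z hz] at e2
  have := add_self2 (lam ψ)
  linear_combination e2 - this

open Classical in
/-- the indicator of being a nontrivial class in `U` -/
noncomputable def nb (n : ℕ) (U : Set X) (z : Co X) : ZMod 2 := if Bd n U z then 0 else 1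

theorem nb_eq_zero {n : ℕ} {U : Set X} {z : Co X} : nb n U z = 0 ↔ Bd n U z := by
  unfold nb; split_ifs with h <;> simp [h]

theorem nb_eq_one {n : ℕ} {U : Set X} {z : Co X} : nb n U z = 1 ↔ ¬ Bd n U z := by
  unfold nb; split_ifs with h <;> simp [h]

theorem nb_add {n : ℕ} {U : Set X} {z z' : Co X}
    (h : ¬ Bd n U z → ¬ Bd n U z' → Bd n U (z + z')) :
    nb n U (z + z') = nb n U z + nb n U z' := by
  by_cases h1 : Bd n U z <;> by_cases h2 : Bd n U z'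
  · rw [nb_eq_zero.2 h1, nb_eq_zero.2 h2, nb_eq_zero.2 (h1.add h2), add_zero]
  · rw [nb_eq_zero.2 h1, nb_eq_one.2 h2, nb_eq_one.2 fun h => h2 (h.of_add' h1), zero_add]
  · rw [nb_eq_one.2 h1, nb_eq_zero.2 h2, nb_eq_one.2 fun h => h1 (h.of_add h2), add_zero]
  · rw [nb_eq_one.2 h1, nb_eq_one.2 h2, nb_eq_zero.2 (h h1 h2)]; rfl

theorem nb_congr {n : ℕ} {U : Set X} {z z' : Co X} (h : Bd n U (z + z')) :
    nb n U z = nb n U z' := by
  by_cases h1 : Bd n U z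
  · rw [nb_eq_zero.2 h1, nb_eq_zero.2 (h.of_add' h1)]
  · rw [nb_eq_one.2 h1, nb_eq_one.2 fun h2 => h1 (h.of_add h2)]

/-- a local generator stays nontrivial in the whole manifold -/
theorem Mfd.bd_of_bd_univ (hX : Mfd X) {B : Set X} (hB : Good 3 B) {z : Co X} (hz : Zc 4 B z)
    (h : Bd 3 univ z) : Bd 3 B z := by
  obtain ⟨ψ, hψ, h⟩ := h
  refine nb_eq_zero.1 (hX.glue (μ := nb 3) (lam := fun _ => 0)
    (fun B hB z z' hz hz' => nb_add (hB.one z z' hz hz')) (fun B B' hB hB' hs z hz => ?_)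
    (fun z hz => nb_eq_zero.2 (Null.bd (fun x => hz.lz (notMem_empty x)) _ _))
    (fun _ _ _ _ => rfl) (fun B _ ψ hψ => nb_eq_zero.2 hψ.bd_dl) hB hz hψ h)
  by_cases h1 : Bd 3 B' z
  · rw [nb_eq_zero.2 h1, nb_eq_zero.2 (h1.mono hs)]
  · rw [nb_eq_one.2 h1, nb_eq_one.2 (hB.not_bd hB' hs hz h1)]

theorem Mfd.exists_gen (hX : Mfd X) (x : X) {W : Set X} (hW : W ∈ 𝓝 x) :
    ∃ B z, Good 3 B ∧ x ∈ B ∧ B ⊆ W ∧ Zc 4 B z ∧ ¬ Bd 3 univ z := by
  obtain ⟨B, h1, h2, h3⟩ := hX.basis x W hW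
  obtain ⟨z, h4, h5⟩ := h1.loc x h2 univ univ_mem
  rw [univ_inter] at h4
  exact ⟨B, z, h1, h2, h3, h4, fun h => h5 (hX.bd_of_bd_univ h1 h4 h)⟩

/-- two generators near the same point are cohomologous in the union of their domains -/
theorem Mfd.gen_add (hX : Mfd X) {B B' : Set X} (hB : Good 3 B) (hB' : Good 3 B') {x : X}
    (hx : x ∈ B) (hx' : x ∈ B') {z z' : Co X} (hz : Zc 4 B z) (hz' : Zc 4 B' z')
    (hn : ¬ Bd 3 univ z) (hn' : ¬ Bd 3 univ z') : Bd 3 (B ∪ B') (z + z') := by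
  obtain ⟨C, y, -, -, h3, h4, h5⟩ := hX.exists_gen x ((hB.isOpen.inter hB'.isOpen).mem_nhds ⟨hx, hx'⟩)
  have m : ∀ {V : Set X} {w : Co X}, ¬ Bd 3 univ w → ¬ Bd 3 V w :=
    fun h h' => h (h'.mono (subset_univ _))
  exact ((hB.one z y hz (h4.mono (h3.trans inter_subset_left)) (m hn) (m h5)).mono
    subset_union_left).trans ((hB'.one y z' (h4.mono (h3.trans inter_subset_right)) hz' (m h5)
      (m hn')).mono subset_union_right)

theorem Mfd.top_one (hX : Mfd X) [PreconnectedSpace X] {z z' : Co X} (hz : Zc 4 univ z)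
    (hz' : Zc 4 univ z') (hn : ¬ Bd 3 univ z) (hn' : ¬ Bd 3 univ z') : Bd 3 univ (z + z') := by
  let R : X → X → Prop := fun x y => ∀ B B' z z', Good 3 B → Good 3 B' → x ∈ B → y ∈ B' →
    Zc 4 B z → Zc 4 B' z' → ¬ Bd 3 univ z → ¬ Bd 3 univ z' → Bd 3 univ (z + z')
  have : Std.Symm R := ⟨fun x y h B B' z z' h1 h2 h3 h4 h5 h6 h7 h8 =>
    (h B' B z' z h2 h1 h4 h3 h6 h5 h8 h7).symm⟩
  have hR : ∀ x y, R x y := by
    refine PreconnectedSpace.induction₂ R (fun x => ?_) ⟨fun x y w h h' => ?_⟩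
    · obtain ⟨C, c, h1, h2, -, h4, h5⟩ := hX.exists_gen x univ_mem
      filter_upwards [h1.isOpen.mem_nhds h2] with y hy B B' z z' g1 g2 g3 g4 g5 g6 g7 g8
      exact ((hX.gen_add g1 h1 g3 h2 g5 h4 g7 h5).mono (subset_univ _)).trans
        ((hX.gen_add h1 g2 hy g4 h4 g6 h5 g8).mono (subset_univ _))
    · obtain ⟨C, c, h1, h2, -, h4, h5⟩ := hX.exists_gen y univ_mem
      intro B B' z z' g1 g2 g3 g4 g5 g6 g7 g8
      exact (h B C z c g1 h1 g3 h2 g5 h4 g7 h5).trans (h' C B' c z' h1 g2 h2 g4 h4 g6 h5 g8)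
  rcases isEmpty_or_nonempty X with hE | ⟨⟨x₀⟩⟩
  · exact Null.bd (fun x => isEmptyElim x) _ _
  obtain ⟨C, c, h1, h2, -, h4, h5⟩ := hX.exists_gen x₀ univ_mem
  have key : ∀ z, Zc 4 univ z → Bd 3 univ z ∨ Bd 3 univ (z + c) := fun z hz =>
    hX.zc_induction isOpen_univ (fun z => Bd 3 univ z ∨ Bd 3 univ (z + c))
      (fun B hB _ z hz => by
        by_cases h : Bd 3 univ z
        · exact Or.inl h
        rcases B.eq_empty_or_nonempty with rfl | ⟨x, hx⟩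
        · exact Or.inl (Null.bd (fun x => hz.lz (notMem_empty x)) _ _)
        · exact Or.inr (hR x x₀ B C z c hB h1 hx h2 hz h4 h h5))
      (fun z z' _ _ e e' => by
        rcases e with e | e <;> rcases e' with e' | e'
        · exact Or.inl (e.add e')
        · exact Or.inr (by rw [add_assoc]; exact e.add e')
        · exact Or.inr (by rw [add_right_comm]; exact e.add e')
        · exact Or.inl (e.trans e'.symm)) hz
  exact ((key z hz).resolve_left hn).trans ((key z' hz').resolve_left hn').symm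

theorem Mfd.nb_add (hX : Mfd X) [PreconnectedSpace X] {z z' : Co X} (hz : Zc 4 univ z)
    (hz' : Zc 4 univ z') : nb 3 univ (z + z') = nb 3 univ z + nb 3 univ z' :=
  MP_a8e993_al.nb_add (hX.top_one hz hz')

/-- second compactly supported cohomology of a simply connected three-manifold vanishes -/
theorem Mfd.h2 (hX : Mfd X) [SimplyConnectedSpace X] [LocallyPathConnectedSpace X] {z₀ : Co X}
    (hz₀ : Zc 3 univ z₀) : Bd 2 univ z₀ := by
  classical
  by_contra hn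
  let S : Submodule (ZMod 2) (Co X) :=
    { carrier := {φ | Bd 2 univ φ}
      add_mem' := fun h h' => h.add h'
      zero_mem' := null_zero.bd _ _
      smul_mem' := fun c φ h => by
        rcases zmod2_cases c with rfl | rfl
        · rw [zero_smul]; exact null_zero.bd _ _
        · rwa [one_smul] }
  obtain ⟨lam, hl1, hl2⟩ := S.exists_le_ker_of_notMem (v := z₀) hn
  have hl0 : ∀ φ, Bd 2 univ φ → lam φ = 0 := fun φ h => hl2 h
  have hex : ∀ (B : Set X) (φ : Co X), ∃ v : ZMod 2, Good 3 B → ∀ ψ, Cc 3 B ψ →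
      Null (φ + dl ψ) → v = lam ψ := by
    intro B φ
    by_cases h : Bd 3 B φ
    · obtain ⟨ψ, h1, h2⟩ := h
      refine ⟨lam ψ, fun hB ψ' h1' h2' => ?_⟩
      have := hl0 _ ((hB.van 2 (ψ + ψ') (by omega)
        ⟨h1.add h1', by rw [dl_add]; exact h2.symm.trans h2'⟩).mono (subset_univ _))
      rw [map_add] at this
      have e := add_self2 (lam ψ')
      linear_combination this - e
    · exact ⟨0, fun _ ψ h1 h2 => (h ⟨ψ, h1, h2⟩).elim⟩
  choose m hm using hex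
  have madd : ∀ B, Good 3 B → ∀ φ φ', Bd 3 B φ → Bd 3 B φ' → m B (φ + φ') = m B φ + m B φ' := by
    rintro B hB φ φ' ⟨ψ, h1, h2⟩ ⟨ψ', h1', h2'⟩
    rw [hm B φ hB ψ h1 h2, hm B φ' hB ψ' h1' h2', hm B (φ + φ') hB (ψ + ψ') (h1.add h1') (by
      have := h2.add h2'
      rw [dl_add]
      convert this using 1
      ring), map_add]
  have mtr : ∀ B, Good 3 B → ∀ a b c, Bd 3 B (a + b) → Bd 3 B (b + c) →
      m B (a + c) = m B (a + b) + m B (b + c) := by
    intro B hB a b c h h'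
    rw [← madd B hB _ _ h h', add_assoc, ← add_assoc b, co_add_self, zero_add]
  have meq : ∀ B C V, Good 3 B → Good 3 C → V ⊆ B → V ⊆ C → ∀ φ, Bd 3 V φ → m B φ = m C φ := by
    rintro B C V hB hC h h' φ ⟨ψ, h1, h2⟩
    rw [hm B φ hB ψ (h1.mono h) h2, hm C φ hC ψ (h1.mono h') h2]
  have hgz : ∀ B : Set X, ∃ z, Good 3 B → B.Nonempty → Zc 4 B z ∧ ¬ Bd 3 univ z := by
    intro B
    by_cases h : Good 3 B ∧ B.Nonempty
    · obtain ⟨hB, x, hx⟩ := h
      obtain ⟨C, z, -, -, h3, h4, h5⟩ := hX.exists_gen x (hB.isOpen.mem_nhds hx)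
      exact ⟨z, fun _ _ => ⟨h4.mono h3, h5⟩⟩
    · exact ⟨0, fun h1 h2 => (h ⟨h1, h2⟩).elim⟩
  choose gz hgz using hgz
  have hone : ∀ B : Set X, Good 3 B → ∀ z z', Zc 4 B z → Zc 4 B z' → ¬ Bd 3 univ z →
      ¬ Bd 3 univ z' → Bd 3 B (z + z') := fun B hB z z' h h' g g' =>
    hB.one z z' h h' (fun e => g (e.mono (subset_univ _))) fun e => g' (e.mono (subset_univ _))
  have hex2 : ∀ (B C : Set X) (x : X), ∃ v : ZMod 2, Good 3 B → Good 3 C → ∀ W z, Good 3 W →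
      x ∈ W → W ⊆ B → W ⊆ C → Zc 4 W z → ¬ Bd 3 univ z →
      v = m B (gz B + z) + m C (gz C + z) := by
    intro B C x
    by_cases h : ∃ W z, Good 3 W ∧ x ∈ W ∧ W ⊆ B ∧ W ⊆ C ∧ Zc 4 W z ∧ ¬ Bd 3 univ z
    · obtain ⟨W, z, h1, h2, h3, h4, h5, h6⟩ := h
      refine ⟨m B (gz B + z) + m C (gz C + z), fun hB hC W' z' g1 g2 g3 g4 g5 g6 => ?_⟩
      have hb := hX.gen_add g1 h1 g2 h2 g5 h5 g6 h6
      obtain ⟨b1, b2⟩ := hgz B hB ⟨x, h3 h2⟩
      obtain ⟨c1, c2⟩ := hgz C hC ⟨x, h4 h2⟩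
      rw [mtr B hB _ z' z (hone B hB _ _ b1 (g5.mono g3) b2 g6) (hb.mono (union_subset g3 h3)),
        mtr C hC _ z' z (hone C hC _ _ c1 (g5.mono g4) c2 g6) (hb.mono (union_subset g4 h4)),
        meq B C _ hB hC (union_subset g3 h3) (union_subset g4 h4) _ hb]
      have := add_self2 (m C (z' + z))
      linear_combination this
    · exact ⟨0, fun _ _ W z h1 h2 h3 h4 h5 h6 => (h ⟨W, z, h1, h2, h3, h4, h5, h6⟩).elim⟩
  choose g hg using hex2
  obtain ⟨s, hs, hs'⟩ := cech (ι := {B : Set X // Good 3 B}) (fun B => B.1) (fun B => B.2.isOpen)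
    (fun x => by
      obtain ⟨B, h1, h2, -⟩ := hX.basis x univ univ_mem
      exact ⟨⟨B, h1⟩, h2⟩) (fun B C => g B.1 C.1)
    (fun B C x hB hC => by
      obtain ⟨W, z, h1, h2, h3, h4, h5⟩ :=
        hX.exists_gen x ((B.2.isOpen.inter C.2.isOpen).mem_nhds ⟨hB, hC⟩)
      filter_upwards [h1.isOpen.mem_nhds h2] with y hy
      rw [hg _ _ x B.2 C.2 W z h1 h2 (h3.trans inter_subset_left) (h3.trans inter_subset_right)
        h4 h5, hg _ _ y B.2 C.2 W z h1 hy (h3.trans inter_subset_left)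
        (h3.trans inter_subset_right) h4 h5])
    (fun B C D x hB hC hD => by
      obtain ⟨W, z, h1, h2, h3, h4, h5⟩ := hX.exists_gen x
        (((B.2.isOpen.inter C.2.isOpen).inter D.2.isOpen).mem_nhds ⟨⟨hB, hC⟩, hD⟩)
      have s1 : W ⊆ B.1 := fun y hy => (h3 hy).1.1
      have s2 : W ⊆ C.1 := fun y hy => (h3 hy).1.2
      have s3 : W ⊆ D.1 := fun y hy => (h3 hy).2
      rw [hg _ _ x B.2 C.2 W z h1 h2 s1 s2 h4 h5, hg _ _ x C.2 D.2 W z h1 h2 s2 s3 h4 h5,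
        hg _ _ x B.2 D.2 W z h1 h2 s1 s3 h4 h5]
      have := add_self2 (m C.1 (gz C.1 + z))
      linear_combination this)
  have hsc : ∀ B : Set X, ∃ c : ZMod 2, ∀ hB : Good 3 B, ∀ x ∈ B, s ⟨B, hB⟩ x = c := by
    intro B
    by_cases h : Good 3 B ∧ B.Nonempty
    · obtain ⟨hB, x, hx⟩ := h
      refine ⟨s ⟨B, hB⟩ x, fun _ y hy => ?_⟩
      exact hB.conn.induction₂ (fun a b => s ⟨B, hB⟩ a = s ⟨B, hB⟩ b)
        (fun a ha => mem_nhdsWithin_of_mem_nhds ((hs ⟨B, hB⟩ a ha).mono fun b hb => hb.symm))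
        (fun _ _ _ _ _ _ e e' => e.trans e') (fun _ _ _ _ e => e.symm) hy hx
    · exact ⟨0, fun h1 x hx => (h ⟨h1, x, hx⟩).elim⟩
  choose c hc using hsc
  have hne : ∀ {B : Set X} {z : Co X}, Zc 4 B z → ¬ Bd 3 univ z → B.Nonempty := by
    intro B z hz h
    rcases B.eq_empty_or_nonempty with rfl | h'
    · exact (h (Null.bd (fun x => hz.lz (notMem_empty x)) _ _)).elim
    · exact h'
  have := hX.glue (μ := fun B z => if Bd 3 univ z then m B z else m B (gz B + z) + c B)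
    (lam := lam) (fun B hB z z' hz hz' => ?_) (fun B B' hB hB' hs z hz => ?_) (fun z hz => ?_)
    (fun ψ ψ' _ _ => map_add lam ψ ψ') (fun B hB ψ hψ => ?_) (good_empty 3) (zc_zero 4 ∅)
    hz₀.toCc (by rw [zero_add]; exact hz₀.coc)
  · rw [if_pos (null_zero.bd _ _), hm ∅ 0 (good_empty 3) 0 (cc_zero _ _) (by simpa using null_zero),
      map_zero] at this
    exact hl1 this.symm
  · by_cases h1 : Bd 3 univ z <;> by_cases h2 : Bd 3 univ z'
    · rw [if_pos h1, if_pos h2, if_pos (h1.add h2),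
        madd B hB z z' (hX.bd_of_bd_univ hB hz h1) (hX.bd_of_bd_univ hB hz' h2)]
    · obtain ⟨b1, b2⟩ := hgz B hB (hne hz' h2)
      rw [if_pos h1, if_neg h2, if_neg fun h => h2 (h.of_add' h1), add_left_comm,
        madd B hB z _ (hX.bd_of_bd_univ hB hz h1) (hone B hB _ _ b1 hz' b2 h2), add_assoc]
    · obtain ⟨b1, b2⟩ := hgz B hB (hne hz h1)
      rw [if_neg h1, if_pos h2, if_neg fun h => h1 (h.of_add h2), ← add_assoc,
        madd B hB _ z' (hone B hB _ _ b1 hz b2 h1) (hX.bd_of_bd_univ hB hz' h2), add_right_comm]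
    · obtain ⟨b1, b2⟩ := hgz B hB (hne hz h1)
      rw [if_neg h1, if_neg h2, if_pos ((hone B hB _ _ hz hz' h1 h2).mono (subset_univ _)),
        mtr B hB z (gz B) z' (hone B hB _ _ hz b1 h1 b2) (hone B hB _ _ b1 hz' b2 h2),
        add_comm z (gz B)]
      have := add_self2 (c B)
      linear_combination -this
  · by_cases h1 : Bd 3 univ z
    · rw [if_pos h1, if_pos h1, meq B B' B' hB hB' hs subset_rfl z (hX.bd_of_bd_univ hB' hz h1)]
    · obtain ⟨x, hx⟩ := hne hz h1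
      have e1 := hs' ⟨B, hB⟩ ⟨B', hB'⟩ x (hs hx) hx
      rw [hc B hB x (hs hx), hc B' hB' x hx, hg B B' x hB hB' B' z hB' hx hs subset_rfl hz h1] at e1
      rw [if_neg h1, if_neg h1]
      have e2 := add_self2 (c B')
      have e3 := add_self2 (m B (gz B + z))
      linear_combination e1 - e2 + e3
  · have hn : Null z := fun x => hz.lz (notMem_empty x)
    rw [if_pos (hn.bd _ _), hm ∅ z (good_empty 3) 0 (cc_zero _ _) (by simpa using hn), map_zero]
  · rw [if_pos (hψ.bd_dl.mono (subset_univ _)), hm B _ hB ψ hψ (null_refl _)]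

end Pool.Agent.P.MP_a8e993_al
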