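import Pool.Agent.P.MP_a8e993_al.Assemble

/-! The free-by-cyclic group with periodic monodromy of order three. -/

set_option autoImplicit false
set_option linter.unusedSectionVars false

open Multiplicative

namespace Pool.Agent.P.MP_a8e993_al

theorem free_ab_sq {P : Type*} [Group P] [IsFreeGroup P] (a : Abelianization P) (h : a ^ 2 = 1) :
    a = 1 := by
  let e := (IsFreeGroup.toFreeGroup P).abelianizationCongr
  let b : FreeAbelianGroup (IsFreeGroup.Generators P) := Additive.ofMul (e a)
  have h1 : (e a) ^ 2 = 1 := by rw [← map_pow, h, map_one]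
  have h2 : (2 : ℤ) • b = 0 := by
    rw [two_smul]
    exact (pow_two (e a)).symm.trans h1
  have h3 : b = 0 := (smul_eq_zero.1 h2).resolve_left two_ne_zero
  exact e.injective ((show e a = 1 from h3).trans (map_one e).symm)

theorem prod_ab_sq {K F : Type*} [Group K] [Group F] [IsFreeGroup F] (p : K →* F)
    (ht : K →* Multiplicative ℤ) (inj : ∀ a b, p a = p b → ht a = ht b → a = b)
    (a : Abelianization K) (h : a ^ 2 = 1) : a = 1 := by
  obtain ⟨g, rfl⟩ : ∃ g, Abelianization.of g = a := QuotientGroup.mk_surjective a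
  have h1 : Abelianization.of (p.rangeRestrict g) = 1 := free_ab_sq _ (by
    rw [← Abelianization.map_of, ← map_pow, h, map_one])
  have h2 : p.rangeRestrict g ∈ (commutator K).map p.rangeRestrict := by
    rw [← MonoidHom.mem_ker, Abelianization.ker_of] at h1
    refine Subgroup.commutator_le_map_commutator ?_ ?_ h1 <;>
      exact (Subgroup.map_top_of_surjective _ p.rangeRestrict_surjective).ge
  obtain ⟨c, hc, e⟩ := h2
  have h3 : ht g = 1 := by
    have := congrArg (Abelianization.lift ht) h
    rw [map_pow, map_one, Abelianization.lift_apply_of] at this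
    have h4 := congrArg toAdd this
    rw [toAdd_pow, toAdd_one, smul_eq_zero] at h4
    exact h4.resolve_left two_ne_zero
  have h4 : ht c = 1 := Abelianization.commutator_subset_ker ht hc
  rw [← inj c g (congrArg Subtype.val e) (h4.trans h3.symm), ← MonoidHom.mem_ker,
    Abelianization.ker_of]
  exact hc

theorem ab_sq_of_index {H : Type*} [Group H] (K : Subgroup H) (hK : K.index ∣ 3)
    (h0 : ∀ a : Abelianization K, a ^ 2 = 1 → a = 1) (a : Abelianization H) (h : a ^ 2 = 1) :
    a = 1 := by
  have : K.FiniteIndex := ⟨fun h => by simp [h] at hK⟩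
  obtain ⟨g, rfl⟩ : ∃ g, Abelianization.of g = a := QuotientGroup.mk_surjective a
  have := Fintype.ofFinite (Quotient (MulAction.orbitRel (Subgroup.zpowers g) (H ⧸ K)))
  have h1 : MonoidHom.transfer (Abelianization.of : K →* Abelianization K) g = 1 := h0 _ (by
    rw [← Abelianization.lift_apply_of (MonoidHom.transfer _), ← map_pow, h, map_one])
  have h2 := congrArg (Abelianization.map K.subtype) h1
  rw [MonoidHom.transfer_eq_prod_quotient_orbitRel_zpowers_quot, map_prod, map_one] at h2
  simp only [Abelianization.map_of, Subgroup.subtype_apply, map_mul, map_inv, map_pow,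
    inv_mul_cancel_comm] at h2
  rw [Finset.prod_pow_eq_pow_sum, ← Subgroup.index_eq_sum_minimalPeriod] at h2
  obtain ⟨k, hk⟩ := hK
  have h3 : Abelianization.of g ^ 3 = 1 := by rw [hk, pow_mul, h2, one_pow]
  rwa [pow_succ, h, one_mul] at h3

/-- the permutation of the basis -/
def perm : Equiv.Perm (Fin 4) := ⟨![0, 2, 3, 1], ![0, 3, 1, 2], by decide, by decide⟩

/-- permutations act on the free group -/
def congrHom : Equiv.Perm (Fin 4) →* MulAut (FreeGroup (Fin 4)) where
  toFun e := FreeGroup.freeGroupCongr e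
  map_one' := FreeGroup.freeGroupCongr_refl
  map_mul' e f := (FreeGroup.freeGroupCongr_trans f e).symm

/-- the monodromy -/
def mono : Multiplicative ℤ →* MulAut (FreeGroup (Fin 4)) :=
  congrHom.comp (zpowersHom _ perm)

theorem mono_apply (n : Multiplicative ℤ) :
    mono n = FreeGroup.freeGroupCongr (perm ^ n.toAdd) := rfl

theorem mono_of (n : Multiplicative ℤ) (i : Fin 4) :
    mono n (FreeGroup.of i) = FreeGroup.of ((perm ^ n.toAdd) i) := rfl

theorem perm_cube : perm ^ 3 = 1 := by decide

theorem mono_eq_one {n : Multiplicative ℤ} (h : (3 : ℤ) ∣ n.toAdd) : mono n = 1 := by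
  obtain ⟨k, hk⟩ := h
  have : perm ^ n.toAdd = 1 := by
    rw [hk, zpow_mul, show perm ^ (3 : ℤ) = 1 from perm_cube, one_zpow]
  change congrHom (perm ^ n.toAdd) = 1
  rw [this, map_one]

/-- the group -/
abbrev Grp : Type := FreeGroup (Fin 4) ⋊[mono] Multiplicative ℤ

instance : Countable Grp :=
  Function.Injective.countable (f := fun g : Grp => (g.left, g.right.toAdd))
    fun _ _ e => SemidirectProduct.ext (congrArg Prod.fst e) (congrArg Prod.snd e)

theorem ab_sq (H : Subgroup Grp) (a : Abelianization H) (h : a ^ 2 = 1) : a = 1 := by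
  let ht : H →* Multiplicative ℤ := SemidirectProduct.rightHom.comp H.subtype
  let χ : H →* Multiplicative (ZMod 3) :=
    (AddMonoidHom.toMultiplicative (Int.castAddHom (ZMod 3))).comp ht
  have hk : ∀ g : χ.ker, mono g.1.1.right = 1 := fun g =>
    mono_eq_one ((ZMod.intCast_zmod_eq_zero_iff_dvd _ 3).1 g.2)
  let p : χ.ker →* FreeGroup (Fin 4) := MonoidHom.mk' (fun g => g.1.1.left) fun g g' => by
    simp only [Subgroup.coe_mul, SemidirectProduct.mul_left, hk, MulAut.one_apply]
  refine ab_sq_of_index χ.ker ?_ (prod_ab_sq p (ht.comp χ.ker.subtype) fun g g' e e' =>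
    Subtype.ext (Subtype.ext (SemidirectProduct.ext e e'))) a h
  rw [Subgroup.index_ker]
  simpa using Subgroup.card_subgroup_dvd_card χ.range

/-- the stable letter -/
def tt : Grp := SemidirectProduct.inr (ofAdd 1)

/-- the basis -/
def xx (i : Fin 4) : Grp := SemidirectProduct.inl (FreeGroup.of i)

theorem conj_xx (i : Fin 4) : xx (perm i) = tt * xx i * tt⁻¹ := by
  rw [tt, xx, xx, ← map_inv, ← SemidirectProduct.inl_aut, mono_of, toAdd_ofAdd, zpow_one]

/-- exponent sums -/
def expo : FreeGroup (Fin 4) →* Multiplicative (Fin 4 → ℤ) :=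
  FreeGroup.lift fun i => ofAdd (Pi.single i 1)

theorem expo_congr (e : Equiv.Perm (Fin 4)) (w : FreeGroup (Fin 4)) (i : Fin 4) :
    (expo (FreeGroup.freeGroupCongr e w)).toAdd (e i) = (expo w).toAdd i := by
  induction w using FreeGroup.induction_on with
  | C1 => simp
  | of x => simp [expo, Pi.single_apply]
  | inv_of x h => simpa using h
  | mul x y h h' => simp only [map_mul, toAdd_mul, Pi.add_apply, h, h']

theorem coarse : Coarse tt xx := by
  intro S hS
  let F : Grp → ℝ := fun g =>
    ∑ a, |((expo g.left).toAdd a : ℝ)| + |(g.right.toAdd : ℝ)|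
  obtain ⟨R, hR⟩ := (hS.image F).bddAbove
  refine ⟨R, fun i j m m' k k' hm hm' h => ?_⟩
  have h1 := hR ⟨_, h, rfl⟩
  have e : (xx i ^ m * tt ^ k)⁻¹ * (xx j ^ m' * tt ^ k') =
      ⟨mono (ofAdd (-k)) ((FreeGroup.of i ^ m)⁻¹ * FreeGroup.of j ^ m'), ofAdd (k' - k)⟩ := by
    have e1 : ∀ n : ℤ, tt ^ n = SemidirectProduct.inr (ofAdd n) := fun n => by
      rw [tt, ← map_zpow SemidirectProduct.inr, ← ofAdd_zsmul, smul_eq_mul, mul_one]
    have e2 : ∀ (a : Fin 4) (n : ℤ), xx a ^ n = SemidirectProduct.inl (FreeGroup.of a ^ n) :=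
      fun a n => (map_zpow SemidirectProduct.inl _ _).symm
    rw [e1, e1, e2, e2]
    generalize FreeGroup.of i ^ m = u
    generalize FreeGroup.of j ^ m' = v
    ext
    · simp
    · simp [sub_eq_neg_add]
  rw [e] at h1
  simp only [F, toAdd_ofAdd, mono_apply] at h1
  have h2 := Finset.single_le_sum (s := Finset.univ)
    (f := fun a => |((expo (FreeGroup.freeGroupCongr (perm ^ (-k))
      ((FreeGroup.of i ^ m)⁻¹ * FreeGroup.of j ^ m'))).toAdd a : ℝ)|)
    (fun _ _ => abs_nonneg _) (Finset.mem_univ ((perm ^ (-k)) i))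
  have h3 := Finset.sum_nonneg (s := Finset.univ)
    (f := fun a => |((expo (FreeGroup.freeGroupCongr (perm ^ (-k))
      ((FreeGroup.of i ^ m)⁻¹ * FreeGroup.of j ^ m'))).toAdd a : ℝ)|) fun _ _ => abs_nonneg _
  have h4 := abs_nonneg ((k' - k : ℤ) : ℝ)
  rw [expo_congr] at h2
  refine ⟨?_, fun hij => ?_, fun hij => ?_⟩
  · rw [abs_sub_comm]
    push_cast at h1
    linarith
  · subst hij
    have : (expo ((FreeGroup.of i ^ m)⁻¹ * FreeGroup.of i ^ m')).toAdd i = m' - m := by
      simp [expo, sub_eq_neg_add]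
    rw [this] at h2
    rw [abs_sub_comm]
    push_cast at h2
    linarith
  · have : (expo ((FreeGroup.of i ^ m)⁻¹ * FreeGroup.of j ^ m')).toAdd i = -m := by
      simp [expo, hij]
    rw [this] at h2
    push_cast at h2
    rw [abs_neg] at h2
    linarith [le_abs_self (m : ℝ)]

theorem grp_not_fundamentalGroup {M : Type*} [TopologicalSpace M] [T2Space M] [CompactSpace M]
    [ChartedSpace (EuclideanHalfSpace 3) M] (p : M) (φ : FundamentalGroup M p ≃* Grp) : False := by
  have a0 : xx 0 = tt * xx 0 * tt⁻¹ := conj_xx 0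
  have a1 : xx 2 = tt * xx 1 * tt⁻¹ := conj_xx 1
  have a2 : xx 3 = tt * xx 2 * tt⁻¹ := conj_xx 2
  have a3 : xx 1 = tt * xx 3 * tt⁻¹ := conj_xx 3
  refine not_fundamentalGroup ?_ ?_ a1 a2 coarse p φ
  · exact (eq_mul_inv_iff_mul_eq.1 a0)
  · rw [a2, a1] at a3
    change xx 1 * tt ^ 3 = tt ^ 3 * xx 1
    conv_lhs => rw [a3]
    rw [pow_three']
    group

end Pool.Agent.P.MP_a8e993_al
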