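import Pool.Agent.P.MP_a8e993_al.Cochain

/-! Splitting, localisation, homotopy invariance, tautness and transfer along charts. -/

set_option autoImplicit false
set_option linter.unusedSectionVars false

open Set Filter Topology unitInterval

namespace Pool.Agent.P.MP_a8e993_al

variable {X Y Z : Type*} [TopologicalSpace X] [TopologicalSpace Y] [TopologicalSpace Z]

open Classical in
/-- indicator function with values mod 2 -/
noncomputable def ind {X : Type*} (S : Set X) : X → ZMod 2 := fun x => if x ∈ S then 1 else 0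

theorem ind_of_mem {X : Type*} {S : Set X} {x : X} (h : x ∈ S) : ind S x = 1 := if_pos h

theorem ind_of_notMem {X : Type*} {S : Set X} {x : X} (h : x ∉ S) : ind S x = 0 := if_neg h

theorem lz_cut_ind_one {S : Set X} {x : X} (h : S ∈ 𝓝 x) {φ : Co X} (h0 : φ [] = 0) :
    LZ (cut (ind S) φ + φ) x :=
  lz_cut_one (by filter_upwards [h] with y hy using ind_of_mem hy) h0

theorem lz_cut_ind_zero {S : Set X} {x : X} (h : Sᶜ ∈ 𝓝 x) (φ : Co X) :
    LZ (cut (ind S) φ) x :=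
  lz_cut_zero (by filter_upwards [h] with y hy using ind_of_notMem hy)

theorem Cc.split [T2Space X] {n : ℕ} {U V : Set X} (hU : IsOpen U) (hV : IsOpen V) {φ : Co X}
    (h : Cc n (U ∪ V) φ) : ∃ φ₁ φ₂, Cc n U φ₁ ∧ Cc n V φ₂ ∧ φ = φ₁ + φ₂ := by
  have hd : Disjoint (supp φ \ V) (supp φ \ U) := by
    rw [Set.disjoint_left]
    rintro x ⟨hx, hxV⟩ ⟨-, hxU⟩
    exact (h.sub hx).elim hxU hxV
  obtain ⟨E, E', hE, hE', h1, h2, hEE⟩ :=
    SeparatedNhds.of_isCompact_isCompact (h.cpt.diff hV) (h.cpt.diff hU) hd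
  refine ⟨MP_a8e993_al.cut (ind E) φ, MP_a8e993_al.cut (ind E) φ + φ, (h.cut _).shrink ?_,
    ((h.cut _).add h).shrink ?_, ?_⟩
  · refine supp_subset_iff.2 fun x hx => ?_
    by_cases hs : x ∈ supp φ
    · refine lz_cut_ind_zero ?_ φ
      exact mem_of_superset (hE'.mem_nhds (h2 ⟨hs, hx⟩))
        fun y hy hyE => Set.disjoint_left.1 hEE hyE hy
    · exact (lz_of_notMem hs).cut _
  · refine supp_subset_iff.2 fun x hx => ?_
    by_cases hs : x ∈ supp φ
    · exact lz_cut_ind_one (hE.mem_nhds (h1 ⟨hs, hx⟩)) h.nil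
    · exact ((lz_of_notMem hs).cut _).add (lz_of_notMem hs)
  · rw [← add_assoc, co_add_self, zero_add]

/-- Mayer-Vietoris splitting of a cocycle -/
theorem Zc.split [T2Space X] {n : ℕ} {U V : Set X} (hU : IsOpen U) (hV : IsOpen V) {φ : Co X}
    (h : Zc n (U ∪ V) φ) (hUV : ∀ ψ, Zc (n + 1) (U ∩ V) ψ → Bd n (U ∩ V) ψ) :
    ∃ φ₁ φ₂, Zc n U φ₁ ∧ Zc n V φ₂ ∧ φ = φ₁ + φ₂ := by
  obtain ⟨a, b, ha, hb, e⟩ := h.toCc.split hU hV
  have hab : Null (dl a + dl b) := by rw [← dl_add, ← e]; exact h.coc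
  have hz : Zc (n + 1) (U ∩ V) (dl a) := by
    refine ⟨ha.dl.shrink (subset_inter ha.dl.sub ?_), ha.zc_dl.coc⟩
    exact supp_subset_iff.2 fun x hx => (hab x).of_add (hb.dl.lz hx)
  obtain ⟨w, hw, hw'⟩ := hUV _ hz
  refine ⟨a + w, b + w, ⟨ha.add (hw.mono inter_subset_left), by rwa [dl_add]⟩,
    ⟨hb.add (hw.mono inter_subset_right), by rw [dl_add]; exact hab.symm.trans hw'⟩, ?_⟩
  rw [e]
  have := co_add_self w
  linear_combination -this

/-- localisation near a set -/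
theorem localize [LocallyCompactSpace X] [T2Space X] {n : ℕ} {U A K : Set X} (hU : IsOpen U)
    (hK : IsCompact K) (hKU : K ⊆ U) {ψ : Co X} (hd : Deg n ψ) (h0 : ψ [] = 0)
    (hA : ∀ x ∈ A, x ∉ K → LZ ψ x) :
    ∃ φ, Cc n U φ ∧ (∀ x, LZ ψ x → LZ φ x) ∧ ∀ x ∈ A, LZ (φ + ψ) x := by
  obtain ⟨N, hN, hKN, hNU⟩ := exists_compact_between hK hU hKU
  have hs : supp (cut (ind N) ψ) ⊆ N :=
    supp_subset_iff.2 fun x hx => lz_cut_ind_zero (hN.isClosed.isOpen_compl.mem_nhds hx) ψ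
  refine ⟨cut (ind N) ψ, cc_of_subset (hd.cut _) rfl hN hs (hs.trans hNU),
    fun x hx => hx.cut _, fun x hx => ?_⟩
  by_cases hxK : x ∈ K
  · exact lz_cut_ind_one (mem_interior_iff_mem_nhds.1 (hKN hxK)) h0
  · exact ((hA x hx hxK).cut _).add (hA x hx hxK)

theorem eventually_lz_pr {h : Z → I → Y} (hc : Continuous fun p : Z × I => h p.1 p.2)
    {φ : Co Y} {N : Set Z} (hN : IsCompact N) (s₀ : I) (hφ : ∀ z ∈ N, LZ φ (h z s₀)) :
    ∀ᶠ s in 𝓝 s₀, ∀ z ∈ N, LZ (pr (fun z => h z s₀) (fun z => h z s) φ) z := by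
  refine hN.eventually_forall_of_forall_eventually fun z hz => ?_
  obtain ⟨V, hV, hv⟩ := hφ z hz
  have h1 : (fun p : Z × I => h p.1 p.2) ⁻¹' V ∈ 𝓝 (z, s₀) := hc.continuousAt hV
  obtain ⟨O, hO, J, hJ, hOJ⟩ := mem_nhds_prod_iff.1 h1
  have hO' : interior O ∈ 𝓝 z := interior_mem_nhds.2 hO
  filter_upwards [prod_mem_nhds hJ hO'] with p hp
  refine ⟨O, mem_interior_iff_mem_nhds.1 hp.2, (hv.pr _ _).mono fun y hy => ⟨?_, ?_⟩⟩
  · exact hOJ (mk_mem_prod hy (mem_of_mem_nhds hJ))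
  · exact hOJ (mk_mem_prod hy hp.1)

/-- homotopy invariance with compact supports -/
theorem homotopy_bd [LocallyCompactSpace Z] [T2Space Z] {h : Z → I → Y}
    (hc : Continuous fun p : Z × I => h p.1 p.2) {n : ℕ} {φ : Co Y} (hd : Deg (n + 1) φ)
    (hz : Null (dl φ)) {K W : Set Z} (hK : IsCompact K) (hW : IsOpen W) (hKW : K ⊆ W)
    (hs : ∀ z s, z ∉ K → LZ φ (h z s)) :
    Bd n W (pb (fun z => h z 0) φ + pb (fun z => h z 1) φ) := by
  obtain ⟨N, hN, hKN, hNW⟩ := exists_compact_between hK hW hKW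
  have hcs : ∀ s, Continuous fun z => h z s := fun s =>
    hc.comp (continuous_id.prodMk continuous_const)
  have : Std.Symm (fun s s' : I => Bd n W (pb (fun z => h z s) φ + pb (fun z => h z s') φ)) :=
    ⟨fun _ _ h1 => h1.symm⟩
  refine PreconnectedSpace.induction₂
    (fun s s' : I => Bd n W (pb (fun z => h z s) φ + pb (fun z => h z s') φ)) ?_ ?_ 0 1
  · intro s₀
    filter_upwards [eventually_lz_pr hc hN s₀ (fun z _ => hz _),
      eventually_lz_pr hc (hN.diff isOpen_interior) s₀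
        (fun z hz' => hs z s₀ fun hzK => hz'.2 (hKN hzK))] with s h1 h2
    set D := pr (fun z => h z s₀) (fun z => h z s) φ with hD
    have hsup : supp (cut (ind N) D) ⊆ N :=
      supp_subset_iff.2 fun x hx => lz_cut_ind_zero (hN.isClosed.isOpen_compl.mem_nhds hx) D
    refine ⟨cut (ind N) D, cc_of_subset ((hd.pr _ _).cut _) rfl hN hsup (hsup.trans hNW),
      fun z => ?_⟩
    by_cases hzi : z ∈ interior N
    · have e := dl_pr (fun z => h z s₀) (fun z => h z s) φ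
      rw [← e]
      have h3 := (lz_cut_ind_one (mem_interior_iff_mem_nhds.1 hzi) (φ := D) rfl).dl_add
      have := h3.add (h1 z (interior_subset hzi))
      convert this using 1
      ring
    · have hzK : z ∉ K := fun hzK => hzi (hKN hzK)
      refine ((LZ.pb (g := fun z => h z s₀) (hs z s₀ hzK) (hcs s₀).continuousAt).add
        (LZ.pb (g := fun z => h z s) (hs z s hzK) (hcs s).continuousAt)).add (LZ.dl ?_)
      by_cases hzN : z ∈ N
      · exact (h2 z ⟨hzN, hzi⟩).cut _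
      · exact lz_of_notMem fun h' => hzN (hsup h')
  · exact ⟨fun _ _ _ h1 h2 => h1.trans h2⟩

/-- tautness for a closed set with a retraction -/
theorem taut [LocallyCompactSpace X] [T2Space X] {n : ℕ} {O A : Set X} (hO : IsOpen O)
    (hA : IsClosed A) {r : X → X} (hr : ∀ a ∈ A, Tendsto r (𝓝 a) (𝓝 a)) {φ : Co X}
    (hφ : Cc (n + 1) O φ) (h1 : ∀ a ∈ A, LZ (pb r φ) a) (h2 : ∀ a ∈ A, LZ (dl φ) a) :
    ∃ ψ, Cc n O ψ ∧ ∀ a ∈ A, LZ (φ + dl ψ) a := by
  obtain ⟨ψ, hψ, -, h3⟩ := localize (A := A) hO (hφ.cpt.inter_right hA)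
    (inter_subset_left.trans hφ.sub) (hφ.deg.pr id r) rfl
    (fun x hx hxK => (lz_of_notMem fun h => hxK ⟨h, hx⟩).pr tendsto_id (hr x hx))
  refine ⟨ψ, hψ, fun a ha => ?_⟩
  have e := dl_pr id r φ
  rw [pb_id] at e
  have := ((h3 a ha).dl_add.add ((h2 a ha).pr tendsto_id (hr a ha))).add (h1 a ha)
  convert this using 1
  have e2 := co_add_self (pb r φ)
  linear_combination -e - e2

/-- transfer relation along a chart -/
def Tr (e : OpenPartialHomeomorph X Y) (φ : Co X) (ψ : Co Y) : Prop :=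
  ∀ x ∈ e.source, LZ (φ + pb e ψ) x

theorem Tr.symm {e : OpenPartialHomeomorph X Y} {φ : Co X} {ψ : Co Y} (h : Tr e φ ψ) :
    Tr e.symm ψ φ := by
  intro y hy
  have h1 := (h _ (e.map_target hy)).pb (e.continuousAt_symm hy)
  rw [pb_add, pb_pb] at h1
  have h2 : LZ (pb (e ∘ e.symm) ψ + pb id ψ) y :=
    lz_pb_congr (by filter_upwards [e.open_target.mem_nhds hy] with z hz using e.right_inv hz)
  rw [pb_id] at h2
  exact (h1.trans h2).symm

theorem Tr.dl {e : OpenPartialHomeomorph X Y} {φ : Co X} {ψ : Co Y} (h : Tr e φ ψ) :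
    Tr e (dl φ) (dl ψ) := fun x hx => by
  rw [← dl_pb]; exact (h x hx).dl_add

theorem Tr.add {e : OpenPartialHomeomorph X Y} {φ φ' : Co X} {ψ ψ' : Co Y} (h : Tr e φ ψ)
    (h' : Tr e φ' ψ') : Tr e (φ + φ') (ψ + ψ') := fun x hx => by
  have := (h x hx).add (h' x hx)
  rw [pb_add]
  convert this using 1
  ring

theorem Tr.null {e : OpenPartialHomeomorph X Y} {φ : Co X} {ψ : Co Y} (h : Tr e φ ψ)
    (hs : supp φ ⊆ e.source) (hn : Null ψ) : Null φ := by
  intro x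
  by_cases hx : x ∈ e.source
  · exact (h x hx).of_add ((hn _).pb (e.continuousAt hx))
  · exact supp_subset_iff.1 hs x hx

theorem exists_tr [LocallyCompactSpace X] [T2Space X] (e : OpenPartialHomeomorph X Y) {n : ℕ}
    {W : Set Y} (hW : IsOpen W) (hWt : W ⊆ e.target) {ψ : Co Y} (h : Cc n W ψ) :
    ∃ φ, Cc n (e.source ∩ e ⁻¹' W) φ ∧ Tr e φ ψ := by
  have hK : IsCompact (e.symm '' supp ψ) :=
    h.cpt.image_of_continuousOn (e.continuousOn_symm.mono (h.sub.trans hWt))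
  obtain ⟨φ, h1, -, h3⟩ := localize (A := e.source) (e.isOpen_inter_preimage hW) hK
    (ψ := pb e ψ) (n := n) (by
      rintro _ ⟨y, hy, rfl⟩
      have hy' := hWt (h.sub hy)
      exact ⟨e.map_target hy', by simpa [e.right_inv hy'] using h.sub hy⟩)
    (h.deg.pb e) h.nil (fun x hx hxK => (lz_of_notMem fun h' =>
      hxK ⟨e x, h', e.left_inv hx⟩).pb (e.continuousAt hx))
  exact ⟨φ, h1, h3⟩

theorem Tr.bd [LocallyCompactSpace X] [T2Space X] {e : OpenPartialHomeomorph X Y} {φ : Co X}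
    {ψ : Co Y} (h : Tr e φ ψ) (hs : supp φ ⊆ e.source) {n : ℕ} {W : Set Y} (hW : IsOpen W)
    (hWt : W ⊆ e.target) (hb : Bd n W ψ) : Bd n (e.source ∩ e ⁻¹' W) φ := by
  obtain ⟨d, hd, hn⟩ := hb
  obtain ⟨d', hd', ht⟩ := exists_tr e hW hWt hd
  refine ⟨d', hd', (h.add ht.dl).null ?_ hn⟩
  exact (supp_add _ _).trans (union_subset hs (hd'.dl.sub.trans inter_subset_left))

theorem exists_tr_zc [LocallyCompactSpace X] [T2Space X] (e : OpenPartialHomeomorph X Y) {n : ℕ}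
    {W : Set Y} (hW : IsOpen W) (hWt : W ⊆ e.target) {ψ : Co Y} (h : Zc n W ψ) :
    ∃ φ, Zc n (e.source ∩ e ⁻¹' W) φ ∧ Tr e φ ψ := by
  obtain ⟨φ, h1, h2⟩ := exists_tr e hW hWt h.toCc
  exact ⟨φ, ⟨h1, h2.dl.null (h1.dl.sub.trans inter_subset_left) h.coc⟩, h2⟩

/-- an open set with the compactly supported cohomology of an open `k`-cell, locally detected -/
structure Good (k : ℕ) (B : Set X) : Prop where
  isOpen : IsOpen B
  conn : IsPreconnected B
  van : ∀ n φ, n ≠ k → Zc (n + 1) B φ → Bd n B φ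
  one : ∀ φ ψ, Zc (k + 1) B φ → Zc (k + 1) B ψ → ¬ Bd k B φ → ¬ Bd k B ψ → Bd k B (φ + ψ)
  loc : ∀ x ∈ B, ∀ W ∈ 𝓝 x, ∃ φ, Zc (k + 1) (W ∩ B) φ ∧ ¬ Bd k B φ

theorem good_empty (k : ℕ) : Good k (∅ : Set X) := by
  have hn : ∀ {n : ℕ} {φ : Co X}, Zc n ∅ φ → Null φ := fun h x => h.lz (notMem_empty x)
  exact ⟨isOpen_empty, isPreconnected_empty, fun n φ _ h => (hn h).bd _ _,
    fun φ ψ h _ h' _ => absurd ((hn h).bd _ _) h', fun x hx => absurd hx (notMem_empty x)⟩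

theorem Good.not_bd {k : ℕ} {B B' : Set X} (hB : Good k B) (hB' : Good k B') (hs : B' ⊆ B)
    {φ : Co X} (h : Zc (k + 1) B' φ) (hn : ¬ Bd k B' φ) : ¬ Bd k B φ := by
  rcases B'.eq_empty_or_nonempty with rfl | ⟨x, hx⟩
  · exact absurd (Null.bd (fun x => h.lz (notMem_empty x)) _ _) hn
  obtain ⟨z, hz, hz'⟩ := hB.loc x (hs hx) B' (hB'.isOpen.mem_nhds hx)
  have := hB'.one φ z h (hz.mono inter_subset_left) hn fun h' => hz' (h'.mono hs)
  exact fun h' => hz' ((this.mono hs).of_add' h')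

theorem Good.transfer [LocallyCompactSpace X] [T2Space X] [LocallyCompactSpace Y] [T2Space Y]
    (e : OpenPartialHomeomorph X Y) {k : ℕ} {W : Set Y} (hW : Good k W) (hWt : W ⊆ e.target) :
    Good k (e.source ∩ e ⁻¹' W) := by
  have hBo : IsOpen (e.source ∩ e ⁻¹' W) := e.isOpen_inter_preimage hW.isOpen
  have heq : e.symm.source ∩ e.symm ⁻¹' (e.source ∩ e ⁻¹' W) = W := by
    ext y
    constructor
    · rintro ⟨hy, -, h2⟩
      simpa [e.right_inv hy] using h2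
    · intro hy
      exact ⟨hWt hy, e.map_target (hWt hy), by simpa [e.right_inv (hWt hy)] using hy⟩
  have hup : ∀ {n : ℕ} {φ : Co X}, Zc n (e.source ∩ e ⁻¹' W) φ → ∃ ψ, Zc n W ψ ∧ Tr e φ ψ := by
    intro n φ h
    obtain ⟨ψ, h1, h2⟩ := exists_tr_zc e.symm hBo inter_subset_left h
    exact ⟨ψ, heq ▸ h1, h2.symm⟩
  have hback : ∀ {n : ℕ} {φ : Co X} {ψ : Co Y}, Tr e φ ψ → supp ψ ⊆ e.target →
      Bd n (e.source ∩ e ⁻¹' W) φ → Bd n W ψ := by
    intro n φ ψ h hs hb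
    have := h.symm.bd hs hBo inter_subset_left hb
    rwa [heq] at this
  refine ⟨hBo, ?_, fun n φ hn h => ?_, fun φ φ' h h' hn hn' => ?_, fun x hx V hV => ?_⟩
  · have : e.source ∩ e ⁻¹' W = e.symm '' W := by
      rw [e.symm_image_eq_source_inter_preimage hWt]
    rw [this]
    exact hW.conn.image _ (e.continuousOn_symm.mono hWt)
  · obtain ⟨ψ, h1, h2⟩ := hup h
    exact h2.bd (h.sub.trans inter_subset_left) hW.isOpen hWt (hW.van n ψ hn h1)
  · obtain ⟨ψ, h1, h2⟩ := hup h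
    obtain ⟨ψ', h1', h2'⟩ := hup h'
    refine (h2.add h2').bd ((h.add h').sub.trans inter_subset_left) hW.isOpen hWt
      (hW.one ψ ψ' h1 h1' ?_ ?_)
    · exact fun hb => hn (h2.bd (h.sub.trans inter_subset_left) hW.isOpen hWt hb)
    · exact fun hb => hn' (h2'.bd (h'.sub.trans inter_subset_left) hW.isOpen hWt hb)
  · have hV' : e.symm ⁻¹' V ∈ 𝓝 (e x) := by
      refine e.continuousAt_symm (e.map_source hx.1) ?_
      rwa [e.left_inv hx.1]
    obtain ⟨ψ, h1, h2⟩ := hW.loc (e x) hx.2 _ (interior_mem_nhds.2 hV')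
    obtain ⟨φ, h3, h4⟩ := exists_tr_zc e (isOpen_interior.inter hW.isOpen)
      (inter_subset_right.trans hWt) h1
    refine ⟨φ, h3.mono ?_, fun hb => h2 (hback h4 (h1.sub.trans (inter_subset_right.trans hWt)) hb)⟩
    rintro y ⟨hy, hy1, hy2⟩
    refine ⟨?_, hy, hy2⟩
    have := interior_subset hy1
    rwa [mem_preimage, e.left_inv hy] at this

theorem Good.iUnion {k : ℕ} {B : ℕ → Set X} (hB : ∀ n, Good k (B n)) (hm : Monotone B) :
    Good k (⋃ n, B n) := by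
  have hc : ∀ {K : Set X}, IsCompact K → K ⊆ ⋃ n, B n → ∃ n, K ⊆ B n := fun hK hs =>
    hK.elim_directed_cover B (fun n => (hB n).isOpen) hs hm.directed_le
  have hzc : ∀ {m : ℕ} {φ : Co X}, Zc m (⋃ n, B n) φ → ∃ n, Zc m (B n) φ := by
    intro m φ h
    obtain ⟨n, hn⟩ := hc h.cpt h.sub
    exact ⟨n, h.toCc.shrink hn, h.coc⟩
  refine ⟨isOpen_iUnion fun n => (hB n).isOpen, ?_, fun m φ hm' h => ?_,
    fun φ ψ h h' hn hn' => ?_, fun x hx W hW => ?_⟩
  · exact IsPreconnected.sUnion_directed (by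
      rintro _ ⟨a, rfl⟩ _ ⟨b, rfl⟩
      exact ⟨B (max a b), ⟨_, rfl⟩, hm (le_max_left _ _), hm (le_max_right _ _)⟩)
      (by rintro _ ⟨a, rfl⟩; exact (hB a).conn)
  · obtain ⟨n, hn⟩ := hzc h
    exact ((hB n).van m φ hm' hn).mono (subset_iUnion B n)
  · obtain ⟨a, ha⟩ := hzc h
    obtain ⟨b, hb⟩ := hzc h'
    exact ((hB (max a b)).one φ ψ (ha.mono (hm (le_max_left _ _)))
      (hb.mono (hm (le_max_right _ _))) (fun h => hn (h.mono (subset_iUnion B _)))
      (fun h => hn' (h.mono (subset_iUnion B _)))).mono (subset_iUnion B _)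
  · obtain ⟨n, hn⟩ := mem_iUnion.1 hx
    obtain ⟨φ, h1, h2⟩ := (hB n).loc x hn W hW
    refine ⟨φ, h1.mono (inter_subset_inter_right _ (subset_iUnion B n)), ?_⟩
    rintro ⟨d, hd, hd'⟩
    obtain ⟨m, hm'⟩ := hc hd.cpt hd.sub
    exact (hB (max n m)).not_bd (hB n) (hm (le_max_left _ _)) (h1.mono inter_subset_right) h2
      ⟨d, hd.shrink (hm'.trans (hm (le_max_right _ _))), hd'⟩

end Pool.Agent.P.MP_a8e993_al
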