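import Pool.Agent.P.MP_a8e993_al.Side

/-! Three half-planes permuted cyclically and one invariant half-plane along a common axis cannot
be coarsely embedded in a simply connected three-manifold. -/

set_option autoImplicit false
set_option linter.unusedSectionVars false

open Set Filter Topology

namespace Pool.Agent.P.MP_a8e993_al

/-- the permutation fixing `0` and cycling `1, 2, 3` -/
def rot : Fin 4 → Fin 4 := ![0, 2, 3, 1]

/-- four half-planes along a common axis -/
structure Config {X : Type*} [TopologicalSpace X] (t : X ≃ₜ X) (f : Fin 4 → HP → X) (R : ℝ) :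
    Prop where
  cont : ∀ i, Continuous (f i)
  proper : ∀ K, IsCompact K → ∃ S, ∀ i z, f i z ∈ K → |z.1| ≤ S ∧ z.2.1 ≤ S
  axis : ∀ i j s, f i (bot 0 s) = f j (bot 0 s)
  equiv : ∀ i z, t (f i z) = f (rot i) (shiftHP z)
  nonneg : 0 ≤ R
  c1 : ∀ i j z w, f i z = f j w → |z.1 - w.1| ≤ R
  c2 : ∀ i z w, f i z = f i w → |z.2.1 - w.2.1| ≤ R
  c3 : ∀ i j z w, i ≠ j → f i z = f j w → z.2.1 ≤ R

theorem isPreconnected_far (T : ℝ) : IsPreconnected {z : HP | T < z.2.1} := by
  have h1 : IsPreconnected ((Subtype.val : Ici (0 : ℝ) → ℝ) ⁻¹' Ioi T) := by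
    rw [← IsInducing.subtypeVal.isPreconnected_image, Subtype.image_preimage_coe]
    exact (ordConnected_Ici.inter ordConnected_Ioi).isPreconnected
  have := (isPreconnected_univ (α := ℝ)).prod h1
  convert this using 1
  ext z
  exact ⟨fun h => ⟨trivial, h⟩, fun h => h.2⟩

theorem isPreconnected_far_union {T : ℝ} (hT : 0 ≤ T) {J : Set ℝ} (hJ : IsPreconnected J)
    (hne : J.Nonempty) : IsPreconnected {z : HP | T < z.2.1 ∨ z.1 ∈ J} := by
  obtain ⟨s, hs⟩ := hne
  have h1 : IsPreconnected (univ : Set (Ici (0 : ℝ))) := by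
    rw [← IsInducing.subtypeVal.isPreconnected_image, Subtype.coe_image_univ]
    exact isPreconnected_Ici
  have := (isPreconnected_far T).union (s, ⟨T + 1, mem_Ici.2 (by linarith)⟩)
    (show T < T + 1 by linarith) (t := J ×ˢ univ) ⟨hs, trivial⟩ (hJ.prod h1)
  convert this using 1
  ext z
  exact ⟨fun h => h.imp id fun h => ⟨h, trivial⟩, fun h => h.imp id fun h => h.1⟩

variable {X : Type*} [TopologicalSpace X] [T2Space X] [LocallyCompactSpace X]
  {t : X ≃ₜ X} {f : Fin 4 → HP → X} {R : ℝ}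

theorem Config.isProperMap (h : Config t f R) (i : Fin 4) : IsProperMap (f i) := by
  refine isProperMap_iff_isCompact_preimage.2 ⟨h.cont i, fun K hK => ?_⟩
  obtain ⟨S, hS⟩ := h.proper K hK
  exact (isCompact_slab (isCompact_Icc (a := -S) (b := S)) S).of_isClosed_subset
    (hK.isClosed.preimage (h.cont i)) fun z hz => ⟨abs_le.1 (hS i z hz).1, (hS i z hz).2⟩

theorem Config.isClosed_image (h : Config t f R) {C : Fin 4 → Set HP} (hC : ∀ i, IsClosed (C i)) :
    IsClosed (⋃ i, f i '' C i) :=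
  isClosed_iUnion_of_finite fun i => (h.isProperMap i).isClosedMap _ (hC i)

theorem Config.isClosed_range (h : Config t f R) (i : Fin 4) : IsClosed (range (f i)) :=
  (h.isProperMap i).isClosedMap.isClosed_range

theorem Config.near (h : Config t f R) {i j : Fin 4} {z w : HP} (e : f i z = f j w)
    (hw : w.2.1 ≤ R) : z.2.1 ≤ 2 * R := by
  by_cases hij : i = j
  · subst hij
    have := abs_le.1 (h.c2 i z w e)
    linarith [this.2]
  · linarith [h.c3 i j z w hij e, h.nonneg]

/-- a neighbourhood of the axis does not separate two of the half-planes -/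
theorem Config.no_sep (hX : Mfd X) [SimplyConnectedSpace X] [LocallyPathConnectedSpace X]
    [NormalSpace X] (h : Config t f R) {χ : X → ZMod 2}
    (hχ : LC χ (⋃ i, f i '' {z | z.2.1 ≤ R})ᶜ) :
    ∃ z : HP, R < z.2.1 ∧ χ (f 0 z) = χ (f 1 z) := by
  have hR := h.nonneg
  let Cge : ℝ → Set X := fun a => ⋃ i, f i '' {z | z.2.1 ≤ R ∧ a ≤ z.1}
  let Cle : ℝ → Set X := fun a => ⋃ i, f i '' {z | z.2.1 ≤ R ∧ z.1 ≤ a}
  have hge : ∀ a, IsClosed (Cge a) := fun a => h.isClosed_image fun _ =>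
    (isClosed_le continuous_ht continuous_const).inter (isClosed_le continuous_const continuous_fst)
  have hle : ∀ a, IsClosed (Cle a) := fun a => h.isClosed_image fun _ =>
    (isClosed_le continuous_ht continuous_const).inter (isClosed_le continuous_fst continuous_const)
  have hcov : ∀ a x, x ∈ (⋃ i, f i '' {z | z.2.1 ≤ R}) → x ∈ Cge a ∨ x ∈ Cle a := by
    intro a x hx
    obtain ⟨i, z, hz, rfl⟩ := mem_iUnion.1 hx
    rcases le_total a z.1 with e | e
    · exact Or.inl (mem_iUnion.2 ⟨i, z, ⟨hz, e⟩, rfl⟩)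
    · exact Or.inr (mem_iUnion.2 ⟨i, z, ⟨hz, e⟩, rfl⟩)
  obtain ⟨E, E', hE, hE', h1, h2, hEE⟩ := normal_separation (hge (R + 1)) (hle 0) (by
    rw [Set.disjoint_left]
    intro x hx hx'
    obtain ⟨i, z, hz, rfl⟩ := mem_iUnion.1 hx
    obtain ⟨j, w, hw, e⟩ := mem_iUnion.1 hx'
    have := abs_le.1 (h.c1 j i w z e)
    linarith [hz.2, hw.2, this.1])
  set a := cut (ind E) (dl (zc χ)) with ha
  have hda : Deg 2 a := (deg_zc χ).dl.cut _
  have ha1 : ∀ x, x ∉ Cge 0 → LZ a x := by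
    intro x hx
    by_cases hC : x ∈ ⋃ i, f i '' {z | z.2.1 ≤ R}
    · refine lz_cut_ind_zero (mem_of_superset (hE'.mem_nhds (h2 ((hcov 0 x hC).resolve_left hx)))
        fun y hy hyE => Set.disjoint_left.1 hEE hyE hy) _
    · exact (lz_dl_zc.2 (hχ x hC)).cut _
  have ha2 : ∀ x, x ∉ Cle (R + 1) → LZ (a + dl (zc χ)) x := by
    intro x hx
    by_cases hC : x ∈ ⋃ i, f i '' {z | z.2.1 ≤ R}
    · exact lz_cut_ind_one (hE.mem_nhds (h1 ((hcov _ x hC).resolve_right hx))) rfl
    · exact ((lz_dl_zc.2 (hχ x hC)).cut _).add (lz_dl_zc.2 (hχ x hC))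
  have hK : IsCompact (⋃ i, f i '' {z : HP | z.1 ∈ Icc 0 (2 * R + 1) ∧ z.2.1 ≤ R}) :=
    isCompact_iUnion fun i => (isCompact_slab isCompact_Icc R).image (h.cont i)
  obtain ⟨b, hb, hb'⟩ := hX.h2 (z₀ := dl a) ⟨cc_of_subset hda.dl rfl hK (by
    refine supp_subset_iff.2 fun x hx => ?_
    by_cases h3 : x ∈ Cge 0
    · by_cases h4 : x ∈ Cle (R + 1)
      · obtain ⟨i, z, hz, rfl⟩ := mem_iUnion.1 h3
        obtain ⟨j, w, hw, e⟩ := mem_iUnion.1 h4
        have := abs_le.1 (h.c1 j i w z e)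
        exact (hx (mem_iUnion.2 ⟨i, z, ⟨⟨hz.2, by linarith [hw.2, this.1]⟩, hz.1⟩, rfl⟩)).elim
      · have := (ha2 x h4).dl
        rwa [dl_add, dl_dl, add_zero] at this
    · exact (ha1 x h3).dl) (subset_univ _), by rw [dl_dl]; exact null_zero⟩
  obtain ⟨φ, hφ⟩ := exists_primitive (hda.add hb.deg) (by rw [dl_add]; exact hb')
  have l1 : LC φ (Cge 0 ∪ supp b)ᶜ := fun x hx => lz_dl_zc.1 ((hφ x).of_add'
    ((ha1 x fun h' => hx (Or.inl h')).add (lz_of_notMem fun h' => hx (Or.inr h'))))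
  have l2 : LC (φ + χ) (Cle (R + 1) ∪ supp b)ᶜ := fun x hx => lz_dl_zc.1 (by
    have := ((hφ x).add (ha2 x fun h' => hx (Or.inl h'))).add
      (lz_of_notMem (φ := b) fun h' => hx (Or.inr h'))
    rw [zc_add, dl_add]
    convert this using 1
    have e1 := co_add_self a
    have e2 := co_add_self b
    linear_combination -e1 - e2)
  obtain ⟨S, hS⟩ := h.proper _ hb.cpt
  obtain ⟨T, hT1, hT2⟩ : ∃ T, S ≤ T ∧ 2 * R + 1 ≤ T := ⟨_, le_max_left _ _, le_max_right _ _⟩
  have hT : 0 ≤ T := by linarith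
  let P : HP := (0, ⟨T + 1, mem_Ici.2 (by linarith)⟩)
  have hP : T < P.2.1 := show T < T + 1 by linarith
  have e1 : ∀ i, φ (f i P) = φ (f i (bot 0 (-T - 1))) := fun i =>
    l1.eq_of_preconnected (h.cont i)
      (isPreconnected_far_union hT (isPreconnected_Iio (a := -T)) nonempty_Iio) (by
        rintro z hz (hx | hx)
        · obtain ⟨j, w, hw, e⟩ := mem_iUnion.1 hx
          have g1 := h.near e.symm hw.1
          have g2 := abs_le.1 (h.c1 j i w z e)
          rcases hz with hz | hz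
          · linarith
          · linarith [mem_Iio.1 hz, hw.2, g2.2]
        · obtain ⟨g1, g2⟩ := hS i z hx
          rcases hz with hz | hz
          · linarith
          · linarith [mem_Iio.1 hz, (abs_le.1 g1).1])
      (Or.inl hP) (Or.inr (show -T - 1 < -T by linarith))
  have e2 : ∀ i, (φ + χ) (f i P) = (φ + χ) (f i (bot 0 (T + 1))) := fun i =>
    l2.eq_of_preconnected (h.cont i)
      (isPreconnected_far_union hT (isPreconnected_Ioi (a := T)) nonempty_Ioi) (by
        rintro z hz (hx | hx)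
        · obtain ⟨j, w, hw, e⟩ := mem_iUnion.1 hx
          have g1 := h.near e.symm hw.1
          have g2 := abs_le.1 (h.c1 j i w z e)
          rcases hz with hz | hz
          · linarith
          · linarith [mem_Ioi.1 hz, hw.2, g2.1]
        · obtain ⟨g1, g2⟩ := hS i z hx
          rcases hz with hz | hz
          · linarith
          · linarith [mem_Ioi.1 hz, (abs_le.1 g1).2])
      (Or.inl hP) (Or.inr (show T < T + 1 by linarith))
  refine ⟨P, by linarith, ?_⟩
  have g1 := e1 0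
  have g2 := e1 1
  have g3 := e2 0
  have g4 := e2 1
  rw [h.axis 0 1] at g1 g3
  simp only [Pi.add_apply] at g3 g4
  linear_combination g3 - g4 - g1 + g2

/-- the model map of the `i`-th half-plane to the plane -/
def fold (i : Fin 4) (z : HP) : ℝ × ℝ := (z.1, if i = 1 then z.2.1 else -z.2.1)

theorem continuous_fold (i : Fin 4) : Continuous (fold i) := by
  unfold fold
  split_ifs
  · exact continuous_fst.prodMk continuous_ht
  · exact continuous_fst.prodMk continuous_ht.neg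

theorem Config.exists_proj [NormalSpace X] [ParacompactSpace X] (h : Config t f R) :
    ∃ ρ : C(X, ℝ × ℝ), ∀ i z, dist (ρ (f i z)) (fold i z) ≤ 2 * R + 1 := by
  have hR := h.nonneg
  obtain ⟨ρ, hρ⟩ := exists_continuous_forall_mem_convex_of_local_const
    (t := fun y : X => ⋂ i, ⋂ z, ⋂ (_ : f i z = y), Metric.closedBall (fold i z) (2 * R + 1))
    (fun y => convex_iInter fun i => convex_iInter fun z => convex_iInter fun _ =>
      convex_closedBall _ _) (fun q => by
      obtain ⟨c, hc⟩ : ∃ c : ℝ × ℝ, ∀ j w, f j w = q → dist c (fold j w) < 2 * R + 1 := by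
        by_cases hq : ∃ i z, f i z = q
        · obtain ⟨i, z, rfl⟩ := hq
          refine ⟨fold i z, fun j w e => ?_⟩
          have g1 := h.c1 i j z w e.symm
          have g2 : |(fold i z).2 - (fold j w).2| ≤ 2 * R := by
            by_cases hij : i = j
            · subst hij
              have := abs_le.1 (h.c2 i z w e.symm)
              simp only [fold]
              split_ifs <;> rw [abs_le] <;> constructor <;> linarith [this.1, this.2]
            · have g3 := h.c3 i j z w hij e.symm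
              have g4 := h.c3 j i w z (Ne.symm hij) e
              have g5 : 0 ≤ z.2.1 := z.2.2
              have g6 : 0 ≤ w.2.1 := w.2.2
              simp only [fold]
              split_ifs <;> rw [abs_le] <;> constructor <;> linarith
          rw [Prod.dist_eq, Real.dist_eq, Real.dist_eq]
          exact max_lt (lt_of_le_of_lt g1 (by linarith)) (by linarith)
        · exact ⟨0, fun j w e => (hq ⟨j, w, e⟩).elim⟩
      have hD := h.isClosed_image (C := fun j => {w | 2 * R + 1 ≤ dist c (fold j w)})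
        fun j => isClosed_le continuous_const (continuous_const.dist (continuous_fold j))
      refine ⟨c, ?_⟩
      filter_upwards [hD.isOpen_compl.mem_nhds (x := q) (by
        intro hq
        obtain ⟨j, w, hw, e⟩ := mem_iUnion.1 hq
        exact absurd (hc j w e) (not_lt.2 hw))] with y hy
      simp only [mem_iInter, Metric.mem_closedBall]
      intro i z e
      by_contra hlt
      exact hy (mem_iUnion.2 ⟨i, z, (not_le.1 hlt).le, e⟩))
  refine ⟨ρ, fun i z => ?_⟩
  have := hρ (f i z)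
  simp only [mem_iInter, Metric.mem_closedBall] at this
  exact this i z rfl

/-- a plane made of two half-planes is not the sum of classes carried by each of them -/
theorem Config.no_split (hX : Mfd X) [PreconnectedSpace X] [NormalSpace X] [ParacompactSpace X]
    (h : Config t f R) {σ χ₁ χ₂ : X → ZMod 2} (hσ : LC σ (⋃ i, range (f i))ᶜ)
    (hrep : ∀ v, Cc 3 univ v → supp (dl v) ⊆ (⋃ i, range (f i))ᶜ →
      ev (f 1) (f 2) v = pair σ (dl v))
    (h₁ : LC χ₁ (range (f 1) ∪ ⋃ i, f i '' {z | z.2.1 ≤ R})ᶜ)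
    (h₂ : LC χ₂ (range (f 2) ∪ ⋃ i, f i '' {z | z.2.1 ≤ R})ᶜ)
    (hs : ∀ x ∈ (⋃ i, range (f i))ᶜ, (σ + χ₁ + χ₂) x = 0) : False := by
  have hR := h.nonneg
  obtain ⟨ρ, hρ⟩ := h.exists_proj
  have hρ2 : ∀ i z, |(ρ (f i z)).2 - (fold i z).2| ≤ 2 * R + 1 := fun i z =>
    (le_max_right _ _).trans (hρ i z)
  set A := ⋃ i, range (f i) with hA
  have hAo : IsOpen Aᶜ := (isClosed_iUnion_of_finite h.isClosed_range).isOpen_compl
  have hCA : ∀ j, range (f j) ∪ ⋃ i, f i '' {z | z.2.1 ≤ R} ⊆ A := fun j =>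
    union_subset (subset_iUnion (fun i => range (f i)) j)
      (iUnion_mono fun i => image_subset_range _ _)
  obtain ⟨w, hw, hw'⟩ := good_plane.loc (0, 3 * R + 3) trivial {p | 3 * R + 2 < p.2}
    ((isOpen_lt continuous_const continuous_snd).mem_nhds (show 3 * R + 2 < 3 * R + 3 by linarith))
  obtain ⟨w₁, hw₁, hw₁'⟩ := good_plane.loc (0, -(3 * R + 3)) trivial {p | p.2 < -(3 * R + 2)}
    ((isOpen_lt continuous_snd continuous_const).mem_nhds
      (show -(3 * R + 3) < -(3 * R + 2) by linarith))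
  obtain ⟨e, he, he'⟩ := good_plane.one w w₁ (hw.mono (subset_univ _)) (hw₁.mono (subset_univ _))
    hw' hw₁'
  have hbd : ∀ L : Set (ℝ × ℝ), IsCompact L → ∃ M, ∀ i z p, p ∈ L →
      dist p (fold i z) ≤ 2 * R + 1 → z.1 ∈ Icc (-M) M ∧ z.2.1 ≤ M := by
    intro L hL
    obtain ⟨M, hM⟩ := hL.isBounded.exists_norm_le
    refine ⟨M + (2 * R + 1), fun i z p hp hd => ?_⟩
    have g : ‖fold i z‖ ≤ M + (2 * R + 1) := by
      have := norm_le_norm_add_norm_sub' (fold i z) p
      rw [← dist_eq_norm, dist_comm] at this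
      linarith [hM p hp]
    have g1 : |z.1| ≤ _ := (norm_fst_le (fold i z)).trans g
    have g2 : |(fold i z).2| ≤ _ := (norm_snd_le (fold i z)).trans g
    refine ⟨abs_le.1 g1, ?_⟩
    simp only [fold] at g2
    split_ifs at g2 <;> linarith [abs_le.1 g2]
  have hloc : ∀ {n : ℕ} {u : Co (ℝ × ℝ)}, Cc n univ u →
      ∃ v, Cc n univ v ∧ ∀ x ∈ A, LZ (v + pb ρ u) x := by
    intro n u hu
    obtain ⟨M, hM⟩ := hbd _ hu.cpt
    obtain ⟨v, h1, -, h3⟩ := localize (A := A) isOpen_univ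
      (isCompact_iUnion fun i => (isCompact_slab (isCompact_Icc (a := -M) (b := M)) M).image
        (h.cont i)) (subset_univ _) (hu.deg.pb ρ) hu.nil (fun x hx hxK => by
        obtain ⟨i, z, rfl⟩ := mem_iUnion.1 hx
        exact (lz_of_notMem fun h' => hxK (mem_iUnion.2 ⟨i, z, hM i z _ h' (hρ i z), rfl⟩)).pb
          ρ.continuous.continuousAt)
    exact ⟨v, h1, h3⟩
  obtain ⟨v, hv, hv'⟩ := hloc (hw.toCc.mono (subset_univ _))
  obtain ⟨e', hE, hE'⟩ := hloc he
  have hdv : supp (dl v) ⊆ Aᶜ := supp_subset_iff.2 fun x hx => by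
    refine (hv' x (not_not.1 hx)).dl_add.of_add ?_
    rw [dl_pb]
    exact (hw.coc _).pb ρ.continuous.continuousAt
  have hz : Zc 4 Aᶜ (dl v) := ⟨hv.dl.shrink hdv, hv.zc_dl.coc⟩
  have l₁ : LC χ₁ Aᶜ := h₁.mono (compl_subset_compl.2 (hCA 1))
  have l₂ : LC χ₂ Aᶜ := h₂.mono (compl_subset_compl.2 (hCA 2))
  have p0 := pair_zero hAo hs hdv
  rw [hX.add_pair (hσ.add l₁) l₂ hz, hX.add_pair hσ l₁ hz] at p0
  have hup : ∀ x ∈ range (f 2) ∪ ⋃ i, f i '' {z | z.2.1 ≤ R}, LZ v x := by
    intro x hx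
    refine (hv' x (hCA 2 hx)).of_add ((lz_of_notMem fun h' => ?_).pb ρ.continuous.continuousAt)
    have g := (hw.sub h').1
    simp only [mem_ofPred_eq] at g
    rcases hx with ⟨z, rfl⟩ | hx
    · have g1 := abs_le.1 (hρ2 2 z)
      have g2 : 0 ≤ z.2.1 := z.2.2
      simp only [fold] at g1
      rw [if_neg (by decide)] at g1
      linarith [g1.2]
    · obtain ⟨i, z, hz, rfl⟩ := mem_iUnion.1 hx
      have g1 := abs_le.1 (hρ2 i z)
      have g2 : 0 ≤ z.2.1 := z.2.2
      simp only [fold, mem_ofPred_eq] at g1 hz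
      split_ifs at g1 <;> linarith [g1.2]
  have hdown : ∀ x ∈ range (f 1) ∪ ⋃ i, f i '' {z | z.2.1 ≤ R}, LZ (v + dl e') x := by
    intro x hx
    have g0 : LZ (pb ρ w₁) x := by
      refine (lz_of_notMem fun h' => ?_).pb ρ.continuous.continuousAt
      have g := (hw₁.sub h').1
      simp only [mem_ofPred_eq] at g
      rcases hx with ⟨z, rfl⟩ | hx
      · have g1 := abs_le.1 (hρ2 1 z)
        have g2 : 0 ≤ z.2.1 := z.2.2
        simp only [fold, if_true] at g1
        linarith [g1.1]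
      · obtain ⟨i, z, hz, rfl⟩ := mem_iUnion.1 hx
        have g1 := abs_le.1 (hρ2 i z)
        have g2 : 0 ≤ z.2.1 := z.2.2
        simp only [fold, mem_ofPred_eq] at g1 hz
        split_ifs at g1 <;> linarith [g1.1]
    have := (((hv' x (hCA 1 hx)).add (hE' x (hCA 1 hx)).dl_add).add
      (he'.pb ρ.continuous x)).add g0
    rw [pb_add, pb_add, ← dl_pb] at this
    convert this using 1
    have e1 := co_add_self (pb ρ w)
    have e2 := co_add_self (pb ρ w₁)
    have e3 := co_add_self (dl (pb ρ e))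
    linear_combination -e1 - e2 - e3
  rw [pair_bd h₂ (hv.shrink (supp_subset_iff.2 fun x hx => hup x (not_not.1 hx))).bd_dl,
    pair_bd h₁ (z := dl v) ⟨v + dl e', (hv.add hE.dl).shrink
      (supp_subset_iff.2 fun x hx => hdown x (not_not.1 hx)), by
        rw [dl_add, dl_dl, add_zero]; exact null_refl _⟩, add_zero, add_zero,
    ← hrep v hv hdv] at p0
  obtain ⟨b, hb⟩ := exists_prim (h.isProperMap 1) hv
    fun z hz => hdv hz (mem_iUnion.2 ⟨1, z, rfl⟩)
  rw [ev_eq hb (prim_zero (h.cont 2) fun z hz => hz (hup _ (Or.inl ⟨z, rfl⟩))), pb_zero, add_zero,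
    nb_eq_zero] at p0
  let H : HP → unitInterval → ℝ × ℝ := fun z u => (1 - (u : ℝ)) • ρ (f 1 z) + (u : ℝ) • fold 1 z
  have hc : Continuous fun q : HP × unitInterval => H q.1 q.2 := by
    have g1 : Continuous fun q : HP × unitInterval => ρ (f 1 q.1) :=
      ρ.continuous.comp ((h.cont 1).comp continuous_fst)
    have g2 : Continuous fun q : HP × unitInterval => fold 1 q.1 := (continuous_fold 1).comp continuous_fst
    have g3 : Continuous fun q : HP × unitInterval => (q.2 : ℝ) := continuous_subtype_val.comp continuous_snd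
    exact ((continuous_const.sub g3).smul g1).add (g3.smul g2)
  have hH : ∀ z u, dist (H z u) (fold 1 z) ≤ 2 * R + 1 := fun z u =>
    convex_closedBall (fold 1 z) (2 * R + 1) (hρ 1 z) (Metric.mem_closedBall_self (by linarith))
      (sub_nonneg.2 u.2.2) u.2.1 (by ring)
  obtain ⟨M, hM⟩ := hbd _ hw.cpt
  obtain ⟨ψ, hψ, hψ'⟩ := homotopy_bd hc hw.deg hw.coc
    ((isCompact_slab (isCompact_Icc (a := -M) (b := M)) M).inter_right
      (isClosed_le continuous_const continuous_ht : IsClosed {z : HP | 1 ≤ z.2.1}))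
    (isOpen_cyl' isOpen_univ isOpen_univ)
    (fun z hz => ⟨trivial, lt_of_lt_of_le one_pos hz.2, trivial⟩) (fun z u hz => by
      refine lz_of_notMem fun h' => hz ⟨hM 1 z _ h' (hH z u), ?_⟩
      have g := (hw.sub h').1
      have g1 : |(H z u).2 - (fold 1 z).2| ≤ 2 * R + 1 := (le_max_right _ _).trans (hH z u)
      simp only [fold, if_true, mem_ofPred_eq] at g g1 ⊢
      linarith [(abs_le.1 g1).2])
  have H0 : (fun z => H z 0) = ρ ∘ f 1 := by funext z; simp [H]
  have H1 : (fun z => H z 1) = fold 1 := by funext z; simp [H]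
  rw [H0, H1] at hψ'
  have hsw : supp (pb (fold 1) w) ⊆ cyl' 0 univ univ := by
    intro z hz
    have g := (hw.sub (supp_pb (continuous_fold 1) w hz)).1
    simp only [fold, if_true, mem_ofPred_eq] at g
    exact ⟨trivial, by linarith, trivial⟩
  have hfin := susp_bd isOpen_univ isOpen_univ (mem_univ (0 : ℝ)) (b := b + ψ)
    (w := pb (fold 1) w) (by rw [cyl_univ]; exact hb.1.add (hψ.mono (subset_univ _))) (fun z => by
      have g1 := LZ.pb (g := f 1) (hv' _ (mem_iUnion.2 ⟨1, z, rfl⟩)) (h.cont 1).continuousAt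
      rw [pb_add, pb_pb] at g1
      have := (g1.add (hb.2 z)).add (hψ' z)
      rw [dl_add]
      convert this using 1
      have e1 := co_add_self (pb (f 1) v)
      have e2 := co_add_self (pb (ρ ∘ f 1) w)
      linear_combination -e1 - e2) hsw
    (by rw [pb_add]; exact p0.add ((null_pb_bot hψ.sub).bd _ _))
  have htr : Tr (halfChart ℝ 0) w (pb (fold 1) w) := by
    intro p hp
    rw [pb_pb]
    have : LZ (pb id w + pb (fold 1 ∘ halfChart ℝ 0) w) p := lz_pb_congr (by
      filter_upwards [(halfChart ℝ 0).open_source.mem_nhds hp] with q hq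
      exact ((halfChart ℝ 0).left_inv hq).symm)
    rwa [pb_id] at this
  refine hw' ((htr.bd (fun p hp => ?_) (isOpen_cyl' isOpen_univ isOpen_univ)
    (fun z hz => hz.2.1) hfin).mono (subset_univ _))
  have g := (hw.sub hp).1
  simp only [mem_ofPred_eq] at g
  show (0 : ℝ) < p.2
  linarith

theorem lc_ind {S : Set X} {x : X} (h : (∀ᶠ y in 𝓝 x, y ∉ S) ∨ ∀ᶠ y in 𝓝 x, (y ∈ S ↔ x ∈ S)) :
    ∀ᶠ y in 𝓝 x, ind S y = ind S x := by
  rcases h with h | h
  · filter_upwards [h] with y hy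
    rw [ind_of_notMem hy, ind_of_notMem h.self_of_nhds]
  · filter_upwards [h] with y hy
    by_cases hx : x ∈ S
    · rw [ind_of_mem hx, ind_of_mem (hy.2 hx)]
    · rw [ind_of_notMem hx, ind_of_notMem fun h' => hx (hy.1 h')]

theorem Config.false (hX : Mfd X) [SimplyConnectedSpace X] [LocallyPathConnectedSpace X]
    [NormalSpace X] [ParacompactSpace X] (h : Config t f R) : False := by
  have hR := h.nonneg
  let O : Fin 4 → Set X := fun i => (range (f (rot i)) ∪ range (f (rot (rot i))))ᶜ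
  have hO : ∀ i, IsOpen (O i) := fun i =>
    ((h.isClosed_range _).union (h.isClosed_range _)).isOpen_compl
  have hfar : ∀ i j, j ≠ rot i → j ≠ rot (rot i) → ∀ z : HP, R < z.2.1 → f j z ∈ O i := by
    rintro i j h1 h2 z hz (⟨w, e⟩ | ⟨w, e⟩)
    · exact absurd (h.c3 _ _ _ _ h1 e.symm) (not_le.2 hz)
    · exact absurd (h.c3 _ _ _ _ h2 e.symm) (not_le.2 hz)
  have r1 : ∀ i : Fin 4, i ≠ 0 → (0 : Fin 4) ≠ rot i ∧ (0 : Fin 4) ≠ rot (rot i) ∧ i ≠ rot i ∧
      i ≠ rot (rot i) ∧ rot i ≠ 0 := by decide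
  have hprim : ∀ i v, Cc 3 univ v → supp (dl v) ⊆ O i →
      (∃ b, Prim (f (rot i)) v b) ∧ ∃ b, Prim (f (rot (rot i))) v b := fun i v hv hs =>
    ⟨exists_prim (h.isProperMap _) hv fun z hz => hs hz (Or.inl ⟨z, rfl⟩),
      exists_prim (h.isProperMap _) hv fun z hz => hs hz (Or.inr ⟨z, rfl⟩)⟩
  let P : HP := (0, ⟨R + 1, mem_Ici.2 (by linarith)⟩)
  have hP : R < P.2.1 := show R < R + 1 by linarith
  have hP' : R < (shiftHP P).2.1 := hP
  have hex : ∀ i : Fin 4, ∃ σ : X → ZMod 2, i ≠ 0 → LC σ (O i) ∧ σ (f 0 P) = 0 ∧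
      ∀ v, Cc 3 univ v → supp (dl v) ⊆ O i →
        ev (f (rot i)) (f (rot (rot i))) v = pair σ (dl v) := by
    intro i
    by_cases hi : i = 0
    · exact ⟨0, fun h => (h hi).elim⟩
    obtain ⟨σ, hσ⟩ := hX.exists_rep (hO i) (ev (f (rot i)) (f (rot (rot i))))
      (fun v v' h1 h2 h3 h4 => ev_add (h.axis _ _) (hprim i v h1 h2).1 (hprim i v h1 h2).2
        (hprim i v' h3 h4).1 (hprim i v' h3 h4).2)
      (fun v hv => ev_cocycle hX (h.isProperMap _) (h.isProperMap _) (h.axis _ _) hv)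
      (fun v hv => by
        rw [ev_eq (prim_zero (h.cont _) fun z hz => hv.sub hz (Or.inl ⟨z, rfl⟩))
          (prim_zero (h.cont _) fun z hz => hv.sub hz (Or.inr ⟨z, rfl⟩)), co_add_self]
        exact nb_eq_zero.2 (null_zero.bd _ _))
      (hfar i 0 (r1 i hi).1 (r1 i hi).2.1 P hP)
    exact ⟨σ, fun _ => hσ⟩
  choose σ hσ using hex
  have hconst : ∀ i, i ≠ 0 → ∀ j, j ≠ rot i → j ≠ rot (rot i) → ∀ z w : HP, R < z.2.1 →
      R < w.2.1 → σ i (f j z) = σ i (f j w) := fun i hi j h1 h2 z w hz hw =>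
    (hσ i hi).1.eq_of_preconnected (h.cont j) (isPreconnected_far R) (hfar i j h1 h2) hz hw
  have hzero : ∀ i, i ≠ 0 → ∀ z : HP, R < z.2.1 → σ i (f 0 z) = 0 := fun i hi z hz => by
    rw [hconst i hi 0 (r1 i hi).1 (r1 i hi).2.1 z P hz hP, (hσ i hi).2.1]
  have htO : ∀ i x, x ∈ O i ↔ t x ∈ O (rot i) := by
    have : ∀ j x, x ∈ range (f j) ↔ t x ∈ range (f (rot j)) := by
      intro j x
      constructor
      · rintro ⟨z, rfl⟩
        exact ⟨_, (h.equiv j z).symm⟩
      · rintro ⟨w, e⟩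
        refine ⟨shiftHP.symm w, t.injective ?_⟩
        rw [h.equiv, Homeomorph.apply_symm_apply, e]
    intro i x
    simp only [O, mem_compl_iff, mem_union, this (rot i) x, this (rot (rot i)) x]
  have hequiv : ∀ i, i ≠ 0 → ∀ x ∈ O i, σ (rot i) (t x) = σ i x := by
    intro i hi x hx
    have hi' := (r1 i hi).2.2.2.2
    have hl : LC (σ (rot i) ∘ t) (O i) := fun y hy =>
      t.continuous.continuousAt.eventually ((hσ _ hi').1 _ ((htO i y).1 hy))
    have := hX.const_of_pair (hO i) (hl.add (hσ i hi).1) (fun v hv hs => by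
      have hv' := hv.homeo t.symm
      have hs' : supp (dl (pb t.symm v)) ⊆ O (rot i) := by
        rw [dl_pb]
        intro y hy
        have := (htO i _).1 (hs (supp_pb t.symm.continuous _ hy))
        rwa [Homeomorph.apply_symm_apply] at this
      have e1 := ev_equiv t (h.equiv (rot i)) (h.equiv (rot (rot i))) (hprim _ _ hv' hs').1
        (hprim _ _ hv' hs').2
      rw [pb_pb_symm, (hσ i hi).2.2 v hv hs, (hσ _ hi').2.2 _ hv' hs'] at e1
      have e2 : pair (σ (rot i)) (dl (pb t.symm v)) = pair (σ (rot i) ∘ t) (dl v) := by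
        unfold pair
        rw [← nb_homeo t, pb_cut, dl_pb, pb_pb_symm]
      rw [hX.add_pair hl (hσ i hi).1 ⟨hv.dl.shrink hs, hv.zc_dl.coc⟩, e1, e2, add_self2]) hx
      (hfar i 0 (r1 i hi).1 (r1 i hi).2.1 P hP)
    simp only [Pi.add_apply, Function.comp] at this
    rw [h.equiv 0 P, show rot 0 = 0 from rfl, hzero _ hi' _ hP', (hσ i hi).2.1] at this
    have e := add_self2 (σ i x)
    linear_combination this - e
  have hα : ∀ i, i ≠ 0 → ∀ z : HP, R < z.2.1 → σ i (f i z) = σ 1 (f 1 P) := by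
    have step : ∀ i, i ≠ 0 → ∀ z : HP, R < z.2.1 → σ (rot i) (f (rot i) z) = σ i (f i P) := by
      intro i hi z hz
      have hi' := (r1 i hi).2.2.2.2
      rw [← hequiv i hi _ (hfar i i (r1 i hi).2.2.1 (r1 i hi).2.2.2.1 P hP), h.equiv]
      exact hconst _ hi' _ (r1 _ hi').2.2.1 (r1 _ hi').2.2.2.1 _ _ hz hP'
    intro i hi z hz
    have c : i = 1 ∨ i = rot 1 ∨ i = rot (rot 1) := by revert i; decide
    rcases c with rfl | rfl | rfl
    · exact hconst 1 hi 1 (by decide) (by decide) _ _ hz hP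
    · exact step 1 (by decide) z hz
    · rw [step _ (by decide) z hz, step 1 (by decide) P hP]
  let U : Set X := O 1 ∩ O 2 ∩ O 3
  have hU : IsOpen U := ((hO 1).inter (hO 2)).inter (hO 3)
  have l1 : LC (σ 1) U := (hσ 1 (by decide)).1.mono fun x hx => hx.1.1
  have l2 : LC (σ 2) U := (hσ 2 (by decide)).1.mono fun x hx => hx.1.2
  have l3 : LC (σ 3) U := (hσ 3 (by decide)).1.mono fun x hx => hx.2
  have hU0 : ∀ z : HP, R < z.2.1 → f 0 z ∈ U := fun z hz =>
    ⟨⟨hfar 1 0 (by decide) (by decide) z hz, hfar 2 0 (by decide) (by decide) z hz⟩,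
      hfar 3 0 (by decide) (by decide) z hz⟩
  have hsum : ∀ x ∈ U, σ 1 x + σ 2 x + σ 3 x = 0 := by
    intro x hx
    have := hX.const_of_pair hU ((l1.add l2).add l3) (fun v hv hs => by
      have hz : Zc 4 U (dl v) := ⟨hv.dl.shrink hs, hv.zc_dl.coc⟩
      have s1 : supp (dl v) ⊆ O 1 := fun y hy => (hs hy).1.1
      have s2 : supp (dl v) ⊆ O 2 := fun y hy => (hs hy).1.2
      have s3 : supp (dl v) ⊆ O 3 := fun y hy => (hs hy).2
      rw [hX.add_pair (l1.add l2) l3 hz, hX.add_pair l1 l2 hz, ← (hσ 1 (by decide)).2.2 v hv s1,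
        ← (hσ 2 (by decide)).2.2 v hv s2, ← (hσ 3 (by decide)).2.2 v hv s3]
      exact ev_cyc (h.axis 2 3) (h.axis 3 1) (hprim 1 v hv s1).1 (hprim 1 v hv s1).2
        (hprim 2 v hv s2).2) hx (hU0 P hP)
    simpa [hzero 1 (by decide) P hP, hzero 2 (by decide) P hP, hzero 3 (by decide) P hP] using this
  have hcase : ∀ x, x ∉ (⋃ i, f i '' {z : HP | z.2.1 ≤ R}) → x ∈ U ∨
      ∃ i, i ≠ 0 ∧ x ∈ range (f i) ∧ ∀ᶠ y in 𝓝 x, σ i y = σ 1 (f 1 P) := by
    intro x hx
    by_cases hxU : x ∈ U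
    · exact Or.inl hxU
    obtain ⟨i, hi, z, rfl⟩ : ∃ i, i ≠ 0 ∧ x ∈ range (f i) := by
      by_contra hne
      push Not at hne
      refine hxU ⟨⟨?_, ?_⟩, ?_⟩ <;> rintro (h' | h') <;> exact hne _ (by decide) h'
    have hz : R < z.2.1 := not_le.1 fun hz => hx (mem_iUnion.2 ⟨i, z, hz, rfl⟩)
    refine Or.inr ⟨i, hi, ⟨z, rfl⟩, ?_⟩
    rw [← hα i hi z hz]
    exact (hσ i hi).1 _ (hfar i i (r1 i hi).2.2.1 (r1 i hi).2.2.2.1 z hz)
  have hin : ∀ (a b c : ZMod 2 → Prop) x, x ∈ U → ∀ᶠ y in 𝓝 x,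
      (y ∈ {y | y ∈ U ∧ a (σ 1 y) ∧ b (σ 2 y) ∧ c (σ 3 y)} ↔
        x ∈ {y | y ∈ U ∧ a (σ 1 y) ∧ b (σ 2 y) ∧ c (σ 3 y)}) := by
    intro a b c x hx
    filter_upwards [hU.mem_nhds hx, l1 x hx, l2 x hx, l3 x hx] with y h0 h1 h2 h3
    simp only [h0, hx, h1, h2, h3]
  have c4 : ∀ i : Fin 4, i ≠ 0 → i = 1 ∨ i = 2 ∨ i = 3 := by decide
  rcases zmod2_cases (σ 1 (f 1 P)) with hα0 | hα1
  · rw [hα0] at hcase
    have hA : (⋃ i, range (f i))ᶜ ⊆ U := fun x hx => by
      refine ⟨⟨?_, ?_⟩, ?_⟩ <;> rintro (h' | h') <;> exact hx (mem_iUnion.2 ⟨_, h'⟩)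
    refine h.no_split hX (l3.mono hA)
      (χ₁ := ind {y | y ∈ U ∧ True ∧ σ 2 y = 1 ∧ σ 3 y = 1})
      (χ₂ := ind {y | y ∈ U ∧ σ 1 y = 1 ∧ True ∧ σ 3 y = 1})
      (fun v hv hs => (hσ 3 (by decide)).2.2 v hv fun y hy => (hA (hs hy)).2)
      (fun x hx => lc_ind ?_) (fun x hx => lc_ind ?_) (fun x hx => ?_)
    · rcases hcase x (fun h' => hx (Or.inr h')) with hxU | ⟨i, hi, hr, he⟩
      · exact Or.inr (hin (fun _ => True) (· = 1) (· = 1) x hxU)
      · rcases c4 i hi with rfl | rfl | rfl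
        · exact (hx (Or.inl hr)).elim
        · exact Or.inl (he.mono fun y hy hS => by simp [hS.2.2.1] at hy)
        · exact Or.inl (he.mono fun y hy hS => by simp [hS.2.2.2] at hy)
    · rcases hcase x (fun h' => hx (Or.inr h')) with hxU | ⟨i, hi, hr, he⟩
      · exact Or.inr (hin (· = 1) (fun _ => True) (· = 1) x hxU)
      · rcases c4 i hi with rfl | rfl | rfl
        · exact Or.inl (he.mono fun y hy hS => by simp [hS.2.1] at hy)
        · exact (hx (Or.inl hr)).elim
        · exact Or.inl (he.mono fun y hy hS => by simp [hS.2.2.2] at hy)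
    · have hxU := hA hx
      have := hsum x hxU
      simp only [Pi.add_apply, ind, mem_ofPred_eq, hxU, true_and]
      revert this
      generalize σ 1 x = a
      generalize σ 2 x = b
      generalize σ 3 x = c
      rcases zmod2_cases a with rfl | rfl <;> rcases zmod2_cases b with rfl | rfl <;>
        rcases zmod2_cases c with rfl | rfl <;> simp
  · rw [hα1] at hcase hα
    obtain ⟨z, hz, e⟩ := h.no_sep hX (χ := ind {y | y ∈ U ∧ σ 1 y = 0 ∧ σ 2 y = 0 ∧ σ 3 y = 0})
      (fun x hx => lc_ind (by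
        rcases hcase x hx with hxU | ⟨i, hi, hr, he⟩
        · exact Or.inr (hin (· = 0) (· = 0) (· = 0) x hxU)
        · rcases c4 i hi with rfl | rfl | rfl
          · exact Or.inl (he.mono fun y hy hS => by simp [hS.2.1] at hy)
          · exact Or.inl (he.mono fun y hy hS => by simp [hS.2.2.1] at hy)
          · exact Or.inl (he.mono fun y hy hS => by simp [hS.2.2.2] at hy)))
    rw [ind_of_mem (S := {y | y ∈ U ∧ σ 1 y = 0 ∧ σ 2 y = 0 ∧ σ 3 y = 0})
      ⟨hU0 z hz, hzero 1 (by decide) z hz, hzero 2 (by decide) z hz, hzero 3 (by decide) z hz⟩,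
      ind_of_notMem fun hS => by simpa [hS.2.1] using hα 1 (by decide) z hz] at e
    exact one_ne_zero e

end Pool.Agent.P.MP_a8e993_al
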