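import Pool.Agent.P.MP_a8e993_al.Duality

/-! Side functions of properly mapped planes made of two half-planes. -/

set_option autoImplicit false
set_option linter.unusedSectionVars false

open Set Filter Topology

namespace Pool.Agent.P.MP_a8e993_al

section Homeo

variable {X Y : Type*} [TopologicalSpace X] [TopologicalSpace Y]

theorem Cc.homeo {n : ℕ} {φ : Co Y} (h : Cc n univ φ) (e : X ≃ₜ Y) :
    Cc n univ (MP_a8e993_al.pb e φ) :=
  h.pb e.continuous (e.isCompact_preimage.2 h.cpt) subset_rfl (subset_univ _)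

theorem Bd.homeo {n : ℕ} {φ : Co Y} (h : Bd n univ φ) (e : X ≃ₜ Y) : Bd n univ (pb e φ) := by
  obtain ⟨ψ, h1, h2⟩ := h
  exact ⟨_, h1.homeo e, by rw [dl_pb]; exact h2.pb e.continuous⟩

theorem pb_symm_pb (e : X ≃ₜ Y) (φ : Co Y) : pb e.symm (pb e φ) = φ := by
  rw [pb_pb]; exact pb_id' φ e.apply_symm_apply

theorem pb_pb_symm (e : X ≃ₜ Y) (φ : Co X) : pb e (pb e.symm φ) = φ := by
  rw [pb_pb]; exact pb_id' φ e.symm_apply_apply

theorem nb_homeo {n : ℕ} (e : X ≃ₜ Y) (φ : Co Y) : nb n univ (pb e φ) = nb n univ φ := by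
  have : Bd n univ (pb e φ) ↔ Bd n univ φ :=
    ⟨fun h => by simpa [pb_symm_pb] using h.homeo e.symm, fun h => h.homeo e⟩
  unfold nb
  rw [this]

end Homeo

variable {X : Type*} [TopologicalSpace X] [T2Space X] [LocallyCompactSpace X]

/-- locally constant at every point of `U` -/
def LC (σ : X → ZMod 2) (U : Set X) : Prop := ∀ x ∈ U, ∀ᶠ y in 𝓝 x, σ y = σ x

theorem LC.mono {σ : X → ZMod 2} {U V : Set X} (h : LC σ U) (hV : V ⊆ U) : LC σ V :=
  fun x hx => h x (hV hx)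

theorem LC.add {σ σ' : X → ZMod 2} {U : Set X} (h : LC σ U) (h' : LC σ' U) : LC (σ + σ') U :=
  fun x hx => by
    filter_upwards [h x hx, h' x hx] with y h1 h2
    rw [Pi.add_apply, Pi.add_apply, h1, h2]

theorem LC.eq_of_preconnected {Z : Type*} [TopologicalSpace Z] {σ : X → ZMod 2} {U : Set X}
    (h : LC σ U) {g : Z → X} (hg : Continuous g) {S : Set Z} (hS : IsPreconnected S)
    (hU : ∀ z ∈ S, g z ∈ U) {a b : Z} (ha : a ∈ S) (hb : b ∈ S) : σ (g a) = σ (g b) :=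
  hS.induction₂ (fun a b => σ (g a) = σ (g b))
    (fun a ha => mem_nhdsWithin_of_mem_nhds
      ((hg.continuousAt.eventually (h _ (hU a ha))).mono fun _ hb => hb.symm))
    (fun _ _ _ _ _ _ e e' => e.trans e') (fun _ _ _ _ e => e.symm) ha hb

/-- pairing of a locally constant function with a top cocycle -/
noncomputable def pair (σ : X → ZMod 2) (z : Co X) : ZMod 2 := nb 3 univ (cut σ z)

theorem Zc.cut {n : ℕ} {U : Set X} {z : Co X} (hz : Zc n U z) {σ : X → ZMod 2} (h : LC σ U) :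
    Zc n U (cut σ z) := by
  refine ⟨hz.toCc.cut σ, fun x => ?_⟩
  by_cases hx : x ∈ U
  · exact (lz_dl_cut (h x hx) hz.nil).of_add ((hz.coc x).cut σ)
  · exact ((hz.lz hx).cut σ).dl

theorem pair_congr {σ : X → ZMod 2} {z z' : Co X} (h : Null (z + z')) : pair σ z = pair σ z' :=
  nb_congr (Null.bd (fun x => by rw [← cut_add]; exact (h x).cut σ) _ _)

theorem pair_bd {U : Set X} {σ : X → ZMod 2} (h : LC σ U) {z : Co X} (hz : Bd 3 U z) :
    pair σ z = 0 := by
  obtain ⟨y, hy, hn⟩ := hz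
  refine nb_eq_zero.2 ⟨cut σ y, (hy.cut σ).mono (subset_univ _), fun x => ?_⟩
  by_cases hx : x ∈ U
  · have h1 := (hn x).cut σ
    rw [cut_add] at h1
    exact h1.trans (lz_dl_cut (h x hx) hy.nil).symm
  · exact (((hn x).of_add (hy.lz hx).dl).cut σ).add ((hy.lz hx).cut σ).dl

theorem pair_zero {U : Set X} (hU : IsOpen U) {σ : X → ZMod 2} (h : ∀ x ∈ U, σ x = 0) {z : Co X}
    (hz : supp z ⊆ U) : pair σ z = 0 := by
  refine nb_eq_zero.2 (Null.bd (fun x => ?_) _ _)
  by_cases hx : x ∈ U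
  · exact lz_cut_zero (by filter_upwards [hU.mem_nhds hx] with y hy using h y hy)
  · exact (supp_subset_iff.1 hz x hx).cut σ

theorem pair_gen {B : Set X} (hB : Good 3 B) {σ : X → ZMod 2} (h : LC σ B) {z : Co X}
    (hz : Zc 4 B z) (hn : ¬ Bd 3 univ z) {p : X} (hp : p ∈ B) : pair σ z = σ p := by
  have hc : ∀ x ∈ B, σ x = σ p := fun x hx =>
    h.eq_of_preconnected continuous_id hB.conn (fun _ h => h) hx hp
  rcases zmod2_cases (σ p) with e | e <;> rw [e] at hc ⊢
  · exact pair_zero hB.isOpen hc hz.sub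
  · rw [← nb_eq_one.2 hn]
    refine nb_congr (Null.bd (fun x => ?_) _ _)
    by_cases hx : x ∈ B
    · exact lz_cut_one (by filter_upwards [hB.isOpen.mem_nhds hx] with y hy using hc y hy) hz.nil
    · exact ((hz.lz hx).cut σ).add (hz.lz hx)

theorem Mfd.pair_add (hX : Mfd X) [PreconnectedSpace X] {U : Set X} {σ : X → ZMod 2}
    (h : LC σ U) {z z' : Co X} (hz : Zc 4 U z) (hz' : Zc 4 U z') :
    pair σ (z + z') = pair σ z + pair σ z' := by
  unfold pair
  rw [cut_add, hX.nb_add ((hz.cut h).mono (subset_univ _)) ((hz'.cut h).mono (subset_univ _))]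

theorem Mfd.add_pair (hX : Mfd X) [PreconnectedSpace X] {U : Set X} {σ σ' : X → ZMod 2}
    (h : LC σ U) (h' : LC σ' U) {z : Co X} (hz : Zc 4 U z) :
    pair (σ + σ') z = pair σ z + pair σ' z := by
  unfold pair
  rw [add_cut, hX.nb_add ((hz.cut h).mono (subset_univ _)) ((hz.cut h').mono (subset_univ _))]

theorem Mfd.const_of_pair (hX : Mfd X) [PreconnectedSpace X] {U : Set X} (hU : IsOpen U)
    {σ : X → ZMod 2} (h : LC σ U)
    (hv : ∀ v, Cc 3 univ v → supp (dl v) ⊆ U → pair σ (dl v) = 0) {p q : X} (hp : p ∈ U)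
    (hq : q ∈ U) : σ p = σ q := by
  obtain ⟨B, z, h1, h2, h3, h4, h5⟩ := hX.exists_gen p (hU.mem_nhds hp)
  obtain ⟨C, y, g1, g2, g3, g4, g5⟩ := hX.exists_gen q (hU.mem_nhds hq)
  obtain ⟨v, hv1, hv2⟩ := hX.top_one (h4.mono (subset_univ _)) (g4.mono (subset_univ _)) h5 g5
  have hzy := (h4.mono h3).add (g4.mono g3)
  have := hv v hv1 (supp_subset_iff.2 fun x hx => (hv2 x).of_add' (hzy.lz hx))
  rw [← pair_congr hv2, hX.pair_add h (h4.mono h3) (g4.mono g3), pair_gen h1 (h.mono h3) h4 h5 h2,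
    pair_gen g1 (h.mono g3) g4 g5 g2] at this
  have e := add_self2 (σ q)
  linear_combination this - e

/-- an additive functional that only depends on the coboundary is represented by a function -/
theorem Mfd.exists_rep (hX : Mfd X) [PreconnectedSpace X] {U : Set X} (hU : IsOpen U)
    (c : Co X → ZMod 2)
    (hadd : ∀ v v', Cc 3 univ v → supp (dl v) ⊆ U → Cc 3 univ v' → supp (dl v') ⊆ U →
      c (v + v') = c v + c v')
    (hcoc : ∀ v, Zc 3 univ v → c v = 0) (hoff : ∀ v, Cc 3 U v → c v = 0) {p₀ : X}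
    (hp₀ : p₀ ∈ U) : ∃ σ, LC σ U ∧ σ p₀ = 0 ∧
      ∀ v, Cc 3 univ v → supp (dl v) ⊆ U → c v = pair σ (dl v) := by
  obtain ⟨B₀, z₀, a1, a2, a3, a4, a5⟩ := hX.exists_gen p₀ (hU.mem_nhds hp₀)
  have hs : ∀ {z v : Co X}, Zc 4 U z → Null (z + dl v) → supp (dl v) ⊆ U := fun hz hn =>
    supp_subset_iff.2 fun x hx => (hn x).of_add' (hz.lz hx)
  have hcg : ∀ {z z' v v' : Co X}, Zc 4 U z → Zc 4 U z' → Cc 3 univ v → Cc 3 univ v' →
      Null (z + dl v) → Null (z' + dl v') → Bd 3 U (z + z') → c v = c v' := by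
    rintro z z' v v' hz hz' hv hv' hn hn' ⟨y, hy, hy'⟩
    have hvv := hv.add hv'
    have hs2 : supp (dl (v + v')) ⊆ U := by
      rw [dl_add]; exact (supp_add _ _).trans (union_subset (hs hz hn) (hs hz' hn'))
    have h1 := hcoc (v + v' + y) ⟨hvv.add (hy.mono (subset_univ _)), by
      have := (hn.add hn').add hy'
      rw [dl_add, dl_add]
      convert this using 1
      have e1 := co_add_self z
      have e2 := co_add_self z'
      linear_combination -e1 - e2⟩
    rw [hadd _ _ hvv hs2 (hy.mono (subset_univ _)) hy.dl.sub, hoff y hy, add_zero,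
      hadd _ _ hv (hs hz hn) hv' (hs hz' hn')] at h1
    have e := add_self2 (c v')
    linear_combination h1 - e
  have hex : ∀ p : X, ∃ val : ZMod 2, ∀ B z v, Good 3 B → p ∈ B → B ⊆ U → Zc 4 B z →
      ¬ Bd 3 univ z → Cc 3 univ v → Null (z + z₀ + dl v) → val = c v := by
    intro p
    by_cases h : ∃ B z v, Good 3 B ∧ p ∈ B ∧ B ⊆ U ∧ Zc 4 B z ∧ ¬ Bd 3 univ z ∧ Cc 3 univ v ∧
        Null (z + z₀ + dl v)
    · obtain ⟨B, z, v, h1, h2, h3, h4, h5, h6, h7⟩ := h
      refine ⟨c v, fun B' z' v' g1 g2 g3 g4 g5 g6 g7 => ?_⟩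
      refine hcg ((h4.mono h3).add (a4.mono a3)) ((g4.mono g3).add (a4.mono a3)) h6 g6 h7 g7 ?_
      have := (hX.gen_add h1 g1 h2 g2 h4 g4 h5 g5).mono (union_subset h3 g3)
      convert this using 1
      have e1 := co_add_self z₀
      linear_combination e1
    · exact ⟨0, fun B z v h1 h2 h3 h4 h5 h6 h7 => (h ⟨B, z, v, h1, h2, h3, h4, h5, h6, h7⟩).elim⟩
  choose σ hσ using hex
  have hc0 : c 0 = 0 := hoff 0 (cc_zero _ _)
  have hlc : LC σ U := by
    intro p hp
    obtain ⟨B, z, h1, h2, h3, h4, h5⟩ := hX.exists_gen p (hU.mem_nhds hp)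
    obtain ⟨v, hv, hv'⟩ := hX.top_one (h4.mono (subset_univ _)) (a4.mono (subset_univ _)) h5 a5
    filter_upwards [h1.isOpen.mem_nhds h2] with y hy
    rw [hσ p B z v h1 h2 h3 h4 h5 hv hv', hσ y B z v h1 hy h3 h4 h5 hv hv']
  refine ⟨σ, hlc, ?_, fun v hv hsv => ?_⟩
  · rw [hσ p₀ B₀ z₀ 0 a1 a2 a3 a4 a5 (cc_zero _ _) (by simpa using null_refl z₀), hc0]
  have hzc : ∀ {z : Co X}, Zc 4 U z → Zc 4 U (z + nb 3 univ z • z₀) := by
    intro z hz
    rcases zmod2_cases (nb 3 univ z) with e | e <;> rw [e]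
    · simpa using hz
    · simpa using hz.add (a4.mono a3)
  have hbd : ∀ {z : Co X}, Zc 4 U z → Bd 3 univ (z + nb 3 univ z • z₀) := by
    intro z hz
    rcases zmod2_cases (nb 3 univ z) with e | e <;> rw [e]
    · simpa using nb_eq_zero.1 e
    · simpa using hX.top_one (hz.mono (subset_univ _)) (a4.mono (subset_univ _)) (nb_eq_one.1 e) a5
  have key : ∀ z, Zc 4 U z → ∀ v, Cc 3 univ v → Null (z + nb 3 univ z • z₀ + dl v) →
      c v = pair σ z := fun z hz => hX.zc_induction hU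
    (fun z => ∀ v, Cc 3 univ v → Null (z + nb 3 univ z • z₀ + dl v) → c v = pair σ z)
    (fun B hB hBU z hz v hv hn => by
      by_cases hb : Bd 3 univ z
      · have hb' := (hX.bd_of_bd_univ hB hz hb).mono hBU
        rw [nb_eq_zero.2 hb, zero_smul, add_zero] at hn
        rw [pair_bd hlc hb', hcg (hz.mono hBU) (zc_zero _ _) hv (cc_zero _ _) hn
          (by simpa using null_zero) (by simpa using hb'), hc0]
      · rcases B.eq_empty_or_nonempty with rfl | ⟨p, hp⟩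
        · exact (hb (Null.bd (fun x => hz.lz (notMem_empty x)) _ _)).elim
        rw [nb_eq_one.2 hb, one_smul] at hn
        rw [pair_gen hB (hlc.mono hBU) hz hb hp, hσ p B z v hB hp hBU hz hb hv hn])
    (fun z z' hz hz' e e' v hv hn => by
      obtain ⟨a, ha, ha'⟩ := hbd hz
      obtain ⟨b, hb, hb'⟩ := hbd hz'
      rw [hX.pair_add hlc hz hz', ← e a ha ha', ← e' b hb hb',
        ← hadd a b ha (hs (hzc hz) ha') hb (hs (hzc hz') hb')]
      refine hcg (hzc (hz.add hz')) (hzc (hz.add hz')) hv (ha.add hb) hn ?_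
        ((null_refl _).bd _ _)
      have := ha'.add hb'
      rw [hX.nb_add (hz.mono (subset_univ _)) (hz'.mono (subset_univ _)), add_smul, dl_add]
      convert this using 1
      ring) hz
  refine key (dl v) ⟨hv.dl.shrink hsv, hv.zc_dl.coc⟩ v hv ?_
  rw [nb_eq_zero.2 hv.bd_dl, zero_smul, add_zero]
  exact null_refl _

/-- the closed half-plane -/
abbrev HP := ℝ × Ici (0 : ℝ)

theorem cyl_univ : cyl 0 (univ : Set ℝ) univ = univ := eq_univ_of_forall fun _ => ⟨trivial, trivial⟩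

theorem hp_van {n : ℕ} {φ : Co HP} (h : Zc (n + 1) univ φ) : Bd n univ φ := by
  rw [← cyl_univ] at h ⊢
  exact cyl_van isOpen_univ isOpen_univ isLowerSet_univ trivial h

theorem cc_bot {n : ℕ} {b : Co HP} (h : Cc n univ b) : Cc n univ (pb (bot 0) b) := by
  rw [← cyl_univ] at h
  exact cc_pb_bot h

/-- a primitive on the half-plane -/
def Prim (g : HP → X) (v : Co X) (b : Co HP) : Prop := Cc 2 univ b ∧ Null (pb g v + dl b)

open Classical in
/-- a chosen primitive -/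
noncomputable def prim (g : HP → X) (v : Co X) : Co HP :=
  if h : ∃ b, Prim g v b then h.choose else 0

/-- evaluation of a cochain on the plane made of two half-planes -/
noncomputable def ev (g g' : HP → X) (v : Co X) : ZMod 2 :=
  nb 1 univ (pb (bot 0) (prim g v) + pb (bot 0) (prim g' v))

theorem Prim.bd {g : HP → X} {v : Co X} {b b' : Co HP} (h : Prim g v b) (h' : Prim g v b') :
    Bd 1 univ (pb (bot 0) b + pb (bot 0) b') := by
  obtain ⟨d, h1, h2⟩ := hp_van (n := 1) (φ := b + b')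
    ⟨h.1.add h'.1, by rw [dl_add]; exact h.2.symm.trans h'.2⟩
  refine ⟨_, cc_bot h1, ?_⟩
  rw [dl_pb]
  exact h2.pb continuous_bot

theorem Prim.prim {g : HP → X} {v : Co X} {b : Co HP} (h : Prim g v b) : Prim g v (prim g v) := by
  have : ∃ b, Prim g v b := ⟨b, h⟩
  unfold MP_a8e993_al.prim
  rw [dif_pos this]
  exact this.choose_spec

theorem ev_eq {g g' : HP → X} {v : Co X} {b b' : Co HP} (h : Prim g v b) (h' : Prim g' v b') :
    ev g g' v = nb 1 univ (pb (bot 0) b + pb (bot 0) b') := by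
  refine nb_congr ?_
  have := (h.prim.bd h).add (h'.prim.bd h')
  convert this using 1
  ring

theorem Prim.zc {g g' : HP → X} (hg : ∀ s, g (bot 0 s) = g' (bot 0 s)) {v : Co X}
    {b b' : Co HP} (h : Prim g v b) (h' : Prim g' v b') :
    Zc 2 univ (pb (bot 0) b + pb (bot 0) b') := by
  refine ⟨(cc_bot h.1).add (cc_bot h'.1), ?_⟩
  have h1 := h.2.pb (continuous_bot (Y := ℝ))
  have h2 := h'.2.pb (continuous_bot (Y := ℝ))
  rw [pb_add, pb_pb, ← dl_pb] at h1 h2
  rw [show g ∘ bot 0 = g' ∘ bot 0 from funext hg] at h1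
  rw [dl_add]
  exact h1.symm.trans h2

theorem nb_real_add {z z' : Co ℝ} (h : Zc 2 univ z) (h' : Zc 2 univ z') :
    nb 1 univ (z + z') = nb 1 univ z + nb 1 univ z' := nb_add (good_real.one z z' h h')

theorem Prim.add {g : HP → X} {v v' : Co X} {b b' : Co HP} (h : Prim g v b) (h' : Prim g v' b') :
    Prim g (v + v') (b + b') := by
  refine ⟨h.1.add h'.1, ?_⟩
  have := h.2.add h'.2
  rw [pb_add, dl_add]
  convert this using 1
  ring

theorem exists_prim {g : HP → X} (hg : IsProperMap g) {v : Co X} (hv : Cc 3 univ v)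
    (h : ∀ z, g z ∉ supp (dl v)) : ∃ b, Prim g v b :=
  hp_van (n := 2) ⟨hv.pb hg.continuous (hg.isCompact_preimage hv.cpt) subset_rfl (subset_univ _),
    fun z => by
      rw [dl_pb]
      exact (lz_of_notMem (h z)).pb hg.continuous.continuousAt⟩

theorem ev_add {g g' : HP → X} (hg : ∀ s, g (bot 0 s) = g' (bot 0 s)) {v v' : Co X}
    (h1 : ∃ b, Prim g v b) (h2 : ∃ b, Prim g' v b) (h3 : ∃ b, Prim g v' b)
    (h4 : ∃ b, Prim g' v' b) : ev g g' (v + v') = ev g g' v + ev g g' v' := by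
  obtain ⟨a, h1⟩ := h1
  obtain ⟨b, h2⟩ := h2
  obtain ⟨c, h3⟩ := h3
  obtain ⟨d, h4⟩ := h4
  rw [ev_eq h1 h2, ev_eq h3 h4, ev_eq (h1.add h3) (h2.add h4),
    ← nb_real_add (h1.zc hg h2) (h3.zc hg h4), pb_add, pb_add]
  congr 1
  ring

theorem ev_cyc {g₁ g₂ g₃ : HP → X} (h12 : ∀ s, g₁ (bot 0 s) = g₂ (bot 0 s))
    (h23 : ∀ s, g₂ (bot 0 s) = g₃ (bot 0 s)) {v : Co X}
    (h1 : ∃ b, Prim g₁ v b) (h2 : ∃ b, Prim g₂ v b) (h3 : ∃ b, Prim g₃ v b) :
    ev g₁ g₂ v + ev g₂ g₃ v + ev g₃ g₁ v = 0 := by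
  obtain ⟨a, h1⟩ := h1
  obtain ⟨b, h2⟩ := h2
  obtain ⟨c, h3⟩ := h3
  rw [ev_eq h1 h2, ev_eq h2 h3, ev_eq h3 h1, ← nb_real_add (h1.zc h12 h2) (h2.zc h23 h3),
    add_assoc, ← add_assoc (pb (bot 0) b), co_add_self, zero_add, add_comm (pb (bot 0) c),
    add_self2]

theorem ev_cocycle (hX : Mfd X) [SimplyConnectedSpace X] [LocallyPathConnectedSpace X]
    {g g' : HP → X} (hp : IsProperMap g) (hp' : IsProperMap g')
    (hg : ∀ s, g (bot 0 s) = g' (bot 0 s)) {v : Co X} (hv : Zc 3 univ v) : ev g g' v = 0 := by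
  obtain ⟨b, h1, h2⟩ := hX.h2 hv
  have key : ∀ {g : HP → X}, IsProperMap g → Prim g v (pb g b) := fun hp =>
    ⟨h1.pb hp.continuous (hp.isCompact_preimage h1.cpt) subset_rfl (subset_univ _), by
      rw [dl_pb]; exact h2.pb hp.continuous⟩
  rw [ev_eq (key hp) (key hp'), pb_pb, pb_pb, show g ∘ bot 0 = g' ∘ bot 0 from funext hg,
    co_add_self]
  exact nb_eq_zero.2 (null_zero.bd _ _)

theorem prim_zero {g : HP → X} (hg : Continuous g) {v : Co X} (h : ∀ z, g z ∉ supp v) :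
    Prim g v 0 :=
  ⟨cc_zero _ _, fun z => by simpa using (lz_of_notMem (h z)).pb hg.continuousAt⟩

/-- translation along the boundary line -/
def shiftHP : HP ≃ₜ HP := (Homeomorph.addRight (1 : ℝ)).prodCongr (Homeomorph.refl _)

theorem ev_equiv (t : X ≃ₜ X) {g g' k k' : HP → X} (h : ∀ z, t (g z) = k (shiftHP z))
    (h' : ∀ z, t (g' z) = k' (shiftHP z)) {v : Co X} (h1 : ∃ b, Prim k v b)
    (h2 : ∃ b, Prim k' v b) : ev g g' (pb t v) = ev k k' v := by
  obtain ⟨a, h1⟩ := h1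
  obtain ⟨b, h2⟩ := h2
  have key : ∀ {g k : HP → X} {a : Co HP}, (∀ z, t (g z) = k (shiftHP z)) → Prim k v a →
      Prim g (pb t v) (pb shiftHP a) := by
    intro g k a h h1
    refine ⟨h1.1.homeo shiftHP, ?_⟩
    have := h1.2.pb shiftHP.continuous
    rwa [pb_add, pb_pb, ← dl_pb, ← show t ∘ g = k ∘ shiftHP from funext h, ← pb_pb] at this
  rw [ev_eq (key h h1) (key h' h2), ev_eq h1 h2,
    ← nb_homeo (Homeomorph.addRight (1 : ℝ)) (pb (bot 0) a + pb (bot 0) b),
    pb_add, pb_pb, pb_pb, pb_pb, pb_pb]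
  rfl

end Pool.Agent.P.MP_a8e993_al
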